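import Pool.Agent.J6H74.MW.FB

/-!
# Many irrational odd zeta values in every window: the archimedean bound
-/

set_option autoImplicit false

open Polynomial Pool.Agent.H337R2 Pool.Agent.W165.OZ Filter Topology

namespace Pool.Agent.J6H74.MW

noncomputable section

variable {N : ℕ} {δ c1 c2 : ℝ} {τ ω : ℕ → ℝ}

lemma hasSum_Lf {b n h : ℕ} {μ : ℕ → ℝ} (hM : MomD b n h τ ω μ) (P : ℝ[X])
    (hP : P.natDegree + 2 ≤ h * n) :
    HasSum (fun l => ω l * FR b n h P (τ l)) (Lf μ P) := by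
  rw [Lf_apply μ P (P.natDegree + 1) (Nat.lt_succ_self _)]
  have h1 : (fun l => ω l * FR b n h P (τ l)) = fun l =>
      ∑ k ∈ Finset.range (P.natDegree + 1), P.coeff k * (ω l * FR b n h (X ^ k) (τ l)) := by
    funext l
    conv_lhs => rw [P.as_sum_range_C_mul_X_pow]
    rw [FR_sum, Finset.mul_sum]
    apply Finset.sum_congr rfl
    intro k _
    rw [FR_C_mul]
    ring
  rw [h1]
  apply hasSum_sum
  intro k hk
  have hk' : k ≤ P.natDegree := Nat.lt_succ_iff.1 (Finset.mem_range.1 hk)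
  exact (hM k (by omega)).mul_left _

/-- the Newton basis, with multiplicity `s` -/
def Qs (s n : ℕ) (τ : ℕ → ℝ) (i : ℕ) : ℝ[X] := ∏ l ∈ Finset.range i, (X - C (yv n (τ (l / s))))

lemma Qs_monic (s n : ℕ) (τ : ℕ → ℝ) (i : ℕ) : (Qs s n τ i).Monic :=
  monic_prod_of_monic _ _ fun _ _ => monic_X_sub_C _

lemma Qs_deg (s n : ℕ) (τ : ℕ → ℝ) (i : ℕ) : (Qs s n τ i).natDegree = i := by
  unfold Qs
  rw [natDegree_prod_of_monic _ _ fun l _ => monic_X_sub_C _]
  simp

lemma Qs_dvd {s : ℕ} (hs : 1 ≤ s) (n : ℕ) (τ : ℕ → ℝ) {i l : ℕ} (h : l < i / s) :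
    (X - C (yv n (τ l))) ^ s ∣ Qs s n τ i := by
  have h1 : (l + 1) * s ≤ i := (Nat.le_div_iff_mul_le hs).1 h
  have h2 : ∏ a ∈ Finset.Ico (l * s) ((l + 1) * s), (X - C (yv n (τ (a / s)))) =
      (X - C (yv n (τ l))) ^ s := by
    have h3 : ∀ a ∈ Finset.Ico (l * s) ((l + 1) * s), (X - C (yv n (τ (a / s)))) =
        (X - C (yv n (τ l)) : ℝ[X]) := by
      intro a ha
      rw [Finset.mem_Ico] at ha
      have : a / s = l := by
        rw [Nat.div_eq_iff (by omega)]
        constructor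
        · linarith [ha.1]
        · have := ha.2
          rw [Nat.add_mul, one_mul] at this
          omega
      rw [this]
    rw [Finset.prod_congr rfl h3, Finset.prod_const, Nat.card_Ico]
    congr 1
    rw [Nat.add_mul, one_mul]
    omega
  rw [← h2]
  unfold Qs
  apply Finset.prod_dvd_prod_of_subset
  intro a ha
  rw [Finset.mem_Ico] at ha
  rw [Finset.mem_range]
  omega

lemma tau_one (hN : Nodes N δ c1 c2 τ ω) (i : ℕ) : 1 ≤ τ i := (AR.tau_gt hN i).le

lemma Qs_PY (hN : Nodes N δ c1 c2 τ ω) {b n h s i l : ℕ} (hn : 1 ≤ n) (hh : 1 ≤ h) (hil : i / s ≤ l) :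
    PY b n h i (τ l) (Qs s n τ i) := by
  have h1 := PY.prod (b := b) hn hh (tau_one hN l) (Finset.range i) 1
    (fun a => (X - C (yv n (τ (a / s)))))
    (fun a ha => by
      have ht := tau_one hN (a / s)
      apply PY.lin hn hh (tau_one hN l) (AR.yv_nonneg hn (by linarith))
      apply AR.yv_mono hn (by linarith)
      apply (AR.tau_mono hN).monotone
      exact (Nat.div_le_div_right (Finset.mem_range.1 ha).le).trans hil)
  rw [Finset.card_range, mul_one] at h1
  exact h1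

lemma entryD (hN : Nodes N δ c1 c2 τ ω) {b n h s : ℕ} (hs : b < s) (hn : 1 ≤ n) (hh : 1 ≤ h)
    {μ : ℕ → ℝ} (hM : MomD b n h τ ω μ) (i j : ℕ) (hij : i + j + 2 ≤ h * n) (hle : i ≤ j) :
    |Lf μ (Qs s n τ i * Qs s n τ j)| ≤
      6 * (4 * (h : ℝ) * n) ^ b * (4 * (N : ℝ) ^ 2 * c2 *
        (MM N (j / s) ^ (2 * (h * n - 2 - (i + j))))⁻¹) := by
  set P := Qs s n τ i * Qs s n τ j with hPd
  have hdeg : P.natDegree = i + j := by
    rw [hPd, (Qs_monic s n τ i).natDegree_mul (Qs_monic s n τ j), Qs_deg, Qs_deg]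
  have hs' := hasSum_Lf hM P (by rw [hdeg]; exact hij)
  set M := j / s with hMd
  obtain ⟨t1, t2⟩ := t_tb N δ c1 c2 τ ω hN n h M (i + j) hn hh hij
  have hz : ∀ l < M, ω l * FR b n h P (τ l) = 0 := by
    intro l hl
    obtain ⟨P', hP'⟩ := Qs_dvd (by omega) n τ hl
    have e : P = (X - C (yv n (τ l))) ^ s * (Qs s n τ i * P') := by
      rw [hPd, hP']; ring
    rw [e, FR_zero hs, mul_zero]
  have hs2 : HasSum (fun l => ω (l + M) * FR b n h P (τ (l + M))) (Lf μ P) := by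
    have h3 := (hasSum_nat_add_iff' M).2 hs'
    rw [Finset.sum_eq_zero (fun l hl => hz l (Finset.mem_range.1 hl)), sub_zero] at h3
    exact h3
  set K : ℝ := 6 * (4 * (h : ℝ) * n) ^ b with hK
  have hK0 : 0 ≤ K := by positivity
  have hb : ∀ l, ‖ω (l + M) * FR b n h P (τ (l + M))‖ ≤
      K * (|ω (l + M)| * (Rv n h (τ (l + M)) * yv n (τ (l + M)) ^ (i + j))) := by
    intro l
    have h5 : i / s ≤ l + M := (Nat.div_le_div_right hle).trans (by omega)
    have h6 : PY b n h (i + j) (τ (l + M)) P :=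
      PY.mul hn hh (tau_one hN _) (Qs_PY hN hn hh h5) (Qs_PY hN hn hh (by omega))
    have h7 := FR_bound hn hh (tau_one hN (l + M)) (by omega) h6
    rw [norm_mul, Real.norm_eq_abs, Real.norm_eq_abs]
    calc |ω (l + M)| * |FR b n h P (τ (l + M))| ≤ |ω (l + M)| *
          (K * (Rv n h (τ (l + M)) * yv n (τ (l + M)) ^ (i + j))) :=
          mul_le_mul_of_nonneg_left h7 (abs_nonneg _)
      _ = _ := by ring
  have h4 : ‖Lf μ P‖ ≤
      ∑' l, K * (|ω (l + M)| * (Rv n h (τ (l + M)) * yv n (τ (l + M)) ^ (i + j))) := by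
    rw [← hs2.tsum_eq]
    exact tsum_of_norm_bounded (t1.mul_left K).hasSum hb
  rw [Real.norm_eq_abs, tsum_mul_left] at h4
  exact h4.trans (mul_le_mul_of_nonneg_left t2 hK0)

theorem t_arD (hN : Nodes N δ c1 c2 τ ω) {b s n h : ℕ} (hs : b < s) (hn : 1 ≤ n) (hh : 1 ≤ h)
    (hev : Even n) {μ : ℕ → ℝ} (hM : MomD b n h τ ω μ) {r : ℕ} (hr : 2 * r ≤ h * n) :
    |DH μ r| ≤ ArcD s N n h (6 * (4 * (h : ℝ) * n) ^ b * (4 * (N : ℝ) ^ 2 * c2)) r := by
  have hc2 : 0 ≤ c2 := (abs_nonneg _).trans (hN.whi 0)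
  obtain ⟨m, hm⟩ : ∃ m, h * n = 2 * m := by
    obtain ⟨k, hk⟩ := hev
    exact ⟨h * k, by rw [hk]; ring⟩
  have hm2 : h * n / 2 = m := by omega
  have hrm : r ≤ m := by omega
  set C0 : ℝ := 6 * (4 * (h : ℝ) * n) ^ b * (4 * (N : ℝ) ^ 2 * c2) with hC0
  have hC0n : 0 ≤ C0 := by positivity
  let A : ℕ → ℝ := fun i => (MM N (i / s) ^ (2 * (m - 1 - i)))⁻¹
  have hA0 : ∀ i, 0 ≤ A i := fun i => by
    have := AR.MM_one N (i / s)
    positivity
  have hdet := t_bas ℝ ℝ (Lf μ) (Qs s n τ) (Qs_monic s n τ) (Qs_deg s n τ) r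
  have hDH : DH (fun k => Lf μ (X ^ k)) r = DH μ r := by
    congr 1
    funext k
    exact Lf_X_pow μ k
  rw [hDH] at hdet
  rw [← hdet]
  have hent1 : ∀ i j : ℕ, i < r → j < r → i ≤ j →
      |Lf μ (Qs s n τ i * Qs s n τ j)| ≤ C0 * (A i * A j) := by
    intro i j hi hj hle
    refine (entryD hN hs hn hh hM i j (by omega) hle).trans ?_
    rw [← mul_assoc]
    apply mul_le_mul_of_nonneg_left _ hC0n
    have e1 : 2 * (h * n - 2 - (i + j)) = 2 * (m - 1 - i) + 2 * (m - 1 - j) := by omega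
    rw [e1, pow_add, ← mul_inv]
    have p1 := AR.MM_one N (i / s)
    have p2 := AR.MM_one N (j / s)
    apply inv_anti₀ (by positivity)
    apply mul_le_mul
    · exact pow_le_pow_left₀ (by linarith) (AR.MM_mono N (Nat.div_le_div_right hle)) _
    · exact le_rfl
    · positivity
    · positivity
  have hent : ∀ i j : Fin r, |Lf μ (Qs s n τ i.1 * Qs s n τ j.1)| ≤ C0 * (A i.1 * A j.1) := by
    intro i j
    rcases le_total i.1 j.1 with h | h
    · exact hent1 i.1 j.1 i.2 j.2 h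
    · have := hent1 j.1 i.1 j.2 i.2 h
      rw [mul_comm (Qs s n τ i.1), mul_comm (A i.1)]
      exact this
  rw [Matrix.det_apply]
  calc |∑ σ : Equiv.Perm (Fin r), Equiv.Perm.sign σ •
        ∏ i, Matrix.of (fun i j : Fin r => Lf μ (Qs s n τ i.1 * Qs s n τ j.1)) (σ i) i|
      ≤ ∑ σ : Equiv.Perm (Fin r), |Equiv.Perm.sign σ •
        ∏ i, Matrix.of (fun i j : Fin r => Lf μ (Qs s n τ i.1 * Qs s n τ j.1)) (σ i) i| :=
        Finset.abs_sum_le_sum_abs _ _
    _ ≤ ∑ _σ : Equiv.Perm (Fin r), C0 ^ r * (∏ i : Fin r, A i.1) ^ 2 := by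
        apply Finset.sum_le_sum
        intro σ _
        have e1 : |Equiv.Perm.sign σ •
            ∏ i, Matrix.of (fun i j : Fin r => Lf μ (Qs s n τ i.1 * Qs s n τ j.1)) (σ i) i| =
            ∏ i, |Lf μ (Qs s n τ (σ i).1 * Qs s n τ i.1)| := by
          rw [Units.smul_def, zsmul_eq_mul, abs_mul, Finset.abs_prod]
          have : |(((Equiv.Perm.sign σ : ℤˣ) : ℤ) : ℝ)| = 1 := by
            rcases Int.units_eq_one_or (Equiv.Perm.sign σ) with h | h <;> rw [h] <;> simp
          rw [this, one_mul]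
          rfl
        rw [e1]
        calc ∏ i, |Lf μ (Qs s n τ (σ i).1 * Qs s n τ i.1)| ≤
              ∏ i : Fin r, (C0 * (A (σ i).1 * A i.1)) :=
              Finset.prod_le_prod (fun i _ => abs_nonneg _) (fun i _ => hent (σ i) i)
          _ = C0 ^ r * ((∏ i : Fin r, A (σ i).1) * ∏ i : Fin r, A i.1) := by
              rw [Finset.prod_mul_distrib (f := fun _ : Fin r => C0),
                Finset.prod_mul_distrib (f := fun i : Fin r => A (σ i).1), Finset.prod_const,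
                Finset.card_univ, Fintype.card_fin]
          _ = C0 ^ r * (∏ i : Fin r, A i.1) ^ 2 := by
              rw [Equiv.prod_comp σ (fun i : Fin r => A i.1), sq]
    _ = ArcD s N n h C0 r := by
        rw [Finset.sum_const, Finset.card_univ, Fintype.card_perm, Fintype.card_fin,
          nsmul_eq_mul]
        unfold ArcD
        rw [mul_assoc]
        congr 2
        rw [← Finset.prod_pow, Finset.prod_range]
        apply Finset.prod_congr rfl
        intro i _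
        change ((MM N (i.1 / s) ^ (2 * (m - 1 - i.1)))⁻¹) ^ 2 = _
        rw [inv_pow, ← pow_mul, hm2]
        congr 2
        ring

end

end Pool.Agent.J6H74.MW
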