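import Pool.Agent.J6H74.MW.PR
import Pool.Agent.J6H74.MW.AR

/-!
# Many irrational odd zeta values in every window: the asymptotic size
-/

set_option autoImplicit false

open Polynomial Pool.Agent.H337R2 Pool.Agent.W165.OZ Filter Topology

namespace Pool.Agent.J6H74.MW

noncomputable section

lemma MM_half {s N i : ℕ} (hs : 1 ≤ s) (hN : 1 ≤ N) : MM (s * N) i / 2 ≤ MM N (i / s) := by
  have hs0 : (0 : ℝ) < s := by exact_mod_cast hs
  have hN0 : (0 : ℝ) < N := by exact_mod_cast hN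
  have hN1 : (1 : ℝ) ≤ N := by exact_mod_cast hN
  have h1 := AR.MM_one N (i / s)
  by_cases hc : MM (s * N) i ≤ 2
  · linarith
  · have hc' := not_le.1 hc
    have h2 : MM (s * N) i = (i : ℝ) / ((s * N : ℕ) : ℝ) := by
      unfold MM at hc' ⊢
      rcases max_choice (1 : ℝ) ((i : ℝ) / ((s * N : ℕ) : ℝ)) with h | h
      · rw [h] at hc'
        norm_num at hc'
      · exact h
    rw [h2] at hc' ⊢
    push_cast at hc' ⊢
    have h3 : (i : ℝ) < s * ((i / s : ℕ) : ℝ) + s := by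
      have := Nat.lt_div_mul_add (a := i) (b := s) hs
      have h4 : i < s * (i / s) + s := by
        have e : i / s * s = s * (i / s) := Nat.mul_comm _ _
        omega
      exact_mod_cast h4
    have h4 : ((i / s : ℕ) : ℝ) / N ≤ MM N (i / s) := by
      unfold MM
      exact le_max_right _ _
    refine le_trans ?_ h4
    rw [lt_div_iff₀ (by positivity)] at hc'
    rw [div_div, div_le_div_iff₀ (by positivity) hN0]
    nlinarith

lemma asD_final {LF r LC aC bL Lq S m Lm E X Ln hn lam P Q G : ℝ}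
    (f1 : LF ≤ m * Lm) (f2 : r * LC ≤ m * aC) (f2b : r * bL ≤ m * bL) (f3 : r * Lq ≤ m * Lq)
    (f4 : S ≤ 4 * X + r * (4 * Lm + G + E)) (f7 : r * (4 * Lm + G + E) ≤ m * (4 * Lm + G + E))
    (f5 : X ≤ m * Ln + m ^ 2 - lam * (m ^ 2 / 16 - m)) (g6 : 2 * m = hn)
    (g4 : m * (5 * Lm + aC + bL + Lq + 4 * Ln + 4 * lam + E) ≤ 3 * hn ^ 2)
    (g5 : m * G ≤ 12 * hn ^ 2)
    (f6 : P ≤ Q * hn ^ 2) :
    LF + (r * LC + r * bL) + r * Lq + S + P ≤ (16 + Q - (1 / 16) * lam) * hn ^ 2 := by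
  subst g6
  have e : (16 + Q - (1 / 16) * lam) * (2 * m) ^ 2 - (LF + (r * LC + r * bL) + r * Lq + S + P) =
      (m * Lm - LF) + (m * aC - r * LC) + (m * bL - r * bL) + (m * Lq - r * Lq) +
      (4 * X + r * (4 * Lm + G + E) - S) + (m * (4 * Lm + G + E) - r * (4 * Lm + G + E)) +
      4 * (m * Ln + m ^ 2 - lam * (m ^ 2 / 16 - m) - X) +
      (3 * (2 * m) ^ 2 - m * (5 * Lm + aC + bL + Lq + 4 * Ln + 4 * lam + E)) +
      (12 * (2 * m) ^ 2 - m * G) + (Q * (2 * m) ^ 2 - P) := by ring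
  linarith

lemma asD_growth_use {b0 h Lm Ln LC bb Lq lam s c t y : ℝ} (hh : 0 ≤ h) (hb : 0 ≤ bb)
    (g1 : Lm ≤ b0 + Ln) (g2 : s ≤ 4 * c * t)
    (hgr : (5 * b0 + LC + Lq + 4 * lam + (2 * h + 4)) + (5 + bb + 4 + (2 * h + 4)) * Ln +
      ((2 * h + 4 + 2 * bb) * (4 * c)) * t ≤ y) :
    5 * Lm + LC + bb * Ln + Lq + 4 * Ln + 4 * lam + ((2 * h + 4) * (s + Ln + 1) + 2 * bb * s) ≤ y := by
  have h4 : (2 * h + 4 + 2 * bb) * s ≤ (2 * h + 4 + 2 * bb) * (4 * c * t) :=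
    mul_le_mul_of_nonneg_left g2 (by linarith)
  refine le_trans ?_ hgr
  linarith

/-- the logarithm of the product -/
lemma asD_log {b s N h B q n m r : ℕ} {C : ℝ} (hn : 1 ≤ n) (hC : 0 < C) (hq : 1 ≤ q) (hm : 2 * m = h * n)
    (hrm : r ≤ m) :
    Real.log (ArcD s N n h (C * (n : ℝ) ^ b) r * ((q : ℝ) ^ r * (∏ i ∈ Finset.range r, (scD b n h B i : ℝ) ^ 2) *
      (PPD b n h B : ℝ))) =
    Real.log (r.factorial : ℝ) + (r * Real.log C + r * (b * Real.log n)) + r * Real.log q +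
      ∑ i ∈ Finset.range r, (2 * Real.log (sc n h B i : ℝ) + 2 * (b * Real.log (Dl n B : ℝ)) -
        4 * ((m : ℝ) - 1 - i) * Real.log (MM N (i / s))) + 2 * ((b : ℝ) + 1) * Real.log (PPn n h B) := by
  have hdiv : h * n / 2 = m := by omega
  have hn0 : (0 : ℝ) < n := by exact_mod_cast hn
  have p1 : (0 : ℝ) < (r.factorial : ℝ) := by exact_mod_cast r.factorial_pos
  have pn : (0 : ℝ) < (n : ℝ) ^ b := pow_pos hn0 b
  have p2 : 0 < (C * (n : ℝ) ^ b) ^ r := pow_pos (mul_pos hC pn) r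
  have hM : ∀ i, 0 < MM N i := fun i => lt_of_lt_of_le one_pos (AR.MM_one N i)
  have p3 : 0 < ∏ i ∈ Finset.range r, (MM N (i / s) ^ (4 * (h * n / 2 - 1 - i)))⁻¹ :=
    Finset.prod_pos fun i _ => inv_pos.mpr (pow_pos (hM _) _)
  have hq' : (0 : ℝ) < q := by exact_mod_cast hq
  have p4 : (0 : ℝ) < (q : ℝ) ^ r := pow_pos hq' r
  have hs : ∀ i, (0 : ℝ) < (sc n h B i : ℝ) := fun i => by exact_mod_cast PRaux.sc_pos n h B i
  have hD : (0 : ℝ) < (Dl n B : ℝ) := by exact_mod_cast PRaux.Dl_pos n B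
  have hsD : ∀ i, (0 : ℝ) < (scD b n h B i : ℝ) := fun i => by exact_mod_cast scD_pos b n h B i
  have p5 : (0 : ℝ) < ∏ i ∈ Finset.range r, (scD b n h B i : ℝ) ^ 2 :=
    Finset.prod_pos fun i _ => pow_pos (hsD i) _
  have p6 : (0 : ℝ) < (PPD b n h B : ℝ) := by exact_mod_cast PPD_pos b n h B
  unfold ArcD
  rw [Real.log_mul (mul_pos (mul_pos p1 p2) p3).ne' (mul_pos (mul_pos p4 p5) p6).ne',
    Real.log_mul (mul_pos p1 p2).ne' p3.ne', Real.log_mul p1.ne' p2.ne', Real.log_pow,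
    Real.log_mul hC.ne' pn.ne', Real.log_pow,
    Real.log_mul (mul_pos p4 p5).ne' p6.ne', Real.log_mul p4.ne' p5.ne', Real.log_pow,
    Real.log_prod (fun i _ => (inv_pos.mpr (pow_pos (hM _) _)).ne'),
    Real.log_prod (fun i _ => (pow_pos (hsD i) _).ne'), Finset.sum_sub_distrib]
  have e1 : ∑ i ∈ Finset.range r, Real.log (MM N (i / s) ^ (4 * (h * n / 2 - 1 - i)))⁻¹ =
      -∑ i ∈ Finset.range r, 4 * ((m : ℝ) - 1 - i) * Real.log (MM N (i / s)) := by
    rw [← Finset.sum_neg_distrib]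
    refine Finset.sum_congr rfl fun i hi => ?_
    have hi' := Finset.mem_range.mp hi
    rw [Real.log_inv, Real.log_pow, hdiv]
    have : ((4 * (m - 1 - i) : ℕ) : ℝ) = 4 * ((m : ℝ) - 1 - i) := by
      have h4 : m = (m - 1 - i) + 1 + i := by omega
      have h5 : (m : ℝ) = ((m - 1 - i : ℕ) : ℝ) + 1 + i := by exact_mod_cast h4
      push_cast
      rw [h5]
      ring
    rw [this]
  have e2 : ∑ i ∈ Finset.range r, Real.log ((scD b n h B i : ℝ) ^ 2) =
      ∑ i ∈ Finset.range r, (2 * Real.log (sc n h B i : ℝ) + 2 * (b * Real.log (Dl n B : ℝ))) := by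
    refine Finset.sum_congr rfl fun i _ => ?_
    rw [Real.log_pow]
    have e : (scD b n h B i : ℝ) = (sc n h B i : ℝ) * (Dl n B : ℝ) ^ b := by
      unfold scD
      push_cast
      rfl
    rw [e, Real.log_mul (hs i).ne' (pow_pos hD b).ne', Real.log_pow]
    push_cast
    ring
  have e3 : Real.log (PPD b n h B : ℝ) = 2 * ((b : ℝ) + 1) * Real.log (PPn n h B) := by
    unfold PPD
    push_cast
    rw [Real.log_pow]
    push_cast
    ring
  rw [e1, e2, e3]
  ring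

theorem t_asD (b N h' B q : ℕ) (C : ℝ) (hN : 1 ≤ N) (hB : 1 ≤ B) (hq : 1 ≤ q)
    (hC : 0 < C) (hNh : 2 * N ≤ h') :
    ∃ n0 : ℕ, ∀ n ≥ n0, Even n → ∀ r : ℕ, (b + 1) * h' * n ≤ 16 * r → 2 * r ≤ (b + 1) * h' * n →
    Real.log (ArcD (b + 1) N n ((b + 1) * h') (C * (n : ℝ) ^ b) r * ((q : ℝ) ^ r *
      (∏ i ∈ Finset.range r, (scD b n ((b + 1) * h') B i : ℝ) ^ 2) * (PPD b n ((b + 1) * h') B : ℝ))) ≤
      (16 * (1 + ((B : ℝ) * (B + 1) / h') * (1 + Real.log B)) -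
        (1 / 16) * Real.log ((h' : ℝ) / (2 * N))) * ((((b + 1) * h' : ℕ) : ℝ) * n) ^ 2 := by
  obtain ⟨s, hs⟩ : ∃ s, s = b + 1 := ⟨_, rfl⟩
  rw [← hs]
  have hs1 : 1 ≤ s := by omega
  obtain ⟨h, hhd⟩ : ∃ h, h = s * h' := ⟨_, rfl⟩
  rw [← hhd]
  have hh'1 : 1 ≤ h' := by omega
  have hh : 1 ≤ h := by rw [hhd]; exact Nat.mul_pos hs1 hh'1
  have hbh : b ≤ h := by
    rw [hhd, hs]
    calc b ≤ (b + 1) * 1 := by omega
      _ ≤ (b + 1) * h' := Nat.mul_le_mul_left _ hh'1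
  have hNhs : 2 * (s * N) ≤ h := by
    rw [hhd]
    calc 2 * (s * N) = s * (2 * N) := by ring
      _ ≤ s * h' := Nat.mul_le_mul_left _ hNh
  have hsR : (1 : ℝ) ≤ s := by exact_mod_cast hs1
  have hh'R : (1 : ℝ) ≤ h' := by exact_mod_cast hh'1
  have hhR : (h : ℝ) = s * h' := by rw [hhd]; push_cast; ring
  set lam : ℝ := Real.log ((h' : ℝ) / (2 * N)) with hlam
  have hN' : (1 : ℝ) ≤ N := by exact_mod_cast hN
  have hlam2 : Real.log ((h : ℝ) / (2 * ((s * N : ℕ) : ℝ))) = lam := by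
    rw [hlam, hhR]
    congr 1
    push_cast
    field_simp
  have hh' : (1 : ℝ) ≤ h := by exact_mod_cast hh
  have hB' : (1 : ℝ) ≤ B := by exact_mod_cast hB
  have hq' : (1 : ℝ) ≤ q := by exact_mod_cast hq
  have hNh' : 2 * (N : ℝ) ≤ h' := by exact_mod_cast hNh
  have hbR : (b : ℝ) ≤ h := by exact_mod_cast hbh
  have hb0 : (0 : ℝ) ≤ b := by positivity
  have hlam0 : 0 ≤ lam := Real.log_nonneg (by
    rw [le_div_iff₀ (by linarith)]; linarith)
  have hlq : 0 ≤ Real.log q := Real.log_nonneg hq'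
  set K0 : ℝ := 5 * Real.log (h + 1) + |Real.log C| + Real.log q + 4 * lam + (2 * h + 4) with hK0
  set K1 : ℝ := 5 + b + 4 + (2 * h + 4) with hK1
  set K3 : ℝ := (2 * h + 4 + 2 * b) * (4 * (B : ℝ) ^ ((3 : ℝ) / 4)) with hK3
  obtain ⟨n1, hn1⟩ := as_growth K0 K1 K3
  refine ⟨max 2 n1, fun n hn hne r hr1 hr2 => ?_⟩
  have hn2 : 2 ≤ n := (le_max_left _ _).trans hn
  obtain ⟨-, hgr⟩ := hn1 n ((le_max_right _ _).trans hn)
  have hnR : (2 : ℝ) ≤ n := by exact_mod_cast hn2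
  have hnpos : (0 : ℝ) < n := by linarith
  obtain ⟨m, hm⟩ : ∃ m, 2 * m = h * n := by
    obtain ⟨k, hk⟩ := hne
    exact ⟨h * k, by rw [hk]; ring⟩
  have hmR : 2 * (m : ℝ) = h * n := by exact_mod_cast hm
  have hrm : r ≤ m := by omega
  have hmr : m ≤ 8 * r := by omega
  have hrmR : (r : ℝ) ≤ m := by exact_mod_cast hrm
  have hr0 : (0 : ℝ) ≤ r := by positivity
  have hm0 : (0 : ℝ) ≤ m := by positivity
  rw [asD_log (N := N) (B := B) (s := s) (by omega) hC hq hm hrm]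
  -- the factorial
  have hlm : 0 ≤ Real.log ((m : ℝ) + 1) := Real.log_nonneg (by linarith)
  have f1 : Real.log (r.factorial : ℝ) ≤ m * Real.log ((m : ℝ) + 1) := by
    have h4 : (r.factorial : ℝ) ≤ ((m : ℝ) + 1) ^ r := by
      have h5 : r.factorial ≤ r ^ r := Nat.factorial_le_pow r
      have h6 : (r.factorial : ℝ) ≤ (r : ℝ) ^ r := by exact_mod_cast h5
      exact h6.trans (pow_le_pow_left₀ hr0 (by linarith) r)
    have h5 := Real.log_le_log (by exact_mod_cast r.factorial_pos) h4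
    rw [Real.log_pow] at h5
    exact h5.trans (mul_le_mul_of_nonneg_right hrmR hlm)
  have f2 : (r : ℝ) * Real.log C ≤ m * |Real.log C| := by
    calc (r : ℝ) * Real.log C ≤ r * |Real.log C| :=
          mul_le_mul_of_nonneg_left (le_abs_self _) hr0
      _ ≤ m * |Real.log C| := mul_le_mul_of_nonneg_right hrmR (abs_nonneg _)
  have hlogn : 0 ≤ Real.log n := Real.log_nonneg (by linarith)
  have f2b : (r : ℝ) * (b * Real.log n) ≤ m * (b * Real.log n) :=
    mul_le_mul_of_nonneg_right hrmR (mul_nonneg hb0 hlogn)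
  have f3 : (r : ℝ) * Real.log q ≤ m * Real.log q := mul_le_mul_of_nonneg_right hrmR hlq
  -- the sum
  set SL : ℝ := Real.sqrt ((B : ℝ) * n) * Real.log ((B : ℝ) * n) with hSL
  set E : ℝ := (2 * h + 4) * (SL + Real.log n + 1) + 2 * b * SL
    with hE
  have hBn : 1 ≤ (B : ℝ) * n := by nlinarith
  have hSL0 : 0 ≤ SL := mul_nonneg (Real.sqrt_nonneg ((B : ℝ) * n)) (Real.log_nonneg hBn)
  have hE0 : 0 ≤ E := by
    rw [hE]; positivity
  set G : ℝ := 8 * (h + 1) * n + 3 * h * n + 3 * m with hG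
  have hlog2 : Real.log 2 ≤ 0.7 := by
    have := Real.log_two_lt_d9
    linarith
  have hlog4 : Real.log 4 ≤ 1.4 := by
    have : Real.log 4 = 2 * Real.log 2 := by
      rw [show (4 : ℝ) = 2 ^ 2 by norm_num, Real.log_pow]
      norm_num
    rw [this]
    linarith
  have hDl : 2 * ((b : ℝ) * Real.log (Dl n B : ℝ)) ≤ 3 * h * n + 2 * b * SL := by
    have h4 := t_dl n B (by omega) hB
    have h5 : (n : ℝ) * Real.log 4 ≤ n * 1.4 := mul_le_mul_of_nonneg_left hlog4 hnpos.le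
    have h6 : (b : ℝ) * Real.log (Dl n B : ℝ) ≤ b * (n * 1.4 + SL) :=
      mul_le_mul_of_nonneg_left (h4.trans (by linarith)) hb0
    have h7 : (b : ℝ) * n ≤ h * n := mul_le_mul_of_nonneg_right hbR hnpos.le
    have h8 : 0 ≤ (h : ℝ) * n := by positivity
    nlinarith
  have f4 : ∑ i ∈ Finset.range r, (2 * Real.log (sc n h B i : ℝ) + 2 * (b * Real.log (Dl n B : ℝ)) -
        4 * ((m : ℝ) - 1 - i) * Real.log (MM N (i / s))) ≤
      4 * (∑ i ∈ Finset.range r, ((m : ℝ) - i) * (Real.log n - Real.log (MM (s * N) i))) +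
        r * (4 * Real.log ((m : ℝ) + 1) + G + E) := by
    have h4 : (r : ℝ) * (4 * Real.log ((m : ℝ) + 1) + G + E) =
        ∑ _i ∈ Finset.range r, (4 * Real.log ((m : ℝ) + 1) + G + E) := by
      rw [Finset.sum_const, Finset.card_range, nsmul_eq_mul]
    rw [h4, Finset.mul_sum, ← Finset.sum_add_distrib]
    refine Finset.sum_le_sum fun i hi => ?_
    have hi' := Finset.mem_range.mp hi
    have h5 := t_si t_dl n h B i hn2 hne hh hB (by omega)
    have h6 : Real.log (MM N (i / s)) ≤ Real.log ((m : ℝ) + 1) := by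
      apply Real.log_le_log (lt_of_lt_of_le one_pos (AR.MM_one N _))
      unfold MM
      apply max_le (by linarith)
      have h7 : ((i / s : ℕ) : ℝ) ≤ m := by
        have : i / s ≤ m := (Nat.div_le_self _ _).trans (by omega)
        exact_mod_cast this
      have h8 : ((i / s : ℕ) : ℝ) / N ≤ ((i / s : ℕ) : ℝ) := div_le_self (by positivity) hN'
      linarith
    have h7 : (2 * (h : ℝ) * n - 4 * i) = 4 * ((m : ℝ) - i) := by
      have : 2 * (h : ℝ) * n = 2 * (2 * m) := by rw [hmR]; ring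
      rw [this]; ring
    rw [h7, ← hSL] at h5
    have h8 : 4 * ((m : ℝ) - 1 - i) * Real.log (MM N (i / s)) =
        4 * (((m : ℝ) - i) * Real.log (MM N (i / s))) - 4 * Real.log (MM N (i / s)) := by ring
    have h9 : Real.log (MM (s * N) i) - Real.log 2 ≤ Real.log (MM N (i / s)) := by
      have h10 := MM_half (i := i) hs1 hN
      have h11 := AR.MM_one (s * N) i
      have h12 := Real.log_le_log (by linarith : 0 < MM (s * N) i / 2) h10
      rwa [Real.log_div (by linarith) (by norm_num)] at h12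
    have hmi : 0 ≤ (m : ℝ) - i := by
      have : (i : ℝ) ≤ m := by exact_mod_cast (by omega : i ≤ m)
      linarith
    have h10 : ((m : ℝ) - i) * (Real.log (MM (s * N) i) - Real.log 2) ≤
        ((m : ℝ) - i) * Real.log (MM N (i / s)) := mul_le_mul_of_nonneg_left h9 hmi
    have h11 : ((m : ℝ) - i) * Real.log 2 ≤ 0.7 * m := by
      have hi0 : (0 : ℝ) ≤ i := by positivity
      calc ((m : ℝ) - i) * Real.log 2 ≤ m * 0.7 :=
            mul_le_mul (by linarith) hlog2 (Real.log_nonneg (by norm_num)) hm0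
        _ = 0.7 * m := by ring
    rw [h8, hE, hG]
    linarith
  have f5 := t_ls (s * N) h n m r (Nat.mul_pos hs1 hN) hNhs (by omega) hm hrm hmr
  rw [hlam2] at f5
  have f6 := t_pp n h B (by omega) hB
  have hG0 : 0 ≤ G := by rw [hG]; positivity
  have f7 : (r : ℝ) * (4 * Real.log ((m : ℝ) + 1) + G + E) ≤
      m * (4 * Real.log ((m : ℝ) + 1) + G + E) := by
    apply mul_le_mul_of_nonneg_right hrmR
    linarith
  -- the growth
  have g1 : Real.log ((m : ℝ) + 1) ≤ Real.log (h + 1) + Real.log n := by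
    rw [← Real.log_mul (by positivity) hnpos.ne']
    apply Real.log_le_log (by linarith)
    nlinarith
  have g2 : SL ≤ 4 * (B : ℝ) ^ ((3 : ℝ) / 4) * (n : ℝ) ^ ((3 : ℝ) / 4) := by
    have := as_sqrt_log (y := (B : ℝ) * n) (by linarith)
    rw [Real.mul_rpow (by linarith) hnpos.le] at this
    rw [hSL]
    linarith
  have g3 : 5 * Real.log ((m : ℝ) + 1) + |Real.log C| + b * Real.log n + Real.log q + 4 * Real.log n +
      4 * lam + E ≤ 6 * n := asD_growth_use (by linarith) hb0 g1 g2 hgr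
  have g4 : (m : ℝ) * (5 * Real.log ((m : ℝ) + 1) + |Real.log C| + b * Real.log n + Real.log q +
      4 * Real.log n + 4 * lam + E) ≤ 3 * ((h : ℝ) * n) ^ 2 :=
    (mul_le_mul_of_nonneg_left g3 hm0).trans (as_g4 hmR hh' hnpos.le)
  have g5 : (m : ℝ) * G ≤ 12 * ((h : ℝ) * n) ^ 2 := by
    have h4 := as_g5 hmR hh' hnpos.le
    have h5 : (m : ℝ) * G = m * (8 * (h + 1) * n) + 3 * m * (h * n) + 3 * m ^ 2 := by rw [hG]; ring
    have h6 : 3 * (m : ℝ) * (h * n) + 3 * m ^ 2 ≤ 4 * ((h : ℝ) * n) ^ 2 := by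
      rw [← hmR]
      nlinarith [sq_nonneg (m : ℝ)]
    rw [h5]
    linarith
  have g7 : 2 * ((b : ℝ) + 1) * Real.log (PPn n h B) ≤
      16 * (((B : ℝ) * (B + 1) / h') * (1 + Real.log B)) * ((h : ℝ) * n) ^ 2 := by
    have hlB : 0 ≤ Real.log B := Real.log_nonneg hB'
    have h4 : 2 * ((b : ℝ) + 1) * Real.log (PPn n h B) ≤ 2 * ((b : ℝ) + 1) *
        (h * Real.log 4 * ((B : ℝ) * (B + 1)) * (n : ℝ) ^ 2 * (1 + Real.log B)) :=
      mul_le_mul_of_nonneg_left f6 (by linarith)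
    have hbs : (b : ℝ) + 1 = s := by rw [hs]; push_cast; ring
    have h5 : 2 * ((b : ℝ) + 1) *
        (h * Real.log 4 * ((B : ℝ) * (B + 1)) * (n : ℝ) ^ 2 * (1 + Real.log B)) =
        (2 * Real.log 4) * ((((B : ℝ) * (B + 1) / h') * (1 + Real.log B)) * ((h : ℝ) * n) ^ 2) := by
      rw [hbs, hhR]
      field_simp
    rw [h5] at h4
    refine h4.trans ?_
    rw [mul_assoc 16]
    apply mul_le_mul_of_nonneg_right (by linarith) (by positivity)
  have key := asD_final f1 f2 f2b f3 f4 f7 f5 hmR g4 g5 g7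
  rw [show (16 : ℝ) * (1 + ((B : ℝ) * (B + 1) / h') * (1 + Real.log B)) - (1 / 16) * lam =
    16 + 16 * (((B : ℝ) * (B + 1) / h') * (1 + Real.log B)) - (1 / 16) * lam by ring]
  exact key

end

end Pool.Agent.J6H74.MW
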