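import Pool.Agent.J6H74.MW.AR
import Pool.Agent.J6H74.MW.NU

/-!
# Many irrational odd zeta values in every window: the core of the non-vanishing argument
-/

set_option autoImplicit false

open Polynomial Pool.Agent.H337R2 Pool.Agent.W165.OZ Filter Topology

namespace Pool.Agent.J6H74.MW

noncomputable section

/-- the basis polynomials -/
def Bp (y : ℕ → ℝ) (M s j κ : ℕ) : ℝ[X] :=
  (X - C (y j)) ^ κ * ∏ l ∈ (Finset.range M).erase j, (X - C (y l)) ^ s

lemma Bp_monic (y : ℕ → ℝ) (M s j κ : ℕ) : (Bp y M s j κ).Monic :=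
  ((monic_X_sub_C _).pow _).mul (monic_prod_of_monic _ _ fun _ _ => (monic_X_sub_C _).pow _)

lemma Bp_natDegree (y : ℕ → ℝ) (M s j κ : ℕ) (hj : j < M) :
    (Bp y M s j κ).natDegree = κ + s * (M - 1) := by
  unfold Bp
  rw [((monic_X_sub_C _).pow _).natDegree_mul (monic_prod_of_monic _ _ fun _ _ => (monic_X_sub_C _).pow _),
    (monic_X_sub_C _).natDegree_pow, natDegree_X_sub_C, mul_one,
    natDegree_prod_of_monic _ _ fun _ _ => (monic_X_sub_C _).pow _]
  congr 1
  have h1 : ∀ l ∈ (Finset.range M).erase j, ((X - C (y l)) ^ s).natDegree = s := by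
    intro l _
    rw [(monic_X_sub_C _).natDegree_pow, natDegree_X_sub_C, mul_one]
  rw [Finset.sum_congr rfl h1, Finset.sum_const, Finset.card_erase_of_mem (Finset.mem_range.2 hj),
    Finset.card_range, smul_eq_mul, mul_comm]

theorem exists_expansion (y : ℕ → ℝ) (hy : Function.Injective y) (M s : ℕ) (Q : ℝ[X])
    (hQ : Q.natDegree < s * M) :
    ∃ a : ℕ → ℕ → ℝ, Q = ∑ j ∈ Finset.range M, ∑ κ ∈ Finset.range s, C (a j κ) * Bp y M s j κ := by
  classical
  obtain ⟨q, r, hr, hf⟩ := Polynomial.eq_quo_mul_prod_pow_add_sum_rem_mul_prod_pow (s := Finset.range M) Q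
    (g := fun m : ℕ => X - C (y m)) (fun i _ => Polynomial.monic_X_sub_C _)
    (fun i _ j _ hij => Polynomial.isCoprime_X_sub_C_of_isUnit_sub
      (isUnit_iff_ne_zero.2 (sub_ne_zero.2 fun h => hij (hy h)))) (fun _ => s)
  have hrc : ∀ k ∈ Finset.range M, ∀ j, r k j = C ((r k j).coeff 0) := by
    intro k hk j
    apply Polynomial.eq_C_of_degree_le_zero
    have := hr k hk j
    rw [degree_X_sub_C] at this
    exact Nat.WithBot.lt_one_iff_le_zero.1 this
  let A : ℕ → ℕ → ℝ := fun k j => if h : j < s then (r k ⟨j, h⟩).coeff 0 else 0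
  have hsum : ∑ k ∈ Finset.range M, ∑ j : Fin s, r k j * (X - C (y k)) ^ j.1 *
      ∏ m ∈ (Finset.range M).erase k, (X - C (y m)) ^ s
      = ∑ k ∈ Finset.range M, ∑ j ∈ Finset.range s, C (A k j) * Bp y M s k j := by
    apply Finset.sum_congr rfl
    intro k hk
    rw [← Fin.sum_univ_eq_sum_range (fun j => C (A k j) * Bp y M s k j)]
    apply Finset.sum_congr rfl
    intro j _
    have : A k j.1 = (r k j).coeff 0 := by
      simp [A]
    rw [this, ← hrc k hk j]
    unfold Bp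
    ring
  rw [hsum] at hf
  refine ⟨A, ?_⟩
  have hq : q = 0 := by
    by_contra hq0
    have hmon : (∏ i ∈ Finset.range M, (X - C (y i)) ^ s : ℝ[X]).Monic :=
      monic_prod_of_monic _ _ fun _ _ => (monic_X_sub_C _).pow _
    have hdegP : (∏ i ∈ Finset.range M, (X - C (y i)) ^ s : ℝ[X]).natDegree = s * M := by
      rw [natDegree_prod_of_monic _ _ fun _ _ => (monic_X_sub_C _).pow _]
      have h1 : ∀ l ∈ (Finset.range M), ((X - C (y l)) ^ s : ℝ[X]).natDegree = s := by
        intro l _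
        rw [(monic_X_sub_C _).natDegree_pow, natDegree_X_sub_C, mul_one]
      rw [Finset.sum_congr rfl h1, Finset.sum_const, Finset.card_range, smul_eq_mul, mul_comm]
    have hmem1 : Q ∈ Polynomial.degreeLT ℝ (s * M) := by
      rw [Polynomial.mem_degreeLT]
      exact lt_of_le_of_lt degree_le_natDegree (by exact_mod_cast hQ)
    have hmem2 : ∑ k ∈ Finset.range M, ∑ j ∈ Finset.range s, C (A k j) * Bp y M s k j ∈
        Polynomial.degreeLT ℝ (s * M) := by
      apply Submodule.sum_mem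
      intro k hk
      apply Submodule.sum_mem
      intro j hj
      rw [← Polynomial.smul_eq_C_mul]
      apply Submodule.smul_mem
      rw [Polynomial.mem_degreeLT]
      refine lt_of_le_of_lt degree_le_natDegree ?_
      rw [Bp_natDegree y M s k j (Finset.mem_range.1 hk)]
      have h1 := Finset.mem_range.1 hj
      have h2 := Finset.mem_range.1 hk
      have : j + s * (M - 1) < s * M := by
        obtain ⟨M', rfl⟩ : ∃ M', M = M' + 1 := ⟨M - 1, by omega⟩
        rw [Nat.add_sub_cancel, Nat.mul_add, Nat.mul_one]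
        omega
      exact_mod_cast this
    have hmem3 : q * (∏ i ∈ Finset.range M, (X - C (y i)) ^ s : ℝ[X]) ∈ Polynomial.degreeLT ℝ (s * M) := by
      have e : q * (∏ i ∈ Finset.range M, (X - C (y i)) ^ s : ℝ[X]) = Q -
          ∑ k ∈ Finset.range M, ∑ j ∈ Finset.range s, C (A k j) * Bp y M s k j := by
        rw [hf]
        ring
      rw [e]
      exact Submodule.sub_mem _ hmem1 hmem2
    rw [Polynomial.mem_degreeLT, degree_mul, degree_eq_natDegree hmon.ne_zero, hdegP] at hmem3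
    have h3 : 0 ≤ q.degree := Polynomial.zero_le_degree_iff.2 hq0
    have h4 : ((s * M : ℕ) : WithBot ℕ) ≤ q.degree + ((s * M : ℕ) : WithBot ℕ) := le_add_of_nonneg_left h3
    exact absurd hmem3 (not_lt.2 h4)
  rw [hq, zero_mul, zero_add] at hf
  exact hf

/-- triangular systems -/
theorem triang (b : ℕ) (a D : ℕ → ℝ) (om E m Λ : ℝ) (hE : 0 ≤ E) (hm : 0 ≤ m) (hΛ : 1 ≤ Λ)
    (h0 : ∀ t, b < t → D t = 0) (hb : |D b| = m) (hD : ∀ t < b, |D t| ≤ m * Λ ^ (b - t))
    (hs : ∀ κ' ≤ b, |∑ κ ∈ Finset.range (b + 1), a κ * (om * D (κ + κ'))| ≤ E) :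
    ∀ κ ≤ b, |a κ| * |om| * m ≤ (2 * Λ) ^ κ * E := by
  intro κ
  induction κ using Nat.strong_induction_on with
  | _ κ ih =>
    intro hκ
    have h1 := hs (b - κ) (Nat.sub_le _ _)
    have h2 : ∑ κ2 ∈ Finset.range (b + 1), a κ2 * (om * D (κ2 + (b - κ))) =
        ∑ κ2 ∈ Finset.range (κ + 1), a κ2 * (om * D (κ2 + (b - κ))) := by
      symm
      apply Finset.sum_subset
      · intro x hx
        rw [Finset.mem_range] at *
        omega
      · intro x _ hx
        rw [Finset.mem_range, not_lt] at hx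
        rw [h0 _ (by omega), mul_zero, mul_zero]
    rw [h2, Finset.sum_range_succ] at h1
    have h3 : κ + (b - κ) = b := by omega
    rw [h3] at h1
    set S := ∑ κ2 ∈ Finset.range κ, a κ2 * (om * D (κ2 + (b - κ))) with hS
    have h4 : |S| ≤ ∑ κ2 ∈ Finset.range κ, (2 : ℝ) ^ κ2 * (Λ ^ κ * E) := by
      rw [hS]
      refine (Finset.abs_sum_le_sum_abs _ _).trans (Finset.sum_le_sum fun x hx => ?_)
      have hx' := Finset.mem_range.1 hx
      have h5 := ih x hx' (by omega)
      have h6 := hD (x + (b - κ)) (by omega)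
      have h7 : b - (x + (b - κ)) = κ - x := by omega
      rw [h7] at h6
      rw [abs_mul, abs_mul]
      calc |a x| * (|om| * |D (x + (b - κ))|) ≤ |a x| * (|om| * (m * Λ ^ (κ - x))) := by
            apply mul_le_mul_of_nonneg_left _ (abs_nonneg _)
            exact mul_le_mul_of_nonneg_left h6 (abs_nonneg _)
        _ = (|a x| * |om| * m) * Λ ^ (κ - x) := by ring
        _ ≤ ((2 * Λ) ^ x * E) * Λ ^ (κ - x) :=
            mul_le_mul_of_nonneg_right h5 (pow_nonneg (by linarith) _)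
        _ = (2 : ℝ) ^ x * (Λ ^ κ * E) := by
            have : Λ ^ κ = Λ ^ x * Λ ^ (κ - x) := by
              rw [← pow_add]
              congr 1
              omega
            rw [this, mul_pow]
            ring
    rw [← Finset.sum_mul] at h4
    have h5 : ∑ i ∈ Finset.range κ, (2 : ℝ) ^ i = 2 ^ κ - 1 := by
      rw [geom_sum_eq (by norm_num)]
      norm_num
    rw [h5] at h4
    have h6 : |a κ * (om * D b)| ≤ E + |S| := by
      have h8 : a κ * (om * D b) = (S + a κ * (om * D b)) - S := by ring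
      rw [h8]
      exact (abs_sub _ _).trans (by linarith)
    rw [abs_mul, abs_mul, hb] at h6
    have h7 : E ≤ Λ ^ κ * E := le_mul_of_one_le_left hE (one_le_pow₀ hΛ)
    calc |a κ| * |om| * m = |a κ| * (|om| * m) := by ring
      _ ≤ E + |S| := h6
      _ ≤ Λ ^ κ * E + (2 ^ κ - 1) * (Λ ^ κ * E) := add_le_add h7 h4
      _ = (2 * Λ) ^ κ * E := by rw [mul_pow]; ring

variable {N : ℕ} {δ c1 c2 : ℝ} {τ ω : ℕ → ℝ}

lemma PY.mono {b n h e e' : ℕ} {t : ℝ} {P : ℝ[X]} (hn : 1 ≤ n) (hh : 1 ≤ h) (ht : 1 ≤ t)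
    (hP : PY b n h e t P) (hee : e ≤ e') : PY b n h e' t P := by
  unfold PY at *
  refine hP.trans (pow_le_pow_right₀ ?_ hee)
  have h0 := rad_pos hn hh
  have hy := yv_ge_one hn ht
  nlinarith

/-- the bound of the tail -/
lemma tail_bound (hN : Nodes N δ c1 c2 τ ω) {b n h : ℕ} (hn : 1 ≤ n) (hh : 1 ≤ h) {μ : ℕ → ℝ}
    (hM : MomD b n h τ ω μ) (P : ℝ[X]) (hdeg : P.natDegree + 2 ≤ h * n) (M e : ℕ)
    (he : e + 2 ≤ h * n) (hPY : ∀ i, M ≤ i → PY b n h e (τ i) P) :
    |Lf μ P - ∑ i ∈ Finset.range M, ω i * FR b n h P (τ i)| ≤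
      6 * (4 * (h : ℝ) * n) ^ b * (4 * (N : ℝ) ^ 2 * c2 * (MM N M ^ (2 * (h * n - 2 - e)))⁻¹) := by
  have hs' := hasSum_Lf hM P hdeg
  have h3 := (hasSum_nat_add_iff' M).2 hs'
  obtain ⟨t1, t2⟩ := t_tb N δ c1 c2 τ ω hN n h M e hn hh he
  set K : ℝ := 6 * (4 * (h : ℝ) * n) ^ b with hK
  have hK0 : 0 ≤ K := by positivity
  have hb : ∀ l, ‖ω (l + M) * FR b n h P (τ (l + M))‖ ≤
      K * (|ω (l + M)| * (Rv n h (τ (l + M)) * yv n (τ (l + M)) ^ e)) := by
    intro l
    have h7 := FR_bound hn hh (tau_one hN (l + M)) (by omega) (hPY (l + M) (by omega))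
    rw [norm_mul, Real.norm_eq_abs, Real.norm_eq_abs]
    calc |ω (l + M)| * |FR b n h P (τ (l + M))| ≤ |ω (l + M)| *
          (K * (Rv n h (τ (l + M)) * yv n (τ (l + M)) ^ e)) :=
          mul_le_mul_of_nonneg_left h7 (abs_nonneg _)
      _ = _ := by ring
  have h4 : ‖Lf μ P - ∑ i ∈ Finset.range M, ω i * FR b n h P (τ i)‖ ≤
      ∑' l, K * (|ω (l + M)| * (Rv n h (τ (l + M)) * yv n (τ (l + M)) ^ e)) := by
    rw [← h3.tsum_eq]
    exact tsum_of_norm_bounded (t1.mul_left K).hasSum hb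
  rw [Real.norm_eq_abs, tsum_mul_left] at h4
  exact h4.trans (mul_le_mul_of_nonneg_left t2 hK0)

lemma Bp_PY (hN : Nodes N δ c1 c2 τ ω) {b n h s M j κ i : ℕ} (hn : 1 ≤ n) (hh : 1 ≤ h) (hj : j < M)
    (hi : M ≤ i) : PY b n h (κ + s * (M - 1)) (τ i) (Bp (fun l => yv n (τ l)) M s j κ) := by
  have hlin : ∀ l < M, PY b n h 1 (τ i) (X - C (yv n (τ l))) := by
    intro l hl
    have ht := tau_one hN l
    apply PY.lin hn hh (tau_one hN i) (AR.yv_nonneg hn (by linarith))
    apply AR.yv_mono hn (by linarith)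
    exact (AR.tau_mono hN).monotone (by omega)
  unfold Bp
  apply PY.mul hn hh (tau_one hN i)
  · have := PY.pow hn hh (tau_one hN i) (hlin j hj) κ
    rwa [mul_one] at this
  · have := PY.prod (b := b) hn hh (tau_one hN i) ((Finset.range M).erase j) s
      (fun l => (X - C (yv n (τ l))) ^ s) (fun l hl => by
        have h1 := PY.pow hn hh (tau_one hN i)
          (hlin l (Finset.mem_range.1 (Finset.mem_of_mem_erase hl))) s
        rwa [mul_one] at h1)
    rw [Finset.card_erase_of_mem (Finset.mem_range.2 hj), Finset.card_range, mul_comm] at this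
    exact this

/-- the expansion of the differences at a node -/
lemma Yr_sub_node (n : ℕ) (t t' : ℝ) : Yr n t - PowerSeries.C (yv n t') =
    (PowerSeries.X + PowerSeries.C (t - t')) * (PowerSeries.X + PowerSeries.C (t + t' + ((n : ℝ) - 1))) := by
  unfold Yr yv
  simp only [map_add, map_sub, map_mul, map_one]
  ring

/-- the values at one node: the coefficients of the triangular system -/
lemma node_coeff {b n h t : ℕ} (ht : t ≤ b) (τ0 : ℝ) (W : ℝ[X]) :
    FR b n h ((X - C (yv n τ0)) ^ t * W) τ0 = PowerSeries.coeff (b - t) (Rr n h τ0 *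
      (Polynomial.aeval (Yr n τ0) W * (PowerSeries.X + PowerSeries.C (2 * τ0 + ((n : ℝ) - 1))) ^ t)) := by
  have e1 : Yr n τ0 - PowerSeries.C (yv n τ0) = PowerSeries.X * (PowerSeries.X +
      PowerSeries.C (2 * τ0 + ((n : ℝ) - 1))) := by
    rw [Yr_sub_node, sub_self, map_zero, add_zero, two_mul]
  unfold FR
  rw [map_mul (Polynomial.aeval (Yr n τ0)), map_pow, map_sub, aeval_X, aeval_C]
  have e2 : Rr n h τ0 * ((Yr n τ0 - algebraMap ℝ (PowerSeries ℝ) (yv n τ0)) ^ t *
      Polynomial.aeval (Yr n τ0) W) = PowerSeries.X ^ t * (Rr n h τ0 *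
      (Polynomial.aeval (Yr n τ0) W * (PowerSeries.X + PowerSeries.C (2 * τ0 + ((n : ℝ) - 1))) ^ t)) := by
    have : algebraMap ℝ (PowerSeries ℝ) (yv n τ0) = PowerSeries.C (yv n τ0) := rfl
    rw [this, e1, mul_pow]
    ring
  rw [e2, PowerSeries.coeff_X_pow_mul', if_pos ht]

end

end Pool.Agent.J6H74.MW
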