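import Pool.Agent.W165.OZ.Fin

/-!
# Many irrational odd zeta values in every window: definitions

`b` even, `R(t) = (2t+n-1) / (t(t+1)...(t+n-1))^(2h)`, `y(t) = t(t+n-1)`, and the functional
`Q ↦ ∑_{d ≤ B} w_d ∑_{u > d} (1/b!) (d/dt)^b [R(t) Q(y(t))] (t = u/d)`.
-/

set_option autoImplicit false

open Polynomial Pool.Agent.H337R2 Pool.Agent.W165.OZ Filter Topology

namespace Pool.Agent.J6H74.MW

noncomputable section

/-- the binomial coefficient `C(i-1+b, i-1)` -/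
def bc (b i : ℕ) : ℚ := ((Nat.choose (i - 1 + b) (i - 1) : ℕ) : ℚ)

/-- the rational part belonging to the poles of order `i` -/
def betD (b n h B : ℕ) (w : ℕ → ℤ) (P : ℚ[X]) (i : ℕ) : ℚ :=
  ∑ d ∈ Finset.Icc 1 B, (w d : ℚ) * (d : ℚ) ^ (i + b) *
    ∑ k ∈ sP n, pa (sP n) (mP h) P k i * hs (i + b) (d * (k + 1))

/-- the linear form, with `z i` in the place of `ζ(i)` -/
def LaD {A : Type*} [CommRing A] [Algebra ℚ A] (b n h B : ℕ) (w : ℕ → ℤ) (z : ℕ → A) (P : ℚ[X]) : A :=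
  ∑ i ∈ Finset.Icc 1 (2 * h), algebraMap ℚ A (bc b i) *
    (algebraMap ℚ A (rhoP n h P i * WW B w (i + b)) * z (i + b) - algebraMap ℚ A (betD b n h B w P i))

/-- the moments -/
def moD {A : Type*} [CommRing A] [Algebra ℚ A] (b n h B : ℕ) (w : ℕ → ℤ) (z : ℕ → A) (k : ℕ) : A :=
  LaD b n h B w z (num n (X ^ k))

lemma betD_add (b n h B : ℕ) (w : ℕ → ℤ) (P Q : ℚ[X]) (i : ℕ) :
    betD b n h B w (P + Q) i = betD b n h B w P i + betD b n h B w Q i := by
  unfold betD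
  rw [← Finset.sum_add_distrib]
  apply Finset.sum_congr rfl
  intro d _
  rw [← mul_add, ← Finset.sum_add_distrib]
  congr 1
  apply Finset.sum_congr rfl
  intro k _
  rw [pa_add]; ring

lemma betD_C_mul (b n h B : ℕ) (w : ℕ → ℤ) (c : ℚ) (P : ℚ[X]) (i : ℕ) :
    betD b n h B w (C c * P) i = c * betD b n h B w P i := by
  unfold betD
  rw [Finset.mul_sum]
  apply Finset.sum_congr rfl
  intro d _
  have : ∑ k ∈ sP n, pa (sP n) (mP h) (C c * P) k i * hs (i + b) (d * (k + 1))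
      = c * ∑ k ∈ sP n, pa (sP n) (mP h) P k i * hs (i + b) (d * (k + 1)) := by
    rw [Finset.mul_sum]
    apply Finset.sum_congr rfl
    intro k _
    rw [pa_C_mul]; ring
  rw [this]; ring

/-- the linear form as a linear map of the polynomial `Q(y)` -/
def LaDL {A : Type*} [CommRing A] [Algebra ℚ A] (b n h B : ℕ) (w : ℕ → ℤ) (z : ℕ → A) : ℚ[X] →ₗ[ℚ] A where
  toFun Q := LaD b n h B w z (num n Q)
  map_add' P Q := by
    unfold LaD
    rw [num_add, ← Finset.sum_add_distrib]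
    apply Finset.sum_congr rfl
    intro i _
    rw [rhoP_add, betD_add, add_mul, map_add, map_add]
    ring
  map_smul' c P := by
    rw [Polynomial.smul_eq_C_mul, num_C_mul, RingHom.id_apply]
    unfold LaD
    rw [Finset.smul_sum]
    apply Finset.sum_congr rfl
    intro i _
    rw [rhoP_C_mul, betD_C_mul, Algebra.smul_def, mul_assoc c, map_mul, map_mul (algebraMap ℚ A) c]
    ring

/-! ### The real side -/

/-- inverse of `X + a` -/
def ivr (a : ℝ) : PowerSeries ℝ := PowerSeries.mk fun j => (-1) ^ j / a ^ (j + 1)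

/-- the expansion of `R` at `t` -/
def Rr (n h : ℕ) (t : ℝ) : PowerSeries ℝ :=
  (PowerSeries.C (2 : ℝ) * (PowerSeries.X + PowerSeries.C t) + PowerSeries.C ((n : ℝ) - 1)) *
    ∏ k ∈ Finset.range n, (ivr (t + k)) ^ (2 * h)

/-- the expansion of `y` at `t` -/
def Yr (n : ℕ) (t : ℝ) : PowerSeries ℝ :=
  (PowerSeries.X + PowerSeries.C t) * (PowerSeries.X + PowerSeries.C t + PowerSeries.C ((n : ℝ) - 1))

/-- `(1/b!) (d/dt)^b [R(t) Q(y(t))]` -/
def FR (b n h : ℕ) (Q : ℝ[X]) (t : ℝ) : ℝ :=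
  PowerSeries.coeff b (Rr n h t * Polynomial.aeval (Yr n t) Q)

/-- `μ k = ∑_i ω_i (1/b!) (d/dt)^b [R y^k] (τ_i)` for all `k ≤ h n - 2` -/
def MomD (b n h : ℕ) (τ ω : ℕ → ℝ) (μ : ℕ → ℝ) : Prop :=
  ∀ k, k + 2 ≤ h * n → HasSum (fun i => ω i * FR b n h (X ^ k) (τ i)) (μ k)

/-- the archimedean bound -/
def ArcD (s N n h : ℕ) (C : ℝ) (r : ℕ) : ℝ :=
  (r.factorial : ℝ) * C ^ r * ∏ i ∈ Finset.range r, (MM N (i / s) ^ (4 * (h * n / 2 - 1 - i)))⁻¹

/-- the scaling factor of row `i` -/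
def scD (b n h B i : ℕ) : ℚ := sc n h B i * (Dl n B : ℚ) ^ b

/-- the contribution of the primes `> n` -/
def PPD (b n h B : ℕ) : ℕ := PPn n h B ^ (2 * (b + 1))

end

end Pool.Agent.J6H74.MW
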