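import Pool.Agent.J6H74.MW.NB

/-!
# Many irrational odd zeta values in every window: bounds at one node
-/

set_option autoImplicit false

open Polynomial Pool.Agent.H337R2 Pool.Agent.W165.OZ Filter Topology

namespace Pool.Agent.J6H74.MW

noncomputable section

variable {b : ℕ} {ρ : ℝ}

lemma cc_ivr (a : ℝ) : PowerSeries.constantCoeff (ivr a) = a⁻¹ := by
  rw [← PowerSeries.coeff_zero_eq_constantCoeff_apply]
  unfold ivr
  rw [PowerSeries.coeff_mk]
  simp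

lemma cc_Rr (n h : ℕ) (t : ℝ) : PowerSeries.constantCoeff (Rr n h t) = Rv n h t := by
  unfold Rr Rv
  rw [map_mul, map_prod]
  have h1 : ∀ k ∈ Finset.range n, PowerSeries.constantCoeff (ivr (t + (k : ℝ)) ^ (2 * h)) =
      ((t + (k : ℝ)) ^ (2 * h))⁻¹ := by
    intro k _
    rw [map_pow, cc_ivr, inv_pow]
  rw [Finset.prod_congr rfl h1, Finset.prod_inv_distrib, Finset.prod_pow, div_eq_mul_inv]
  congr 1
  simp

lemma cc_Yr (n : ℕ) (t : ℝ) : PowerSeries.constantCoeff (Yr n t) = yv n t := by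
  unfold Yr yv
  simp

lemma GC_num (hρ : 0 ≤ ρ) {n : ℕ} (hn : 1 ≤ n) {t : ℝ} (ht : 1 ≤ t) :
    GC b ρ (1 + 2 * ρ) (PowerSeries.C (2 : ℝ) * (PowerSeries.X + PowerSeries.C t) +
      PowerSeries.C ((n : ℝ) - 1)) := by
  have hn1 : (1 : ℝ) ≤ n := by exact_mod_cast hn
  have e1 : PowerSeries.C (2 : ℝ) * (PowerSeries.X + PowerSeries.C t) +
      PowerSeries.C ((n : ℝ) - 1) = PowerSeries.C (2 : ℝ) * PowerSeries.X +
      PowerSeries.C (2 * t + ((n : ℝ) - 1)) := by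
    rw [map_add, map_mul]
    ring
  unfold GC
  rw [e1]
  have h1 := NB_lin (b := b) hρ (2 * t + ((n : ℝ) - 1)) 2
  have h2 : PowerSeries.constantCoeff (PowerSeries.C (2 : ℝ) * PowerSeries.X +
      PowerSeries.C (2 * t + ((n : ℝ) - 1))) = 2 * t + ((n : ℝ) - 1) := by simp
  rw [h2]
  have h3 : 1 ≤ |2 * t + ((n : ℝ) - 1)| := by
    rw [abs_of_nonneg (by linarith)]
    linarith
  have h4 : |(2 : ℝ)| = 2 := abs_of_pos (by norm_num)
  rw [h4] at h1
  nlinarith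

lemma GC_Rr (hρ : 0 ≤ ρ) {δ : ℝ} (hδ : 0 < δ) (hδ1 : δ ≤ 1) (hρδ : ρ < δ) {n h : ℕ} (hn : 1 ≤ n)
    {t : ℝ} (ht : 1 ≤ t) :
    GC b ρ ((1 + 2 * ρ) * (((1 - ρ / δ)⁻¹) ^ (2 * h)) ^ n) (Rr n h t) := by
  unfold Rr
  apply GC.mul hρ (by linarith) (GC_num hρ hn ht)
  have h3 : 0 < 1 - ρ / δ := by
    rw [sub_pos, div_lt_one hδ]
    exact hρδ
  have h1 := GC.prod (b := b) hρ (K := ((1 - ρ / δ)⁻¹) ^ (2 * h)) (by positivity) (Finset.range n)
    (fun k => (ivr (t + (k : ℝ))) ^ (2 * h)) (fun k _ => by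
      apply GC.pow hρ (by positivity)
      apply GC.iv hρ hδ hρδ
      have : (0 : ℝ) ≤ k := Nat.cast_nonneg k
      rw [abs_of_nonneg (by linarith)]
      linarith)
  rwa [Finset.card_range] at h1

/-- the powers of numbers near one -/
lemma one_sub_inv_pow {x : ℝ} {m : ℕ} (hx : 0 ≤ x) (hxm : m * x ≤ 1 / 2) :
    ((1 - x)⁻¹) ^ m ≤ 2 := by
  rcases Nat.eq_zero_or_pos m with rfl | hm
  · simp
  have hm1 : (1 : ℝ) ≤ m := by exact_mod_cast hm
  have hx1 : x ≤ 1 / 2 := by nlinarith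
  have h1 : 1 + (m : ℝ) * (-x) ≤ (1 + (-x)) ^ m := one_add_mul_le_pow (by linarith) m
  have h2 : (1 / 2 : ℝ) ≤ (1 - x) ^ m := by
    have : (1 + (-x)) = 1 - x := by ring
    rw [this] at h1
    linarith
  rw [inv_pow]
  calc ((1 - x) ^ m)⁻¹ ≤ (1 / 2 : ℝ)⁻¹ := inv_anti₀ (by norm_num) h2
    _ = 2 := by norm_num

lemma one_add_pow_le {x : ℝ} {m : ℕ} (hx : 0 ≤ x) (hxm : m * x ≤ 1 / 2) : (1 + x) ^ m ≤ 2 := by
  have h1 : (1 + x) ^ m ≤ Real.exp (m * x) := by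
    rw [mul_comm, Real.exp_mul, Real.rpow_natCast]
    apply pow_le_pow_left₀ (by linarith)
    have := Real.add_one_le_exp x
    linarith
  refine h1.trans ((Real.exp_le_exp.2 hxm).trans ?_)
  have h2 : Real.exp (1 / 2) ^ 2 = Real.exp 1 := by
    rw [← Real.exp_nat_mul]
    norm_num
  have h3 := Real.exp_one_lt_d9
  have h4 := Real.exp_pos (1 / 2)
  nlinarith

lemma NB_Yr_sub (hρ : 0 ≤ ρ) {n : ℕ} (hn : 1 ≤ n) {t y : ℝ} (ht : 1 ≤ t) (hy0 : 0 ≤ y)
    (hy : y ≤ yv n t) :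
    NB b ρ (Yr n t - PowerSeries.C y) ≤ (1 + ρ) ^ 2 * yv n t := by
  have hn1 : (1 : ℝ) ≤ n := by exact_mod_cast hn
  have e1 : Yr n t - PowerSeries.C y = PowerSeries.X * (PowerSeries.X +
      PowerSeries.C (2 * t + ((n : ℝ) - 1))) + PowerSeries.C (yv n t - y) := by
    unfold Yr yv
    simp only [map_add, map_sub, map_mul, map_one]
    have : (PowerSeries.C (2 : ℝ) : PowerSeries ℝ) = 2 := map_ofNat PowerSeries.C 2
    rw [this]
    ring
  rw [e1]
  have h1 := NB_add (b := b) hρ (PowerSeries.X * (PowerSeries.X +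
      PowerSeries.C (2 * t + ((n : ℝ) - 1)))) (PowerSeries.C (yv n t - y))
  have h2 := NB_mul (b := b) hρ (PowerSeries.X : PowerSeries ℝ) (PowerSeries.X +
      PowerSeries.C (2 * t + ((n : ℝ) - 1)))
  have h3 := NB_linX (b := b) hρ (2 * t + ((n : ℝ) - 1))
  have h4 := NB_X (b := b) hρ
  rw [NB_C hρ, abs_of_nonneg (by linarith : 0 ≤ yv n t - y)] at h1
  rw [abs_of_nonneg (by linarith : 0 ≤ 2 * t + ((n : ℝ) - 1))] at h3
  have h5 : NB b ρ (PowerSeries.X : PowerSeries ℝ) * NB b ρ (PowerSeries.X +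
      PowerSeries.C (2 * t + ((n : ℝ) - 1))) ≤ ρ * (2 * t + ((n : ℝ) - 1) + ρ) :=
    mul_le_mul h4 h3 (NB_nonneg hρ _) hρ
  have h6 : 2 * t + ((n : ℝ) - 1) ≤ 2 * yv n t := by
    unfold yv
    nlinarith
  have h7 : 1 ≤ yv n t := by
    unfold yv
    nlinarith
  nlinarith [mul_le_mul_of_nonneg_left h6 hρ, mul_nonneg hρ hρ]

/-- the standard radius -/
def rad (n h : ℕ) : ℝ := (4 * (h : ℝ) * n)⁻¹

lemma rad_pos {n h : ℕ} (hn : 1 ≤ n) (hh : 1 ≤ h) : 0 < rad n h := by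
  have h1 : (0 : ℝ) < n := by exact_mod_cast hn
  have h2 : (0 : ℝ) < h := by exact_mod_cast hh
  unfold rad
  positivity

lemma rad_le {n h : ℕ} (hn : 1 ≤ n) (hh : 1 ≤ h) : rad n h ≤ 1 / 4 := by
  have h1 : (1 : ℝ) ≤ n := by exact_mod_cast hn
  have h2 : (1 : ℝ) ≤ h := by exact_mod_cast hh
  unfold rad
  rw [inv_eq_one_div]
  apply one_div_le_one_div_of_le (by norm_num)
  nlinarith

lemma GC_Rr_rad {n h : ℕ} (hn : 1 ≤ n) (hh : 1 ≤ h) {t : ℝ} (ht : 1 ≤ t) :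
    GC b (rad n h) 3 (Rr n h t) := by
  have h0 := rad_pos hn hh
  have h1 := rad_le hn hh
  have h2 : (0 : ℝ) < n := by exact_mod_cast hn
  have h3 : (0 : ℝ) < h := by exact_mod_cast hh
  refine (GC_Rr (b := b) h0.le one_pos le_rfl (by linarith) hn ht).mono ?_
  rw [← pow_mul, div_one]
  have h4 : ((1 - rad n h)⁻¹) ^ (2 * h * n) ≤ 2 := by
    apply one_sub_inv_pow h0.le
    unfold rad
    push_cast
    apply le_of_eq
    field_simp
    norm_num
  have h5 : 0 < 1 - rad n h := by linarith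
  have h6 : 0 ≤ ((1 - rad n h)⁻¹) ^ (2 * h * n) := by positivity
  calc (1 + 2 * rad n h) * ((1 - rad n h)⁻¹) ^ (2 * h * n) ≤ (3 / 2) * 2 :=
        mul_le_mul (by linarith) h4 h6 (by norm_num)
    _ = 3 := by norm_num

lemma yv_ge_one {n : ℕ} (hn : 1 ≤ n) {t : ℝ} (ht : 1 ≤ t) : 1 ≤ yv n t := by
  have h3 : (1 : ℝ) ≤ n := by exact_mod_cast hn
  unfold yv
  nlinarith

lemma Rv_pos {n h : ℕ} (hn : 1 ≤ n) {t : ℝ} (ht : 1 ≤ t) : 0 < Rv n h t := by
  have h3 : (1 : ℝ) ≤ n := by exact_mod_cast hn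
  unfold Rv
  apply div_pos (by linarith)
  apply pow_pos
  refine Finset.prod_pos fun k _ => ?_
  have : (0 : ℝ) ≤ k := Nat.cast_nonneg _
  linarith

/-- `P` is a product of `e` factors `X - y` with `0 ≤ y ≤ y(t)`, in terms of the norm -/
def PY (b n h e : ℕ) (t : ℝ) (P : ℝ[X]) : Prop :=
  NB b (rad n h) (Polynomial.aeval (Yr n t) P) ≤ ((1 + rad n h) ^ 2 * yv n t) ^ e

lemma PY.mul {n h e e' : ℕ} {t : ℝ} {P Q : ℝ[X]} (hn : 1 ≤ n) (hh : 1 ≤ h) (ht : 1 ≤ t)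
    (hP : PY b n h e t P) (hQ : PY b n h e' t Q) : PY b n h (e + e') t (P * Q) := by
  have h0 := (rad_pos hn hh).le
  have hy := yv_ge_one hn ht
  unfold PY at *
  rw [map_mul, pow_add]
  exact (NB_mul h0 _ _).trans (mul_le_mul hP hQ (NB_nonneg h0 _) (by positivity))

lemma PY.one {n h : ℕ} {t : ℝ} : PY b n h 0 t (1 : ℝ[X]) := by
  unfold PY
  rw [map_one, NB_one, pow_zero]

lemma PY.pow {n h e : ℕ} {t : ℝ} {P : ℝ[X]} (hn : 1 ≤ n) (hh : 1 ≤ h) (ht : 1 ≤ t)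
    (hP : PY b n h e t P) (m : ℕ) : PY b n h (m * e) t (P ^ m) := by
  induction m with
  | zero => simpa using PY.one
  | succ m ih =>
    rw [pow_succ, Nat.succ_mul]
    exact PY.mul hn hh ht ih hP

lemma PY.prod {ι : Type*} {n h : ℕ} {t : ℝ} (hn : 1 ≤ n) (hh : 1 ≤ h) (ht : 1 ≤ t) (s : Finset ι)
    (e : ℕ) (P : ι → ℝ[X]) (hP : ∀ i ∈ s, PY b n h e t (P i)) :
    PY b n h (s.card * e) t (∏ i ∈ s, P i) := by
  classical
  induction s using Finset.induction_on with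
  | empty => simpa using PY.one
  | insert a s ha ih =>
    rw [Finset.prod_insert ha, Finset.card_insert_of_notMem ha, Nat.add_mul, one_mul, Nat.add_comm]
    exact PY.mul hn hh ht (hP a (Finset.mem_insert_self _ _))
      (ih fun i hi => hP i (Finset.mem_insert_of_mem hi))

lemma PY.lin {n h : ℕ} {t y : ℝ} (hn : 1 ≤ n) (hh : 1 ≤ h) (ht : 1 ≤ t) (hy0 : 0 ≤ y)
    (hy : y ≤ yv n t) : PY b n h 1 t (X - C y) := by
  unfold PY
  rw [map_sub, aeval_X, aeval_C, pow_one]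
  exact NB_Yr_sub (rad_pos hn hh).le hn ht hy0 hy

/-- the bound at one node -/
theorem FR_bound {n h e : ℕ} {t : ℝ} {P : ℝ[X]} (hn : 1 ≤ n) (hh : 1 ≤ h) (ht : 1 ≤ t)
    (he : e ≤ h * n) (hP : PY b n h e t P) :
    |FR b n h P t| ≤ 6 * (4 * (h : ℝ) * n) ^ b * (Rv n h t * yv n t ^ e) := by
  have h0 := rad_pos hn hh
  have h2 : (0 : ℝ) < n := by exact_mod_cast hn
  have h3 : (0 : ℝ) < h := by exact_mod_cast hh
  have hR := Rv_pos (h := h) hn ht
  have hy := yv_ge_one hn ht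
  have h4 := coeff_le_NB (b := b) h0 (Rr n h t * Polynomial.aeval (Yr n t) P) le_rfl
  have h5 := NB_mul (b := b) h0.le (Rr n h t) (Polynomial.aeval (Yr n t) P)
  have h6 : NB b (rad n h) (Rr n h t) ≤ 3 * Rv n h t := by
    have := GC_Rr_rad (b := b) hn hh ht
    unfold GC at this
    rwa [cc_Rr, abs_of_pos hR] at this
  have h7 : ((1 + rad n h) ^ 2 * yv n t) ^ e ≤ 2 * yv n t ^ e := by
    rw [mul_pow, ← pow_mul]
    apply mul_le_mul_of_nonneg_right _ (by positivity)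
    apply one_add_pow_le h0.le
    have h8 : ((2 * e : ℕ) : ℝ) ≤ 2 * (h * n) := by
      push_cast
      have : (e : ℝ) ≤ h * n := by exact_mod_cast he
      linarith
    calc ((2 * e : ℕ) : ℝ) * rad n h ≤ 2 * (h * n) * rad n h :=
          mul_le_mul_of_nonneg_right h8 h0.le
      _ = 1 / 2 := by
          unfold rad
          field_simp
          norm_num
  have h8 : NB b (rad n h) (Rr n h t * Polynomial.aeval (Yr n t) P) ≤
      (3 * Rv n h t) * (2 * yv n t ^ e) :=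
    h5.trans (mul_le_mul h6 (hP.trans h7) (NB_nonneg h0.le _) (by positivity))
  unfold FR
  refine h4.trans ?_
  rw [div_eq_mul_inv, ← inv_pow]
  have h9 : (rad n h)⁻¹ = 4 * (h : ℝ) * n := by
    unfold rad
    rw [inv_inv]
  rw [h9]
  calc NB b (rad n h) (Rr n h t * Polynomial.aeval (Yr n t) P) * (4 * (h : ℝ) * n) ^ b ≤
        ((3 * Rv n h t) * (2 * yv n t ^ e)) * (4 * (h : ℝ) * n) ^ b :=
        mul_le_mul_of_nonneg_right h8 (by positivity)
    _ = _ := by ring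

/-- a polynomial that vanishes to order `> b` at `y(t)` -/
theorem FR_zero {n h s : ℕ} (hs : b < s) {t : ℝ} (P : ℝ[X]) :
    FR b n h ((X - C (yv n t)) ^ s * P) t = 0 := by
  have e1 : Yr n t - PowerSeries.C (yv n t) = PowerSeries.X * (PowerSeries.X +
      PowerSeries.C (2 * t + ((n : ℝ) - 1))) := by
    unfold Yr yv
    simp only [map_add, map_sub, map_mul, map_one]
    have : (PowerSeries.C (2 : ℝ) : PowerSeries ℝ) = 2 := map_ofNat PowerSeries.C 2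
    rw [this]
    ring
  unfold FR
  rw [map_mul (Polynomial.aeval (Yr n t)), map_pow, map_sub, aeval_X, aeval_C]
  have e2 : Rr n h t * ((Yr n t - algebraMap ℝ (PowerSeries ℝ) (yv n t)) ^ s *
      Polynomial.aeval (Yr n t) P) = PowerSeries.X ^ s * (Rr n h t * ((PowerSeries.X +
      PowerSeries.C (2 * t + ((n : ℝ) - 1))) ^ s * Polynomial.aeval (Yr n t) P)) := by
    have : algebraMap ℝ (PowerSeries ℝ) (yv n t) = PowerSeries.C (yv n t) := rfl
    rw [this, e1, mul_pow]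
    ring
  rw [e2, PowerSeries.coeff_X_pow_mul', if_neg (by omega)]

lemma FR_C_mul (b n h : ℕ) (a : ℝ) (P : ℝ[X]) (t : ℝ) : FR b n h (C a * P) t = a * FR b n h P t := by
  unfold FR
  rw [map_mul (Polynomial.aeval (Yr n t)), aeval_C]
  have e : Rr n h t * (algebraMap ℝ (PowerSeries ℝ) a * Polynomial.aeval (Yr n t) P) =
      PowerSeries.C a * (Rr n h t * Polynomial.aeval (Yr n t) P) := by
    have : algebraMap ℝ (PowerSeries ℝ) a = PowerSeries.C a := rfl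
    rw [this]
    ring
  rw [e, PowerSeries.coeff_C_mul]

lemma FR_sum {ι : Type*} (b n h : ℕ) (s : Finset ι) (P : ι → ℝ[X]) (t : ℝ) :
    FR b n h (∑ i ∈ s, P i) t = ∑ i ∈ s, FR b n h (P i) t := by
  unfold FR
  rw [map_sum, Finset.mul_sum, map_sum]

end

end Pool.Agent.J6H74.MW
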