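import Pool.Agent.J6H74.MW.MA

/-!
# Many irrational odd zeta values in every window: all `s ≥ 1`
-/

set_option autoImplicit false

open Pool.Agent.H337R2 Pool.Agent.W165.OZ Filter Topology

namespace Pool.Agent.J6H74.MW

/-- the growth function changes by a constant factor only -/
lemma growth_compare : ∃ R1 : ℕ, ∀ R ≥ R1, 1 ≤ R / 2 - 1 ∧
    (1 / 3) * Real.sqrt (R * Real.log (Real.log R) / Real.log R) ≤
      Real.sqrt (((R / 2 - 1 : ℕ) : ℝ) * Real.log (Real.log ((R / 2 - 1 : ℕ) : ℝ)) /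
        Real.log ((R / 2 - 1 : ℕ) : ℝ)) := by
  refine ⟨256, fun R hR => ⟨by omega, ?_⟩⟩
  obtain ⟨R', hR'⟩ : ∃ R', R' = R / 2 - 1 := ⟨_, rfl⟩
  rw [← hR']
  have h1 : R ≤ 4 * R' := by omega
  have h2 : R' ≤ R := by omega
  have h1R : (R : ℝ) ≤ 4 * R' := by exact_mod_cast h1
  have h2R : (R' : ℝ) ≤ R := by exact_mod_cast h2
  have hRR : (256 : ℝ) ≤ R := by exact_mod_cast hR
  have hR0 : (0 : ℝ) < R := by linarith
  have hR'0 : (0 : ℝ) < R' := by linarith
  -- log R' ≥ (1/2) log R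
  have h3 : (R : ℝ) ≤ (R' : ℝ) ^ 2 := by nlinarith
  have h4 : Real.log R ≤ 2 * Real.log R' := by
    have := Real.log_le_log hR0 h3
    rwa [Real.log_pow] at this
  have hlog2 : (0.69 : ℝ) ≤ Real.log 2 := by
    have := Real.log_two_gt_d9
    linarith
  have h5 : (4 : ℝ) ≤ Real.log R := by
    have h6 : Real.log (256 : ℝ) ≤ Real.log R := Real.log_le_log (by norm_num) hRR
    have h7 : Real.log (256 : ℝ) = 8 * Real.log 2 := by
      rw [show (256 : ℝ) = 2 ^ 8 by norm_num, Real.log_pow]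
      norm_num
    linarith
  have hlR' : 0 < Real.log R' := by linarith
  have hlR : 0 < Real.log R := by linarith
  have h6 : Real.log (Real.log R) ≤ Real.log 2 + Real.log (Real.log R') := by
    rw [← Real.log_mul (by norm_num) hlR'.ne']
    exact Real.log_le_log hlR h4
  have h7 : 2 * Real.log 2 ≤ Real.log (Real.log R) := by
    have h8 : Real.log (4 : ℝ) ≤ Real.log (Real.log R) := Real.log_le_log (by norm_num) h5
    have h9 : Real.log (4 : ℝ) = 2 * Real.log 2 := by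
      rw [show (4 : ℝ) = 2 ^ 2 by norm_num, Real.log_pow]
      norm_num
    linarith
  have h8 : Real.log (Real.log R) ≤ 2 * Real.log (Real.log R') := by linarith
  have h9 : 0 ≤ Real.log (Real.log R') := by linarith
  have h10 : Real.log R' ≤ Real.log R := Real.log_le_log hR'0 h2R
  have h11 : (1 / 9) * (R * Real.log (Real.log R) / Real.log R) ≤
      (R' : ℝ) * Real.log (Real.log R') / Real.log R' := by
    have a1 : (R' : ℝ) * Real.log (Real.log R') / Real.log R ≤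
        (R' : ℝ) * Real.log (Real.log R') / Real.log R' :=
      div_le_div_of_nonneg_left (by positivity) hlR' h10
    refine le_trans ?_ a1
    rw [← mul_div_assoc]
    apply div_le_div_of_nonneg_right _ hlR.le
    have a2 : (R : ℝ) * Real.log (Real.log R) ≤ (4 * R') * (2 * Real.log (Real.log R')) :=
      mul_le_mul h1R h8 (by linarith) (by positivity)
    have a3 : 0 ≤ (R' : ℝ) * Real.log (Real.log R') := by positivity
    linarith
  have h12 : (1 / 3 : ℝ) = Real.sqrt (1 / 9) := by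
    rw [show (1 / 9 : ℝ) = (1 / 3) ^ 2 by norm_num, Real.sqrt_sq (by norm_num)]
  rw [h12, ← Real.sqrt_mul (by norm_num)]
  exact Real.sqrt_le_sqrt h11

/-- **Many irrational odd zeta values in every window.** -/
theorem z_window : ∃ c : ℝ, 0 < c ∧ ∃ R0 : ℕ, ∀ R ≥ R0, ∀ s : ℕ, 1 ≤ s →
    c * Real.sqrt (R * Real.log (Real.log R) / Real.log R) ≤
      (Set.ncard {i : ℕ | s < i ∧ i ≤ R * s ∧ Odd i ∧
        Irrational (∑' n : ℕ, 1 / ((n : ℝ) + 1) ^ i)} : ℝ) := by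
  obtain ⟨c1, hc1, R1, h1⟩ := t_finD
  obtain ⟨c2, hc2, R2, h2⟩ := z_final
  obtain ⟨R3, h3⟩ := growth_compare
  refine ⟨min (c1 / 3) c2, lt_min (by positivity) hc2, max (max R2 R3) (2 * R1 + 4), fun R hR s hs => ?_⟩
  have hR2 : R2 ≤ R := ((le_max_left _ _).trans (le_max_left _ _)).trans hR
  have hR3 : R3 ≤ R := ((le_max_right _ _).trans (le_max_left _ _)).trans hR
  have hR1 : 2 * R1 + 4 ≤ R := (le_max_right _ _).trans hR
  have hf0 : 0 ≤ Real.sqrt (R * Real.log (Real.log R) / Real.log R) := Real.sqrt_nonneg _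
  have hfin : {i : ℕ | s < i ∧ i ≤ R * s ∧ Odd i ∧
      Irrational (∑' n : ℕ, 1 / ((n : ℝ) + 1) ^ i)}.Finite :=
    (Set.finite_Iic (R * s)).subset fun i hi => hi.2.1
  rcases Nat.lt_or_ge 1 s with hs2 | hs1
  · obtain ⟨s', hs', hss, hss2⟩ : ∃ s', Odd s' ∧ s ≤ s' ∧ s' ≤ s + 1 := by
      rcases Nat.even_or_odd s with he | ho
      · exact ⟨s + 1, he.add_one, by omega, le_rfl⟩
      · exact ⟨s, ho, le_rfl, by omega⟩
    have hs'3 : 3 ≤ s' := by
      obtain ⟨j, hj⟩ := hs'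
      omega
    obtain ⟨hp, hg⟩ := h3 R hR3
    have h4 := h1 (R / 2 - 1) (by omega) s' hs' hs'3
    have hsub : {i : ℕ | s' < i ∧ i ≤ (R / 2 - 1 + 1) * s' ∧ Odd i ∧
        Irrational (∑' n : ℕ, 1 / ((n : ℝ) + 1) ^ i)} ⊆
        {i : ℕ | s < i ∧ i ≤ R * s ∧ Odd i ∧
        Irrational (∑' n : ℕ, 1 / ((n : ℝ) + 1) ^ i)} := by
      rintro i ⟨a1, a2, a3, a4⟩
      refine ⟨by omega, a2.trans ?_, a3, a4⟩
      have e1 : R / 2 - 1 + 1 = R / 2 := by omega
      rw [e1]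
      calc R / 2 * s' ≤ R / 2 * (2 * s) := Nat.mul_le_mul_left _ (by omega)
        _ = (R / 2 * 2) * s := by ring
        _ ≤ R * s := Nat.mul_le_mul_right _ (Nat.div_mul_le_self R 2)
    have h5 : (Set.ncard {i : ℕ | s' < i ∧ i ≤ (R / 2 - 1 + 1) * s' ∧ Odd i ∧
        Irrational (∑' n : ℕ, 1 / ((n : ℝ) + 1) ^ i)} : ℝ) ≤
        (Set.ncard {i : ℕ | s < i ∧ i ≤ R * s ∧ Odd i ∧
        Irrational (∑' n : ℕ, 1 / ((n : ℝ) + 1) ^ i)} : ℝ) := by
      exact_mod_cast Set.ncard_le_ncard hsub hfin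
    refine le_trans ?_ (h4.trans h5)
    calc min (c1 / 3) c2 * Real.sqrt (R * Real.log (Real.log R) / Real.log R) ≤
          c1 / 3 * Real.sqrt (R * Real.log (Real.log R) / Real.log R) :=
          mul_le_mul_of_nonneg_right (min_le_left _ _) hf0
      _ = c1 * ((1 / 3) * Real.sqrt (R * Real.log (Real.log R) / Real.log R)) := by ring
      _ ≤ _ := mul_le_mul_of_nonneg_left hg hc1.le
  · have hs1' : s = 1 := by omega
    subst hs1'
    have h4 := h2 R hR2
    have hsub : {i : ℕ | 3 ≤ i ∧ i ≤ R ∧ Odd i ∧ Irrational (∑' n : ℕ, 1 / ((n : ℝ) + 1) ^ i)} ⊆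
        {i : ℕ | 1 < i ∧ i ≤ R * 1 ∧ Odd i ∧ Irrational (∑' n : ℕ, 1 / ((n : ℝ) + 1) ^ i)} := by
      rintro i ⟨a1, a2, a3, a4⟩
      exact ⟨by omega, by omega, a3, a4⟩
    have h5 : (Set.ncard {i : ℕ | 3 ≤ i ∧ i ≤ R ∧ Odd i ∧
        Irrational (∑' n : ℕ, 1 / ((n : ℝ) + 1) ^ i)} : ℝ) ≤
        (Set.ncard {i : ℕ | 1 < i ∧ i ≤ R * 1 ∧ Odd i ∧
        Irrational (∑' n : ℕ, 1 / ((n : ℝ) + 1) ^ i)} : ℝ) := by
      exact_mod_cast Set.ncard_le_ncard hsub hfin
    refine le_trans ?_ (h4.trans h5)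
    exact mul_le_mul_of_nonneg_right (min_le_right _ _) hf0

end Pool.Agent.J6H74.MW
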