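import Pool.Agent.J6H74.MW.NV2
import Pool.Agent.J6H74.MW.AS

/-!
# Many irrational odd zeta values in every window: the main inequality
-/

set_option autoImplicit false

open Polynomial Pool.Agent.H337R2 Pool.Agent.W165.OZ Filter Topology

namespace Pool.Agent.J6H74.MW

noncomputable section

lemma rhoP_one {n h k : ℕ} (hk : k + 2 ≤ h * n) : rhoP n h (num n (X ^ k)) 1 = 0 := by
  unfold rhoP
  refine residue_sum (sP n) (mP h) _ ?_
  rw [QQ_natDegree]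
  simp only [mP, Finset.sum_const, Finset.card_range, smul_eq_mul]
  have := rm_natDegree n k
  have h3 : n * (2 * h) = 2 * (h * n) := by ring
  omega

theorem maD_mo_cast {b n h B : ℕ} (w : ℕ → ℤ) (I : Finset ℕ) (z : ℕ → ℚ) (hb : Even b)
    (hI : ∀ i ∈ I, WW B w i = 0)
    (hz1 : ∀ i, Odd i → b + 3 ≤ i → i ≤ 2 * h + b → i ∉ I → ((z i : ℚ) : ℝ) = zr i)
    (hz0 : ∀ i, ¬ Odd i → z i = 0) (k : ℕ) (hk : k + 2 ≤ h * n) :
    moD (A := ℝ) b n h B w zz k = ((moD (A := ℚ) b n h B w z k : ℚ) : ℝ) := by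
  unfold moD LaD
  rw [Rat.cast_sum]
  refine Finset.sum_congr rfl fun i hi => ?_
  rw [Finset.mem_Icc] at hi
  simp only [eq_ratCast, Rat.cast_sub, Rat.cast_mul, Rat.cast_id, Rat.cast_intCast]
  congr 2
  by_cases h0 : i = 1
  · rw [h0, rhoP_one hk]
    simp
  by_cases h1 : i + b ∈ I
  · rw [hI _ h1]; simp
  · by_cases h2 : Odd i
    · have h3 : Odd (i + b) := h2.add_even hb
      have h4 : 3 ≤ i := by
        obtain ⟨j, hj⟩ := h2
        omega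
      rw [hz1 (i + b) h3 (by omega) (by omega) h1]
      unfold zz
      rw [if_pos ⟨h3, by omega⟩]
    · have h3 : ¬ Odd (i + b) := by
        rw [Nat.not_odd_iff_even] at h2 ⊢
        exact h2.add hb
      rw [hz0 _ h3]
      unfold zz
      rw [if_neg (fun h => h3 h.1)]
      simp

theorem t_maD (b h' B : ℕ) (hb : Even b) (hb2 : 2 ≤ b) (hB : 1 ≤ B) (hBh : 16 * (B * (B + 1)) ≤ h')
    (hineq : 16 * (1 + ((B : ℝ) * (B + 1) / h') * (1 + Real.log B)) <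
      (1 / 16) * Real.log ((h' : ℝ) / ((B : ℝ) * (B + 1)))) :
    ∃ I : Finset ℕ, B ≤ I.card ∧ ∀ i ∈ I, b + 3 ≤ i ∧ i ≤ 2 * ((b + 1) * h') + b ∧ Odd i ∧
      Irrational (zr i) := by
  classical
  by_contra hcon
  obtain ⟨h, hhd⟩ : ∃ h, h = (b + 1) * h' := ⟨_, rfl⟩
  rw [← hhd] at hcon
  obtain ⟨I, hIdef⟩ : ∃ I : Finset ℕ, I =
      (Finset.Icc (b + 3) (2 * h + b)).filter (fun i => Odd i ∧ Irrational (zr i)) := ⟨_, rfl⟩
  have hImem : ∀ i, i ∈ I ↔ (b + 3 ≤ i ∧ i ≤ 2 * h + b) ∧ Odd i ∧ Irrational (zr i) := by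
    intro i
    rw [hIdef, Finset.mem_filter, Finset.mem_Icc]
  have hIcard : I.card < B := by
    by_contra hlt
    rw [not_lt] at hlt
    refine hcon ⟨I, hlt, fun i hi => ?_⟩
    have := (hImem i).1 hi
    exact ⟨this.1.1, this.1.2, this.2.1, this.2.2⟩
  obtain ⟨w, hw, hWI⟩ := t_we B I hIcard
  obtain ⟨N, δ, c1, c2, τ, ω, hNod, h2N, hNO⟩ := Pool.Agent.W940.OZ.t_no B w hw
  have hN := hNod.hN
  have hBB : 1 * 2 ≤ B * (B + 1) := Nat.mul_le_mul hB (by omega)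
  have hh'1 : 1 ≤ h' := by omega
  have hh : 1 ≤ h := by
    rw [hhd]
    exact Nat.mul_pos (by omega) hh'1
  have hbh : b ≤ 2 * h := by
    rw [hhd]
    have : (b + 1) * 1 ≤ (b + 1) * h' := Nat.mul_le_mul_left _ hh'1
    omega
  have h32 : 32 * N ≤ h' := by omega
  have h2N' : 2 * N ≤ h' := by omega
  have hc2 : 0 < c2 := lt_of_lt_of_le (lt_of_lt_of_le hNod.hc1 (hNod.wlo 0)) (hNod.whi 0)
  -- rational values
  have hrat : ∀ i, ∃ q : ℚ, (Odd i → b + 3 ≤ i → i ≤ 2 * h + b → i ∉ I → ((q : ℚ) : ℝ) = zr i) ∧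
      (¬ Odd i → q = 0) ∧ (2 * h + b < i → q = 0) := by
    intro i
    by_cases hc : Odd i ∧ b + 3 ≤ i ∧ i ≤ 2 * h + b ∧ i ∉ I
    · have h8 : ¬ Irrational (zr i) := by
        intro hirr
        exact hc.2.2.2 ((hImem i).2 ⟨⟨hc.2.1, hc.2.2.1⟩, hc.1, hirr⟩)
      unfold Irrational at h8
      rw [not_not] at h8
      obtain ⟨q, hq⟩ := h8
      exact ⟨q, fun _ _ _ _ => hq, fun hx => absurd hc.1 hx, fun hx => by omega⟩
    · exact ⟨0, fun a b c d => absurd ⟨a, b, c, d⟩ hc, fun _ => rfl, fun _ => rfl⟩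
  choose z hz1 hz0 hz2 using hrat
  obtain ⟨q, hqdef⟩ : ∃ q : ℕ, q = ∏ i ∈ Finset.range (2 * h + b + 1), (z i).den := ⟨_, rfl⟩
  have hq : 1 ≤ q := by
    rw [hqdef]
    exact Nat.one_le_iff_ne_zero.2 (Finset.prod_ne_zero_iff.2 fun i _ => (z i).den_nz)
  have hqz : ∀ i, ∃ a : ℤ, (q : ℚ) * z i = a := by
    intro i
    by_cases hi : i ≤ 2 * h + b
    · have hd : (z i).den ∣ q := by
        rw [hqdef]
        exact Finset.dvd_prod_of_mem _ (Finset.mem_range.2 (by omega))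
      obtain ⟨e, he⟩ := hd
      refine ⟨e * (z i).num, ?_⟩
      have h8 : (((z i).den : ℕ) : ℚ) * z i = (z i).num := Rat.den_mul_eq_num (z i)
      rw [he]
      push_cast
      rw [← h8]
      ring
    · refine ⟨0, ?_⟩
      rw [hz2 i (by omega)]
      simp
  have hcast : ∀ n k, k + 2 ≤ h * n →
      moD (A := ℝ) b n h B w zz k = ((moD (A := ℚ) b n h B w z k : ℚ) : ℝ) :=
    fun n k hk => maD_mo_cast w I z hb hWI hz1 hz0 k hk
  have hMom : ∀ n, 2 ≤ n → MomD b n h τ ω (moD (A := ℝ) b n h B w zz) := by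
    intro n hn2 k hk
    obtain ⟨hs, hv⟩ := t_rmD (B := B) hb hb2 w hn2 k hk
    have h8 := hNO (fun t => FR b n h (X ^ k) t) hs
    rw [← hv] at h8
    exact h8
  obtain ⟨n0, hn0⟩ := t_nvD hNod b h' h32
  have hhR : (0 : ℝ) < h := by exact_mod_cast hh
  have hNR : (0 : ℝ) < N := by exact_mod_cast hN
  have hC : 0 < 6 * (4 * (h : ℝ)) ^ b * (4 * (N : ℝ) ^ 2 * c2) := by positivity
  obtain ⟨n1, hn1⟩ := t_asD b N h' B q (6 * (4 * (h : ℝ)) ^ b * (4 * (N : ℝ) ^ 2 * c2)) hN hB hq hC h2N'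
  rw [← hhd] at hn0 hn1
  obtain ⟨n, hndef⟩ : ∃ n, n = 2 * (n0 + n1 + B + 1) := ⟨_, rfl⟩
  have hne : Even n := ⟨n0 + n1 + B + 1, by omega⟩
  have hn2 : 2 ≤ n := by omega
  obtain ⟨r, hr1, hr2, hr3⟩ := hn0 n (by omega) hne _ (hMom n hn2)
  have hDH : DH (moD (A := ℝ) b n h B w zz) r = ((DH (moD (A := ℚ) b n h B w z) r : ℚ) : ℝ) := by
    rw [← ma_DH_cast]
    unfold DH
    congr 1
    ext i j
    have hi := i.2
    have hj := j.2
    exact hcast n (i.1 + j.1) (by omega)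
  have hr3' : DH (moD (A := ℚ) b n h B w z) r ≠ 0 := by
    intro h8
    apply hr3
    rw [hDH, h8]
    simp
  have e1 := t_prD b n h B w z q hb hbh hq hqz hn2 hne hh hB (by omega) r hr2 hr3'
  have e2 := t_arD hNod (s := b + 1) (by omega) (by omega : 1 ≤ n) hh hne (hMom n hn2) hr2
  have eC : 6 * (4 * (h : ℝ) * n) ^ b * (4 * (N : ℝ) ^ 2 * c2) =
      6 * (4 * (h : ℝ)) ^ b * (4 * (N : ℝ) ^ 2 * c2) * (n : ℝ) ^ b := by
    rw [mul_pow (4 * (h : ℝ)) (n : ℝ)]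
    ring
  rw [eC] at e2
  have e3 := hn1 n (by omega) hne r hr1 hr2
  have e1' : (1 : ℝ) ≤ |DH (moD (A := ℝ) b n h B w zz) r| *
      ((q : ℝ) ^ r * (∏ i ∈ Finset.range r, (scD b n h B i : ℝ) ^ 2) * (PPD b n h B : ℝ)) := by
    rw [hDH]
    have h8 : ((1 : ℚ) : ℝ) ≤ ((|DH (moD (A := ℚ) b n h B w z) r| *
      ((q : ℚ) ^ r * (∏ i ∈ Finset.range r, scD b n h B i ^ 2) * (PPD b n h B : ℚ)) : ℚ) : ℝ) := by
      exact_mod_cast e1
    push_cast at h8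
    exact h8
  have hnn : (0 : ℝ) ≤ (q : ℝ) ^ r * (∏ i ∈ Finset.range r, (scD b n h B i : ℝ) ^ 2) *
      (PPD b n h B : ℝ) := by
    have : (0 : ℝ) ≤ ∏ i ∈ Finset.range r, (scD b n h B i : ℝ) ^ 2 :=
      Finset.prod_nonneg fun i _ => sq_nonneg _
    positivity
  have e4 := e1'.trans (mul_le_mul_of_nonneg_right e2 hnn)
  have e5 := Real.log_nonneg e4
  have hh'r : (0 : ℝ) < h' := by exact_mod_cast hh'1
  have hBr : (0 : ℝ) < (B : ℝ) * (B + 1) := by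
    have : (0 : ℝ) < B := by exact_mod_cast hB
    positivity
  have e6 : Real.log ((h' : ℝ) / ((B : ℝ) * (B + 1))) ≤ Real.log ((h' : ℝ) / (2 * N)) := by
    apply Real.log_le_log (by positivity)
    apply div_le_div_of_nonneg_left hh'r.le (by positivity)
    exact_mod_cast h2N
  have hnr : (0 : ℝ) < n := by
    have : 0 < n := by omega
    exact_mod_cast this
  have e7 : (0 : ℝ) < ((h : ℝ) * n) ^ 2 := by positivity
  have e8 : (16 * (1 + ((B : ℝ) * (B + 1) / h') * (1 + Real.log B)) -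
        (1 / 16) * Real.log ((h' : ℝ) / (2 * N))) * ((h : ℝ) * n) ^ 2 < 0 := by
    apply mul_neg_of_neg_of_pos _ e7
    linarith
  linarith

/-- the main statement for odd `s ≥ 3` -/
theorem t_finD : ∃ c : ℝ, 0 < c ∧ ∃ R0 : ℕ, ∀ R ≥ R0, ∀ s : ℕ, Odd s → 3 ≤ s →
    c * Real.sqrt (R * Real.log (Real.log R) / Real.log R) ≤
      (Set.ncard {i : ℕ | s < i ∧ i ≤ (R + 1) * s ∧ Odd i ∧
        Irrational (∑' n : ℕ, 1 / ((n : ℝ) + 1) ^ i)} : ℝ) := by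
  obtain ⟨c, hc, R0, hR⟩ := t_fi 16 (by norm_num)
  refine ⟨c, hc, R0, fun R hR0 s hs hs3 => ?_⟩
  obtain ⟨h', B, h1, h2, h3, h4, h5⟩ := hR R hR0
  obtain ⟨b, hbs⟩ : ∃ b, s = b + 1 := ⟨s - 1, by omega⟩
  have hb : Even b := by
    rw [hbs] at hs
    obtain ⟨j, hj⟩ := hs
    exact ⟨j, by omega⟩
  obtain ⟨I, hI, hI2⟩ := t_maD b h' B hb (by omega) h2 h3 h5
  refine h4.trans ?_
  have hfin : {i : ℕ | s < i ∧ i ≤ (R + 1) * s ∧ Odd i ∧
      Irrational (∑' n : ℕ, 1 / ((n : ℝ) + 1) ^ i)}.Finite :=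
    (Set.finite_Iic ((R + 1) * s)).subset fun i hi => hi.2.1
  have hsub : (I : Set ℕ) ⊆ {i : ℕ | s < i ∧ i ≤ (R + 1) * s ∧ Odd i ∧
      Irrational (∑' n : ℕ, 1 / ((n : ℝ) + 1) ^ i)} := by
    intro i hi
    obtain ⟨a1, a2, a3, a4⟩ := hI2 i hi
    refine ⟨by omega, a2.trans ?_, a3, a4⟩
    rw [← hbs]
    have : 2 * (s * h') ≤ R * s := by
      calc 2 * (s * h') = (2 * h') * s := by ring
        _ ≤ R * s := Nat.mul_le_mul_right _ h1
    calc 2 * (s * h') + b ≤ R * s + s := by omega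
      _ = (R + 1) * s := by ring
  have h6 := Set.ncard_le_ncard hsub hfin
  rw [Set.ncard_coe_finset] at h6
  exact_mod_cast hI.trans h6

end

end Pool.Agent.J6H74.MW
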