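import Pool.Agent.J6H74.MW.Defs

/-!
# Many irrational odd zeta values in every window: the truncated norm of a real power series
-/

set_option autoImplicit false

open Polynomial Pool.Agent.H337R2 Pool.Agent.W165.OZ Filter Topology

namespace Pool.Agent.J6H74.MW

noncomputable section

/-- `∑_{k ≤ b} |f_k| ρ^k` -/
def NB (b : ℕ) (ρ : ℝ) (f : PowerSeries ℝ) : ℝ :=
  ∑ k ∈ Finset.range (b + 1), |PowerSeries.coeff k f| * ρ ^ k

variable {b : ℕ} {ρ : ℝ}

lemma NB_nonneg (hρ : 0 ≤ ρ) (f : PowerSeries ℝ) : 0 ≤ NB b ρ f :=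
  Finset.sum_nonneg fun k _ => mul_nonneg (abs_nonneg _) (pow_nonneg hρ k)

lemma coeff_le_NB (hρ : 0 < ρ) (f : PowerSeries ℝ) {k : ℕ} (hk : k ≤ b) :
    |PowerSeries.coeff k f| ≤ NB b ρ f / ρ ^ k := by
  rw [le_div_iff₀ (pow_pos hρ k)]
  unfold NB
  exact Finset.single_le_sum (f := fun k => |PowerSeries.coeff k f| * ρ ^ k)
    (fun k _ => mul_nonneg (abs_nonneg _) (pow_nonneg hρ.le k)) (Finset.mem_range.2 (by omega))

lemma NB_mul (hρ : 0 ≤ ρ) (f g : PowerSeries ℝ) : NB b ρ (f * g) ≤ NB b ρ f * NB b ρ g := by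
  unfold NB
  rw [Finset.sum_mul_sum, ← Finset.sum_product']
  have h1 : ∀ k ∈ Finset.range (b + 1), |PowerSeries.coeff k (f * g)| * ρ ^ k ≤
      ∑ x ∈ Finset.HasAntidiagonal.antidiagonal k, (|PowerSeries.coeff x.1 f| * ρ ^ x.1) *
        (|PowerSeries.coeff x.2 g| * ρ ^ x.2) := by
    intro k _
    rw [PowerSeries.coeff_mul]
    calc |∑ x ∈ Finset.HasAntidiagonal.antidiagonal k, PowerSeries.coeff x.1 f * PowerSeries.coeff x.2 g| * ρ ^ k
        ≤ (∑ x ∈ Finset.HasAntidiagonal.antidiagonal k, |PowerSeries.coeff x.1 f * PowerSeries.coeff x.2 g|) * ρ ^ k :=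
          mul_le_mul_of_nonneg_right (Finset.abs_sum_le_sum_abs _ _) (pow_nonneg hρ k)
      _ = _ := by
          rw [Finset.sum_mul]
          refine Finset.sum_congr rfl fun x hx => ?_
          rw [← Finset.HasAntidiagonal.mem_antidiagonal.1 hx, pow_add, abs_mul]
          ring
  refine (Finset.sum_le_sum h1).trans ?_
  have h2 : ∑ k ∈ Finset.range (b + 1), ∑ x ∈ Finset.HasAntidiagonal.antidiagonal k,
      (|PowerSeries.coeff x.1 f| * ρ ^ x.1) * (|PowerSeries.coeff x.2 g| * ρ ^ x.2) =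
      ∑ x ∈ (Finset.range (b + 1)).biUnion (fun k => Finset.HasAntidiagonal.antidiagonal k),
      (|PowerSeries.coeff x.1 f| * ρ ^ x.1) * (|PowerSeries.coeff x.2 g| * ρ ^ x.2) := by
    rw [Finset.sum_biUnion]
    intro i _ j _ hij
    rw [Function.onFun, Finset.disjoint_left]
    intro x hx hx'
    exact hij ((Finset.HasAntidiagonal.mem_antidiagonal.1 hx).symm.trans (Finset.HasAntidiagonal.mem_antidiagonal.1 hx'))
  rw [h2]
  refine Finset.sum_le_sum_of_subset_of_nonneg ?_ ?_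
  · intro x hx
    rw [Finset.mem_biUnion] at hx
    obtain ⟨k, hk, hx⟩ := hx
    rw [Finset.mem_range] at hk
    have := Finset.HasAntidiagonal.mem_antidiagonal.1 hx
    rw [Finset.mem_product, Finset.mem_range, Finset.mem_range]
    omega
  · intro x _ _
    positivity

lemma NB_one : NB b ρ 1 = 1 := by
  unfold NB
  rw [Finset.sum_eq_single_of_mem 0 (Finset.mem_range.2 (by omega))]
  · simp
  · intro k _ hk
    rw [PowerSeries.coeff_one, if_neg hk]
    simp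

lemma NB_pow (hρ : 0 ≤ ρ) (f : PowerSeries ℝ) {A : ℝ} (hA : NB b ρ f ≤ A) (m : ℕ) :
    NB b ρ (f ^ m) ≤ A ^ m := by
  have hA0 := (NB_nonneg (b := b) hρ f).trans hA
  induction m with
  | zero => rw [pow_zero, pow_zero, NB_one]
  | succ m ih =>
    rw [pow_succ, pow_succ]
    exact (NB_mul hρ _ _).trans (mul_le_mul ih hA (NB_nonneg hρ _) (pow_nonneg hA0 m))

lemma NB_prod {ι : Type*} (hρ : 0 ≤ ρ) (s : Finset ι) (f : ι → PowerSeries ℝ) (A : ι → ℝ)
    (hA : ∀ i ∈ s, NB b ρ (f i) ≤ A i) : NB b ρ (∏ i ∈ s, f i) ≤ ∏ i ∈ s, A i := by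
  classical
  induction s using Finset.induction_on with
  | empty => simp [NB_one]
  | insert a s ha ih =>
    rw [Finset.prod_insert ha, Finset.prod_insert ha]
    have h1 := hA a (Finset.mem_insert_self _ _)
    exact (NB_mul hρ _ _).trans (mul_le_mul h1 (ih fun i hi => hA i (Finset.mem_insert_of_mem hi))
      (NB_nonneg hρ _) ((NB_nonneg hρ _).trans h1))

lemma NB_add (hρ : 0 ≤ ρ) (f g : PowerSeries ℝ) : NB b ρ (f + g) ≤ NB b ρ f + NB b ρ g := by
  unfold NB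
  rw [← Finset.sum_add_distrib]
  refine Finset.sum_le_sum fun k _ => ?_
  rw [map_add, ← add_mul]
  exact mul_le_mul_of_nonneg_right (abs_add_le _ _) (pow_nonneg hρ k)

lemma NB_C (hρ : 0 ≤ ρ) (a : ℝ) : NB b ρ (PowerSeries.C a) = |a| := by
  unfold NB
  rw [Finset.sum_eq_single_of_mem 0 (Finset.mem_range.2 (by omega))]
  · simp
  · intro k _ hk
    rw [PowerSeries.coeff_C, if_neg hk]
    simp

lemma NB_X (hρ : 0 ≤ ρ) : NB b ρ (PowerSeries.X : PowerSeries ℝ) ≤ ρ := by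
  unfold NB
  rcases Nat.eq_zero_or_pos b with h | h
  · subst h
    simp [hρ]
  · rw [Finset.sum_eq_single_of_mem 1 (Finset.mem_range.2 (by omega))]
    · simp
    · intro k _ hk
      rw [PowerSeries.coeff_X, if_neg hk]
      simp

/-- linear factors -/
lemma NB_lin (hρ : 0 ≤ ρ) (a u : ℝ) :
    NB b ρ (PowerSeries.C u * PowerSeries.X + PowerSeries.C a) ≤ |a| + |u| * ρ := by
  have h1 := NB_add (b := b) hρ (PowerSeries.C u * PowerSeries.X) (PowerSeries.C a)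
  have h2 := NB_mul (b := b) hρ (PowerSeries.C u) (PowerSeries.X : PowerSeries ℝ)
  rw [NB_C hρ] at h1 h2
  have h3 := mul_le_mul_of_nonneg_left (NB_X (b := b) hρ) (abs_nonneg u)
  linarith

lemma NB_linX (hρ : 0 ≤ ρ) (a : ℝ) : NB b ρ (PowerSeries.X + PowerSeries.C a) ≤ |a| + ρ := by
  have := NB_lin (b := b) hρ a 1
  simpa using this

lemma NB_iv (hρ : 0 ≤ ρ) {a : ℝ} (ha : ρ < |a|) : NB b ρ (ivr a) ≤ (|a| - ρ)⁻¹ := by
  have ha0 : 0 < |a| := lt_of_le_of_lt hρ ha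
  unfold NB
  have h1 : ∀ k ∈ Finset.range (b + 1), |PowerSeries.coeff k (ivr a)| * ρ ^ k =
      |a|⁻¹ * (ρ / |a|) ^ k := by
    intro k _
    unfold ivr
    rw [PowerSeries.coeff_mk, abs_div, abs_pow, abs_neg, abs_one, one_pow, abs_pow, div_pow, pow_succ]
    field_simp
  rw [Finset.sum_congr rfl h1, ← Finset.mul_sum]
  have hr0 : 0 ≤ ρ / |a| := by positivity
  have hr1 : ρ / |a| < 1 := by rwa [div_lt_one ha0]
  have h2 : ∑ k ∈ Finset.range (b + 1), (ρ / |a|) ^ k ≤ (1 - ρ / |a|)⁻¹ := by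
    have h3 := (hasSum_geometric_of_lt_one hr0 hr1)
    exact sum_le_hasSum _ (fun i _ => pow_nonneg hr0 i) h3
  calc |a|⁻¹ * ∑ k ∈ Finset.range (b + 1), (ρ / |a|) ^ k ≤ |a|⁻¹ * (1 - ρ / |a|)⁻¹ :=
        mul_le_mul_of_nonneg_left h2 (by positivity)
    _ = (|a| - ρ)⁻¹ := by
        rw [← mul_inv]
        congr 1
        field_simp

/-! ### comparison with the constant term -/

/-- the norm is at most `K` times the constant term -/
def GC (b : ℕ) (ρ K : ℝ) (f : PowerSeries ℝ) : Prop :=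
  NB b ρ f ≤ K * |PowerSeries.constantCoeff f|

lemma GC.mul (hρ : 0 ≤ ρ) {K L : ℝ} {f g : PowerSeries ℝ} (hK : 0 ≤ K) (hf : GC b ρ K f)
    (hg : GC b ρ L g) : GC b ρ (K * L) (f * g) := by
  unfold GC at *
  rw [map_mul, abs_mul]
  calc NB b ρ (f * g) ≤ NB b ρ f * NB b ρ g := NB_mul hρ f g
    _ ≤ (K * |PowerSeries.constantCoeff f|) * (L * |PowerSeries.constantCoeff g|) :=
        mul_le_mul hf hg (NB_nonneg hρ g) (mul_nonneg hK (abs_nonneg _))
    _ = _ := by ring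

lemma GC.one : GC b ρ 1 1 := by
  unfold GC
  rw [NB_one]
  simp

lemma GC.pow (hρ : 0 ≤ ρ) {K : ℝ} {f : PowerSeries ℝ} (hK : 0 ≤ K) (hf : GC b ρ K f) (m : ℕ) :
    GC b ρ (K ^ m) (f ^ m) := by
  induction m with
  | zero => simpa using GC.one
  | succ m ih =>
    rw [pow_succ, pow_succ]
    exact GC.mul hρ (pow_nonneg hK m) ih hf

lemma GC.prod {ι : Type*} (hρ : 0 ≤ ρ) {K : ℝ} (hK : 0 ≤ K) (s : Finset ι) (f : ι → PowerSeries ℝ)
    (hf : ∀ i ∈ s, GC b ρ K (f i)) : GC b ρ (K ^ s.card) (∏ i ∈ s, f i) := by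
  classical
  induction s using Finset.induction_on with
  | empty => simpa using GC.one
  | insert a s ha ih =>
    rw [Finset.prod_insert ha, Finset.card_insert_of_notMem ha, pow_succ, mul_comm (K ^ s.card) K]
    exact GC.mul hρ hK (hf a (Finset.mem_insert_self _ _))
      (ih fun i hi => hf i (Finset.mem_insert_of_mem hi))

lemma GC.mono {K L : ℝ} {f : PowerSeries ℝ} (h : GC b ρ K f) (hKL : K ≤ L) : GC b ρ L f :=
  h.trans (mul_le_mul_of_nonneg_right hKL (abs_nonneg _))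

/-- linear factor with `|a| ≥ δ` -/
lemma GC.linX (hρ : 0 ≤ ρ) {δ a : ℝ} (hδ : 0 < δ) (ha : δ ≤ |a|) :
    GC b ρ (1 + ρ / δ) (PowerSeries.X + PowerSeries.C a) := by
  unfold GC
  have h1 := NB_linX (b := b) hρ a
  have h2 : PowerSeries.constantCoeff (PowerSeries.X + PowerSeries.C a) = a := by simp
  rw [h2]
  have h3 : ρ ≤ ρ / δ * |a| := by
    rw [div_mul_eq_mul_div, le_div_iff₀ hδ]
    exact mul_le_mul_of_nonneg_left ha hρ
  linarith

lemma GC.iv (hρ : 0 ≤ ρ) {δ a : ℝ} (hδ : 0 < δ) (hρδ : ρ < δ) (ha : δ ≤ |a|) :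
    GC b ρ (1 - ρ / δ)⁻¹ (ivr a) := by
  unfold GC
  have ha0 : 0 < |a| := lt_of_lt_of_le hδ ha
  have h1 := NB_iv (b := b) hρ (lt_of_lt_of_le hρδ ha)
  have h2 : |PowerSeries.constantCoeff (ivr a)| = |a|⁻¹ := by
    rw [← PowerSeries.coeff_zero_eq_constantCoeff_apply]
    unfold ivr
    rw [PowerSeries.coeff_mk, abs_div]
    simp
  rw [h2, ← mul_inv]
  refine h1.trans ?_
  have h3 : 0 < 1 - ρ / δ := by
    rw [sub_pos, div_lt_one hδ]
    exact hρδ
  apply inv_anti₀ (by positivity)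
  have h4 : ρ ≤ ρ / δ * |a| := by
    rw [div_mul_eq_mul_div, le_div_iff₀ hδ]
    exact mul_le_mul_of_nonneg_left ha hρ
  linarith

end

end Pool.Agent.J6H74.MW
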