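import Pool.Agent.J6H74.MW.CO

/-!
# Many irrational odd zeta values in every window: the non-vanishing theorem
-/

set_option autoImplicit false

open Polynomial Pool.Agent.H337R2 Pool.Agent.W165.OZ Filter Topology

namespace Pool.Agent.J6H74.MW

noncomputable section

variable {N : ℕ} {δ c1 c2 : ℝ} {τ ω : ℕ → ℝ}

lemma cc_aeval (n : ℕ) (t : ℝ) (P : ℝ[X]) :
    PowerSeries.constantCoeff (Polynomial.aeval (Yr n t) P) = P.eval (yv n t) := by
  rw [Polynomial.aeval_def, Polynomial.hom_eval₂, cc_Yr]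
  have : (PowerSeries.constantCoeff (R := ℝ)).comp (algebraMap ℝ (PowerSeries ℝ)) = RingHom.id ℝ := by
    ext x
    have : algebraMap ℝ (PowerSeries ℝ) x = PowerSeries.C x := rfl
    rw [RingHom.comp_apply, this]
    simp
  rw [this]
  rfl

/-- the product of the differences -/
def Wp (y : ℕ → ℝ) (M0 M s j : ℕ) : ℝ[X] :=
  (∏ l ∈ (Finset.range M0).erase j, (X - C (y l)) ^ s) * ∏ l ∈ (Finset.range M).erase j, (X - C (y l)) ^ s

lemma Bp_mul (y : ℕ → ℝ) (M0 M s j κ κ' : ℕ) :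
    Bp y M0 s j κ * Bp y M s j κ' = (X - C (y j)) ^ (κ + κ') * Wp y M0 M s j := by
  unfold Bp Wp
  rw [pow_add]
  ring

lemma Wp_eval (y : ℕ → ℝ) (M0 M s j : ℕ) : |(Wp y M0 M s j).eval (y j)| =
    ((∏ l ∈ (Finset.range M0).erase j, |y j - y l|) * ∏ l ∈ (Finset.range M).erase j, |y j - y l|) ^ s := by
  unfold Wp
  rw [eval_mul, eval_prod, eval_prod, abs_mul, Finset.abs_prod, Finset.abs_prod, mul_pow,
    ← Finset.prod_pow, ← Finset.prod_pow]
  congr 1 <;>
  · refine Finset.prod_congr rfl fun l _ => ?_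
    rw [eval_pow, abs_pow, eval_sub, eval_X, eval_C]

lemma gap_abs (hN : Nodes N δ c1 c2 τ ω) {i j : ℕ} (hij : i ≠ j) : δ ≤ |τ i - τ j| := by
  have h1 : ∀ a b : ℕ, a < b → τ a + δ ≤ τ b := by
    intro a b hab
    have h2 := hN.gap a
    have h3 : τ (a + 1) ≤ τ b := (AR.tau_mono hN).monotone hab
    linarith
  rcases lt_or_gt_of_ne hij with h | h
  · have := h1 i j h
    rw [abs_sub_comm, le_abs]
    left
    linarith
  · have := h1 j i h
    rw [le_abs]
    left
    linarith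

/-- the coefficients at one node -/
lemma node_bound (hN : Nodes N δ c1 c2 τ ω) {b n h M0 M s j : ℕ} (hn : 1 ≤ n) (hh : 1 ≤ h)
    (hs : s = b + 1) (hM : h * n = 2 * (s * M)) (hM0 : M0 ≤ M) (hj : j < M0) (t : ℕ) (ht : t ≤ b) :
    |FR b n h ((X - C (yv n (τ j))) ^ t * Wp (fun l => yv n (τ l)) M0 M s j) (τ j)| ≤
      8 * (8 * (h : ℝ) * n / δ) ^ (b - t) * (Rv n h (τ j) *
        |(Wp (fun l => yv n (τ l)) M0 M s j).eval (yv n (τ j))| * (2 * τ j + ((n : ℝ) - 1)) ^ b) := by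
  have hδ := hN.hδ
  have hδ1 := hN.hδ1
  have hn1 : (1 : ℝ) ≤ n := by exact_mod_cast hn
  have hh1 : (1 : ℝ) ≤ h := by exact_mod_cast hh
  have htj := tau_one hN j
  rw [node_coeff ht]
  set x : ℝ := 1 / (8 * (h : ℝ) * n) with hx
  have hx0 : 0 < x := by positivity
  have hxle : x ≤ 1 / 8 := by
    rw [hx]
    apply one_div_le_one_div_of_le (by norm_num)
    nlinarith
  set ρ : ℝ := δ * x with hρ
  have hρ0 : 0 < ρ := by positivity
  have hρx : ρ / δ = x := by rw [hρ]; field_simp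
  have hρδ : ρ < δ := by rw [hρ]; nlinarith
  have hρx' : ρ ≤ x := by rw [hρ]; nlinarith
  set W := Wp (fun l => yv n (τ l)) M0 M s j with hW
  set w : ℝ := 2 * τ j + ((n : ℝ) - 1) with hw
  have hw1 : 1 ≤ w := by rw [hw]; linarith
  -- the linear factors
  have hfac : ∀ l, l ≠ j → GC b ρ ((1 + x) ^ 2) (Yr n (τ j) - PowerSeries.C (yv n (τ l))) := by
    intro l hl
    rw [Yr_sub_node, sq]
    apply GC.mul hρ0.le (by positivity)
    · rw [← hρx]
      exact GC.linX hρ0.le hδ (gap_abs hN (Ne.symm hl))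
    · rw [← hρx]
      apply GC.linX hρ0.le hδ
      have := tau_one hN l
      rw [abs_of_nonneg (by linarith)]
      linarith
  have hprod : ∀ M' : ℕ, j < M' → GC b ρ ((1 + x) ^ (2 * (s * (M' - 1))))
      (Polynomial.aeval (Yr n (τ j)) (∏ l ∈ (Finset.range M').erase j, (X - C (yv n (τ l))) ^ s)) := by
    intro M' hM'
    rw [map_prod]
    have h1 := GC.prod (b := b) hρ0.le (K := ((1 + x) ^ 2) ^ s) (by positivity)
      ((Finset.range M').erase j) (fun l => (Yr n (τ j) - PowerSeries.C (yv n (τ l))) ^ s)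
      (fun l hl => GC.pow hρ0.le (by positivity) (hfac l (Finset.ne_of_mem_erase hl)) s)
    rw [Finset.card_erase_of_mem (Finset.mem_range.2 hM'), Finset.card_range, ← pow_mul, ← pow_mul] at h1
    have e : ∏ l ∈ (Finset.range M').erase j, Polynomial.aeval (Yr n (τ j))
        ((X - C (yv n (τ l))) ^ s : ℝ[X]) = ∏ l ∈ (Finset.range M').erase j,
        (Yr n (τ j) - PowerSeries.C (yv n (τ l))) ^ s := by
      refine Finset.prod_congr rfl fun l _ => ?_
      rw [map_pow, map_sub, aeval_X, aeval_C]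
      rfl
    rw [e]
    exact h1
  have hWG : GC b ρ ((1 + x) ^ (2 * (s * (M0 - 1))) * (1 + x) ^ (2 * (s * (M - 1))))
      (Polynomial.aeval (Yr n (τ j)) W) := by
    rw [hW]
    unfold Wp
    rw [map_mul]
    exact GC.mul hρ0.le (by positivity) (hprod M0 hj) (hprod M (by omega))
  have hwG : GC b ρ ((1 + x) ^ t) ((PowerSeries.X + PowerSeries.C w) ^ t) := by
    apply GC.pow hρ0.le (by positivity)
    rw [← hρx]
    apply GC.linX hρ0.le hδ
    rw [abs_of_nonneg (by linarith)]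
    linarith
  have hRG : GC b ρ (4 : ℝ) (Rr n h (τ j)) := by
    refine (GC_Rr (b := b) hρ0.le hδ hδ1 hρδ hn htj).mono ?_
    rw [← pow_mul, hρx]
    have h4 : ((1 - x)⁻¹) ^ (2 * h * n) ≤ 2 := by
      apply one_sub_inv_pow hx0.le
      rw [hx]
      push_cast
      have : 2 * (h : ℝ) * n * (1 / (8 * (h : ℝ) * n)) = 1 / 4 := by
        field_simp
        norm_num
      rw [this]
      norm_num
    have h5 : 0 < 1 - x := by linarith
    have h6 : 0 ≤ ((1 - x)⁻¹) ^ (2 * h * n) := by positivity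
    calc (1 + 2 * ρ) * ((1 - x)⁻¹) ^ (2 * h * n) ≤ 2 * 2 :=
          mul_le_mul (by linarith) h4 h6 (by norm_num)
      _ = 4 := by norm_num
  have hall := GC.mul hρ0.le (by norm_num) hRG (GC.mul hρ0.le (by positivity) hWG hwG)
  have hKle : (4 : ℝ) * ((1 + x) ^ (2 * (s * (M0 - 1))) * (1 + x) ^ (2 * (s * (M - 1))) * (1 + x) ^ t) ≤ 8 := by
    rw [← pow_add, ← pow_add]
    have h1 : (1 + x) ^ (2 * (s * (M0 - 1)) + 2 * (s * (M - 1)) + t) ≤ 2 := by
      apply one_add_pow_le hx0.le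
      have h2 : 2 * (s * (M0 - 1)) + 2 * (s * (M - 1)) + t ≤ 4 * (h * n) := by
        have a1 : s * (M0 - 1) ≤ s * M := Nat.mul_le_mul_left _ (by omega)
        have a2 : s * (M - 1) ≤ s * M := Nat.mul_le_mul_left _ (by omega)
        have a3 : t ≤ s * M := by
          have : s * 1 ≤ s * M := Nat.mul_le_mul_left _ (by omega)
          omega
        omega
      have h3 : ((2 * (s * (M0 - 1)) + 2 * (s * (M - 1)) + t : ℕ) : ℝ) ≤ 4 * (h * n) := by
        exact_mod_cast h2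
      calc ((2 * (s * (M0 - 1)) + 2 * (s * (M - 1)) + t : ℕ) : ℝ) * x ≤ 4 * (h * n) * x :=
            mul_le_mul_of_nonneg_right h3 hx0.le
        _ = 1 / 2 := by
            rw [hx]
            field_simp
            norm_num
    linarith
  have hall' := GC.mono hall hKle
  unfold GC at hall'
  rw [map_mul, map_mul, cc_Rr, cc_aeval, map_pow] at hall'
  have hcw : PowerSeries.constantCoeff (PowerSeries.X + PowerSeries.C w) = w := by simp
  rw [hcw, abs_mul, abs_mul, abs_of_pos (Rv_pos hn htj), abs_pow, abs_of_nonneg (by linarith : 0 ≤ w)] at hall'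
  have h1 := coeff_le_NB (b := b) hρ0 (Rr n h (τ j) * (Polynomial.aeval (Yr n (τ j)) W *
    (PowerSeries.X + PowerSeries.C w) ^ t)) (k := b - t) (Nat.sub_le _ _)
  refine h1.trans ?_
  have h2 : (8 * (h : ℝ) * n / δ) = ρ⁻¹ := by
    rw [hρ, hx]
    field_simp
  rw [h2, inv_pow, div_eq_mul_inv]
  have h3 : 0 < (ρ ^ (b - t))⁻¹ := by positivity
  have hR := Rv_pos (h := h) hn htj
  have h4 : w ^ t ≤ w ^ b := pow_le_pow_right₀ hw1 ht
  calc NB b ρ (Rr n h (τ j) * (Polynomial.aeval (Yr n (τ j)) W *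
        (PowerSeries.X + PowerSeries.C w) ^ t)) * (ρ ^ (b - t))⁻¹ ≤
      (8 * (Rv n h (τ j) * (|eval (yv n (τ j)) W| * w ^ t))) * (ρ ^ (b - t))⁻¹ :=
        mul_le_mul_of_nonneg_right hall' h3.le
    _ ≤ (8 * (Rv n h (τ j) * (|eval (yv n (τ j)) W| * w ^ b))) * (ρ ^ (b - t))⁻¹ := by gcongr
    _ = _ := by ring

/-- the leading coefficient at one node -/
lemma node_lead (hN : Nodes N δ c1 c2 τ ω) {b n h : ℕ} (hn : 1 ≤ n) (j : ℕ) (W : ℝ[X]) :
    |FR b n h ((X - C (yv n (τ j))) ^ b * W) (τ j)| =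
      Rv n h (τ j) * |W.eval (yv n (τ j))| * (2 * τ j + ((n : ℝ) - 1)) ^ b := by
  have hn1 : (1 : ℝ) ≤ n := by exact_mod_cast hn
  have htj := tau_one hN j
  rw [node_coeff le_rfl, Nat.sub_self, PowerSeries.coeff_zero_eq_constantCoeff_apply, map_mul, map_mul,
    cc_Rr, cc_aeval, map_pow]
  have hcw : PowerSeries.constantCoeff (PowerSeries.X + PowerSeries.C (2 * τ j + ((n : ℝ) - 1))) =
      2 * τ j + ((n : ℝ) - 1) := by simp
  rw [hcw, abs_mul, abs_mul, abs_of_pos (Rv_pos hn htj), abs_pow,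
    abs_of_nonneg (by linarith : 0 ≤ 2 * τ j + ((n : ℝ) - 1))]
  ring

end

end Pool.Agent.J6H74.MW
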