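import Pool.Agent.J6H74.MW.NV

/-!
# Many irrational odd zeta values in every window: the non-vanishing theorem, continued
-/

set_option autoImplicit false

open Polynomial Pool.Agent.H337R2 Pool.Agent.W165.OZ Filter Topology

namespace Pool.Agent.J6H74.MW

noncomputable section

variable {N : ℕ} {δ c1 c2 : ℝ} {τ ω : ℕ → ℝ}

lemma Bp_dvd (y : ℕ → ℝ) {M s j κ i : ℕ} (hi : i < M) (hij : i ≠ j) :
    (X - C (y i)) ^ s ∣ Bp y M s j κ := by
  unfold Bp
  apply dvd_mul_of_dvd_right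
  exact Finset.dvd_prod_of_mem (fun l => (X - C (y l)) ^ s)
    (Finset.mem_erase.2 ⟨hij, Finset.mem_range.2 hi⟩)

lemma FR_zero_dvd {b n h s : ℕ} (hs : b < s) {t : ℝ} {P : ℝ[X]} (hP : (X - C (yv n t)) ^ s ∣ P) :
    FR b n h P t = 0 := by
  obtain ⟨P', rfl⟩ := hP
  exact FR_zero hs P'

theorem core (hN : Nodes N δ c1 c2 τ ω) {b n h M0 M s : ℕ} (hn : 1 ≤ n) (hh : 1 ≤ h)
    (hs : s = b + 1) (hM : h * n = 2 * (s * M)) (hM0 : M0 ≤ M) (hM1 : 1 ≤ M0) {μ : ℕ → ℝ}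
    (hMom : MomD b n h τ ω μ) (Q : ℝ[X]) (hQ0 : Q ≠ 0) (hQd : Q.natDegree < s * M0)
    (hQ : ∀ j < s * M, Lf μ (Q * X ^ j) = 0) :
    ∃ j < M0, c1 * (Rv n h (τ j) * |(Wp (fun l => yv n (τ l)) M0 M s j).eval (yv n (τ j))| *
      (2 * τ j + ((n : ℝ) - 1)) ^ b) ≤ (2 * (64 * (h : ℝ) * n / δ)) ^ b * (((s : ℝ) * M0) *
        (6 * (4 * (h : ℝ) * n) ^ b * (4 * (N : ℝ) ^ 2 * c2 *
          (MM N M ^ (2 * (s * (M - M0))))⁻¹))) := by
  classical
  have hδ := hN.hδ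
  have hδ1 := hN.hδ1
  have hn1 : (1 : ℝ) ≤ n := by exact_mod_cast hn
  have hh1 : (1 : ℝ) ≤ h := by exact_mod_cast hh
  have hc2 : 0 ≤ c2 := (abs_nonneg _).trans (hN.whi 0)
  have hMpos : 1 ≤ M := by omega
  have hsM : s ≤ s * M := Nat.le_mul_of_pos_right s hMpos
  obtain ⟨y, hy⟩ : ∃ y : ℕ → ℝ, y = fun l => yv n (τ l) := ⟨_, rfl⟩
  have hyi : ∀ l, yv n (τ l) = y l := fun l => by rw [hy]
  have hyinj : Function.Injective y := by
    rw [hy]
    exact (CO.y_mono hN hn).injective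
  obtain ⟨a, ha⟩ := exists_expansion y hyinj M0 s Q hQd
  obtain ⟨T, hT⟩ : ∃ T : ℝ, T = 6 * (4 * (h : ℝ) * n) ^ b * (4 * (N : ℝ) ^ 2 * c2 *
          (MM N M ^ (2 * (s * (M - M0))))⁻¹) := ⟨_, rfl⟩
  have hMM : 0 < MM N M := lt_of_lt_of_le one_pos (AR.MM_one N M)
  have hT0 : 0 ≤ T := by rw [hT]; positivity
  -- the maximal coefficient
  have hne : (Finset.range M0 ×ˢ Finset.range s).Nonempty :=
    ⟨(0, 0), Finset.mem_product.2 ⟨Finset.mem_range.2 (by omega), Finset.mem_range.2 (by omega)⟩⟩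
  obtain ⟨x, hx, hxmax⟩ := Finset.exists_max_image (Finset.range M0 ×ˢ Finset.range s)
    (fun x => |a x.1 x.2|) hne
  obtain ⟨j, κ0⟩ := x
  rw [Finset.mem_product, Finset.mem_range, Finset.mem_range] at hx
  obtain ⟨hj, hκ0⟩ := hx
  simp only at hj hκ0 hxmax
  set A := |a j κ0| with hA
  have hmax : ∀ j2 < M0, ∀ κ < s, |a j2 κ| ≤ A := fun j2 h2 κ hκ =>
    hxmax (j2, κ) (Finset.mem_product.2 ⟨Finset.mem_range.2 h2, Finset.mem_range.2 hκ⟩)
  have hA0 : 0 < A := by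
    by_contra hcon
    apply hQ0
    rw [ha]
    refine Finset.sum_eq_zero fun j2 h2 => Finset.sum_eq_zero fun κ hκ => ?_
    have := hmax j2 (Finset.mem_range.1 h2) κ (Finset.mem_range.1 hκ)
    have h3 : a j2 κ = 0 := by
      rw [← abs_nonpos_iff]
      linarith
    rw [h3, C_0, zero_mul]
  refine ⟨j, hj, ?_⟩
  rw [← hT, hyi, ← hy]
  have hτj := tau_one hN j
  have hjM : j < M := by omega
  -- the equations
  have heq : ∀ κ' ≤ b, |∑ κ ∈ Finset.range (b + 1), a j κ *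
      (ω j * FR b n h ((X - C (y j)) ^ (κ + κ') * Wp y M0 M s j) (τ j))| ≤ (s * M0) * A * T := by
    intro κ' hκ'
    have hκs : κ' < s := by omega
    have hPd : (Bp y M s j κ').natDegree < s * M := by
      rw [Bp_natDegree y M s j κ' hjM]
      obtain ⟨M', rfl⟩ : ∃ M', M = M' + 1 := ⟨M - 1, by omega⟩
      rw [Nat.add_sub_cancel, Nat.mul_add, Nat.mul_one]
      omega
    have hL := CO.L_zero Q hQ (Bp y M s j κ') hPd
    have hQP : Q * Bp y M s j κ' = ∑ j2 ∈ Finset.range M0, ∑ κ ∈ Finset.range s,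
        C (a j2 κ) * (Bp y M0 s j2 κ * Bp y M s j κ') := by
      conv_lhs => rw [ha]
      rw [Finset.sum_mul]
      refine Finset.sum_congr rfl fun j2 _ => ?_
      rw [Finset.sum_mul]
      refine Finset.sum_congr rfl fun κ _ => ?_
      ring
    rw [hQP, map_sum] at hL
    have hL2 : ∑ j2 ∈ Finset.range M0, ∑ κ ∈ Finset.range s,
        a j2 κ * Lf μ (Bp y M0 s j2 κ * Bp y M s j κ') = 0 := by
      rw [← hL]
      refine Finset.sum_congr rfl fun j2 _ => ?_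
      rw [map_sum]
      refine Finset.sum_congr rfl fun κ _ => ?_
      rw [← smul_eq_C_mul, map_smul, smul_eq_mul]
    -- the values at the nodes
    have hval : ∀ j2 < M0, ∀ κ < s, ∑ i ∈ Finset.range M,
        ω i * FR b n h (Bp y M0 s j2 κ * Bp y M s j κ') (τ i) =
        if j2 = j then ω j * FR b n h ((X - C (y j)) ^ (κ + κ') * Wp y M0 M s j) (τ j) else 0 := by
      intro j2 hj2 κ hκ
      have h1 : ∑ i ∈ Finset.range M, ω i * FR b n h (Bp y M0 s j2 κ * Bp y M s j κ') (τ i) =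
          ω j * FR b n h (Bp y M0 s j2 κ * Bp y M s j κ') (τ j) := by
        refine Finset.sum_eq_single_of_mem j (Finset.mem_range.2 hjM) fun i hi hij => ?_
        rw [FR_zero_dvd (s := s) (by omega) (P := Bp y M0 s j2 κ * Bp y M s j κ'), mul_zero]
        rw [hyi]
        exact dvd_mul_of_dvd_right (Bp_dvd y (Finset.mem_range.1 hi) hij) _
      rw [h1]
      by_cases hjj : j2 = j
      · rw [if_pos hjj, hjj, Bp_mul]
      · rw [if_neg hjj, FR_zero_dvd (s := s) (by omega) (P := Bp y M0 s j2 κ * Bp y M s j κ'), mul_zero]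
        rw [hyi]
        exact dvd_mul_of_dvd_left (Bp_dvd y hj (Ne.symm hjj)) _
    have htail : ∀ j2 < M0, ∀ κ < s, |Lf μ (Bp y M0 s j2 κ * Bp y M s j κ') - ∑ i ∈ Finset.range M,
        ω i * FR b n h (Bp y M0 s j2 κ * Bp y M s j κ') (τ i)| ≤ T := by
      intro j2 hj2 κ hκ
      have e1 : s * (M0 - 1) + s = s * M0 := by
        obtain ⟨M', rfl⟩ : ∃ M', M0 = M' + 1 := ⟨M0 - 1, by omega⟩
        rw [Nat.add_sub_cancel, Nat.mul_add, Nat.mul_one]
      have e2 : s * (M - 1) + s = s * M := by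
        obtain ⟨M', rfl⟩ : ∃ M', M = M' + 1 := ⟨M - 1, by omega⟩
        rw [Nat.add_sub_cancel, Nat.mul_add, Nat.mul_one]
      have e3 : s * M0 ≤ s * M := Nat.mul_le_mul_left _ hM0
      have hsM0 : s ≤ s * M0 := Nat.le_mul_of_pos_right s hM1
      have hd : (Bp y M0 s j2 κ * Bp y M s j κ').natDegree ≤ (κ + s * (M0 - 1)) + (κ' + s * (M - 1)) := by
        refine natDegree_mul_le.trans ?_
        rw [Bp_natDegree y M0 s j2 κ hj2, Bp_natDegree y M s j κ' hjM]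
      have hPY : ∀ i, M ≤ i → PY b n h (s * M + s * M0 - 2) (τ i)
          (Bp y M0 s j2 κ * Bp y M s j κ') := by
        intro i hi
        have h1 := Bp_PY (b := b) (s := s) (κ := κ) hN hn hh hj2 (hM0.trans hi)
        have h2 := Bp_PY (b := b) (s := s) (κ := κ') hN hn hh hjM hi
        rw [← hy] at h1 h2
        exact PY.mono hn hh (tau_one hN i) (PY.mul hn hh (tau_one hN i) h1 h2) (by omega)
      have h3 := tail_bound hN hn hh hMom (Bp y M0 s j2 κ * Bp y M s j κ') (by omega) M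
        (s * M + s * M0 - 2) (by omega) hPY
      have e4 : h * n - 2 - (s * M + s * M0 - 2) = s * (M - M0) := by
        rw [Nat.mul_sub, hM]
        omega
      rw [e4, ← hT] at h3
      exact h3
    have hkey : ∑ κ ∈ Finset.range (b + 1), a j κ *
        (ω j * FR b n h ((X - C (y j)) ^ (κ + κ') * Wp y M0 M s j) (τ j)) =
        -∑ j2 ∈ Finset.range M0, ∑ κ ∈ Finset.range s, a j2 κ *
          (Lf μ (Bp y M0 s j2 κ * Bp y M s j κ') - ∑ i ∈ Finset.range M,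
            ω i * FR b n h (Bp y M0 s j2 κ * Bp y M s j κ') (τ i)) := by
      have h1 : ∑ j2 ∈ Finset.range M0, ∑ κ ∈ Finset.range s, a j2 κ *
          (Lf μ (Bp y M0 s j2 κ * Bp y M s j κ') - ∑ i ∈ Finset.range M,
            ω i * FR b n h (Bp y M0 s j2 κ * Bp y M s j κ') (τ i)) =
          (∑ j2 ∈ Finset.range M0, ∑ κ ∈ Finset.range s,
            a j2 κ * Lf μ (Bp y M0 s j2 κ * Bp y M s j κ')) -
          ∑ j2 ∈ Finset.range M0, ∑ κ ∈ Finset.range s, a j2 κ *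
            (if j2 = j then ω j * FR b n h ((X - C (y j)) ^ (κ + κ') * Wp y M0 M s j) (τ j) else 0) := by
        rw [← Finset.sum_sub_distrib]
        refine Finset.sum_congr rfl fun j2 h2 => ?_
        rw [← Finset.sum_sub_distrib]
        refine Finset.sum_congr rfl fun κ hκ => ?_
        rw [hval j2 (Finset.mem_range.1 h2) κ (Finset.mem_range.1 hκ)]
        ring
      rw [h1, hL2, zero_sub, neg_neg, ← hs]
      symm
      rw [Finset.sum_eq_single_of_mem j (Finset.mem_range.2 hj)]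
      · refine Finset.sum_congr rfl fun κ _ => ?_
        rw [if_pos rfl]
      · intro j2 _ hne2
        refine Finset.sum_eq_zero fun κ _ => ?_
        rw [if_neg hne2, mul_zero]
    rw [hkey, abs_neg]
    calc |∑ j2 ∈ Finset.range M0, ∑ κ ∈ Finset.range s, a j2 κ *
          (Lf μ (Bp y M0 s j2 κ * Bp y M s j κ') - ∑ i ∈ Finset.range M,
            ω i * FR b n h (Bp y M0 s j2 κ * Bp y M s j κ') (τ i))|
        ≤ ∑ j2 ∈ Finset.range M0, ∑ κ ∈ Finset.range s, A * T := by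
          refine (Finset.abs_sum_le_sum_abs _ _).trans (Finset.sum_le_sum fun j2 h2 => ?_)
          refine (Finset.abs_sum_le_sum_abs _ _).trans (Finset.sum_le_sum fun κ hκ => ?_)
          rw [abs_mul]
          exact mul_le_mul (hmax j2 (Finset.mem_range.1 h2) κ (Finset.mem_range.1 hκ))
            (htail j2 (Finset.mem_range.1 h2) κ (Finset.mem_range.1 hκ)) (abs_nonneg _) hA0.le
      _ = (s * M0) * A * T := by
          rw [Finset.sum_const, Finset.sum_const, Finset.card_range, Finset.card_range]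
          simp only [nsmul_eq_mul]
          ring
  -- the triangular system
  set m := Rv n h (τ j) * |eval (y j) (Wp y M0 M s j)| * (2 * τ j + ((n : ℝ) - 1)) ^ b with hm
  have hR := Rv_pos (h := h) hn hτj
  have hm0 : 0 ≤ m := by
    rw [hm]
    have : 0 ≤ 2 * τ j + ((n : ℝ) - 1) := by linarith
    positivity
  have hΛ : 1 ≤ 64 * (h : ℝ) * n / δ := by
    rw [le_div_iff₀ hδ]
    nlinarith
  have hE : 0 ≤ (s * M0) * A * T := by positivity
  have htri := triang b (a j) (fun t => FR b n h ((X - C (y j)) ^ t * Wp y M0 M s j) (τ j)) (ω j)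
    ((s * M0) * A * T) m (64 * (h : ℝ) * n / δ) hE hm0 hΛ
    (fun t ht => by
      apply FR_zero_dvd ht
      rw [hyi]
      exact dvd_mul_right _ _)
    (by
      have := node_lead (b := b) (h := h) hN hn j (Wp y M0 M s j)
      rw [hyi] at this
      exact this)
    (fun t ht => by
      have h1 := node_bound hN hn hh hs hM hM0 hj t ht.le
      rw [← hy, hyi, ← hm] at h1
      refine h1.trans ?_
      rw [mul_comm m]
      apply mul_le_mul_of_nonneg_right _ hm0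
      have e : 64 * (h : ℝ) * n / δ = 8 * (8 * (h : ℝ) * n / δ) := by ring
      rw [e, mul_pow]
      apply mul_le_mul_of_nonneg_right _ (by positivity)
      calc (8 : ℝ) = 8 ^ 1 := by norm_num
        _ ≤ 8 ^ (b - t) := pow_le_pow_right₀ (by norm_num) (by omega))
    heq κ0 (by omega)
  have hpow : (2 * (64 * (h : ℝ) * n / δ)) ^ κ0 ≤ (2 * (64 * (h : ℝ) * n / δ)) ^ b :=
    pow_le_pow_right₀ (by linarith) (by omega)
  have h1 : A * (c1 * m) ≤ A * ((2 * (64 * (h : ℝ) * n / δ)) ^ b * ((s * M0) * T)) := by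
    calc A * (c1 * m) ≤ A * |ω j| * m := by
          rw [mul_assoc]
          apply mul_le_mul_of_nonneg_left _ hA0.le
          exact mul_le_mul_of_nonneg_right (hN.wlo j) hm0
      _ ≤ (2 * (64 * (h : ℝ) * n / δ)) ^ κ0 * ((s * M0) * A * T) := htri
      _ ≤ (2 * (64 * (h : ℝ) * n / δ)) ^ b * ((s * M0) * A * T) :=
          mul_le_mul_of_nonneg_right hpow hE
      _ = _ := by ring
  exact le_of_mul_le_mul_left h1 hA0

/-- the non-vanishing theorem -/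
theorem t_nvD (hN : Nodes N δ c1 c2 τ ω) (b h' : ℕ) (hh : 32 * N ≤ h') :
    ∃ n0 : ℕ, ∀ n ≥ n0, Even n → ∀ μ : ℕ → ℝ, MomD b n ((b + 1) * h') τ ω μ →
      ∃ r : ℕ, (b + 1) * h' * n ≤ 16 * r ∧ 2 * r ≤ (b + 1) * h' * n ∧ DH μ r ≠ 0 := by
  have hδ := hN.hδ
  have hc1 : 0 < c1 := hN.hc1
  have hc2 : 0 < c2 := lt_of_lt_of_le hc1 ((hN.wlo 0).trans (hN.whi 0))
  have hN1 : 1 ≤ N := hN.hN
  have hN0 : (0 : ℝ) < N := by exact_mod_cast hN1
  obtain ⟨n0, hn0⟩ := nu2 N δ hN1 hδ h' hh (2 * b + 2)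
  obtain ⟨s, hs⟩ : ∃ s, s = b + 1 := ⟨_, rfl⟩
  rw [← hs]
  have hs1 : 1 ≤ s := by omega
  obtain ⟨h, hhd⟩ : ∃ h, h = s * h' := ⟨_, rfl⟩
  have hh'1 : 32 ≤ h' := by
    calc 32 = 32 * 1 := by norm_num
      _ ≤ 32 * N := Nat.mul_le_mul_left _ hN1
      _ ≤ h' := hh
  have hh1 : 1 ≤ h := by
    rw [hhd]
    exact Nat.mul_pos hs1 (by omega)
  obtain ⟨K, hK⟩ : ∃ K : ℝ, K = (2 * (64 * (h : ℝ) / δ)) ^ b * (s * (6 * (4 * (h : ℝ)) ^ b *
    (4 * (N : ℝ) ^ 2 * c2))) := ⟨_, rfl⟩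
  obtain ⟨n1, hn1⟩ := exists_nat_gt (K / c1)
  refine ⟨max (max n0 2) n1, fun n hn hev μ hμ => ?_⟩
  have hnn0 : n0 ≤ n := ((le_max_left _ _).trans (le_max_left _ _)).trans hn
  have hn2 : 2 ≤ n := ((le_max_right _ _).trans (le_max_left _ _)).trans hn
  have hnn1 : n1 ≤ n := (le_max_right _ _).trans hn
  obtain ⟨M, hM⟩ : ∃ M, 2 * M = h' * n := by
    obtain ⟨a, ha⟩ := hev
    exact ⟨h' * a, by rw [ha]; ring⟩
  have hnM : n ≤ M := by
    have : 2 * n ≤ h' * n := Nat.mul_le_mul_right n (by omega)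
    omega
  obtain ⟨M0, hM0⟩ : ∃ M0, M0 = (M + 7) / 8 := ⟨_, rfl⟩
  have hM01 : 1 ≤ M0 := by omega
  have hM0M : M0 ≤ M := by omega
  have hM8 : M ≤ 8 * M0 := by omega
  have hhn : h * n = 2 * (s * M) := by
    rw [hhd, mul_assoc, ← hM]
    ring
  rw [← hhd] at hμ ⊢
  by_contra hcon
  push Not at hcon
  have hr0 : h * n ≤ 16 * (s * M0) := by
    rw [hhn]
    have : s * M ≤ s * (8 * M0) := Nat.mul_le_mul_left _ hM8
    calc 2 * (s * M) ≤ 2 * (s * (8 * M0)) := Nat.mul_le_mul_left _ this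
      _ = 16 * (s * M0) := by ring
  have hzero : ∀ r, s * M0 ≤ r → r ≤ s * M → DH μ r = 0 := fun r hr hr' =>
    hcon r (by omega) (by omega)
  obtain ⟨Q, hQ0, hQd, hQo⟩ := t_hk μ (s * M0) (s * M) (Nat.mul_pos hs1 hM01)
    (Nat.mul_le_mul_left _ hM0M) hzero
  obtain ⟨j, hj, hco⟩ := core hN (by omega) hh1 hs hhn hM0M hM01 hμ Q hQ0 hQd hQo
  have hnum := hn0 n hnn0 M M0 hM hM0
  obtain ⟨A, hA⟩ : ∃ A : ℝ, A = δ ^ (6 * N) * (((M - 1).factorial : ℝ) ^ 2 /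
    (6 * (N : ℝ) ^ 2) ^ (M - 1)) := ⟨_, rfl⟩
  obtain ⟨B, hB⟩ : ∃ B : ℝ, B = δ ^ (6 * N) * (((M0 - 1).factorial : ℝ) ^ 2 /
    (6 * (N : ℝ) ^ 2) ^ (M0 - 1)) := ⟨_, rfl⟩
  have hA0 : 0 < A := by rw [hA]; positivity
  have hB0 : 0 < B := by rw [hB]; positivity
  rw [← hA, ← hB] at hnum
  have hMM : 0 < MM N M := lt_of_lt_of_le one_pos (AR.MM_one N M)
  obtain ⟨Z, hZ⟩ : ∃ Z : ℝ, Z = (MM N M ^ (2 * (M - M0)))⁻¹ := ⟨_, rfl⟩
  have hZ0 : 0 < Z := by rw [hZ]; positivity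
  obtain ⟨Y, hY⟩ : ∃ Y : ℝ, Y = (2 + (M0 : ℝ) / N + n) ^ (2 * h' * n) := ⟨_, rfl⟩
  have hY0 : 0 < Y := by rw [hY]; positivity
  rw [← hY, ← hZ] at hnum
  -- the main term
  have htj := tau_one hN j
  have hnR : (1 : ℝ) ≤ n := by exact_mod_cast (by omega : 1 ≤ n)
  have hRl := t_rl N δ c1 c2 τ ω hN n h j (by omega)
  have hYs : (2 + (j : ℝ) / N + n) ^ (2 * h * n) ≤ Y ^ s := by
    rw [hY, ← pow_mul]
    have e : 2 * h' * n * s = 2 * h * n := by rw [hhd]; ring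
    rw [e]
    refine pow_le_pow_left₀ (by positivity) ?_ _
    have : (j : ℝ) / N ≤ (M0 : ℝ) / N := by
      refine div_le_div_of_nonneg_right ?_ hN0.le
      exact_mod_cast hj.le
    linarith
  have hR2 : (Y ^ s)⁻¹ ≤ Rv n h (τ j) := (inv_anti₀ (by positivity) hYs).trans hRl
  have hW : (A * B) ^ s ≤ |(Wp (fun l => yv n (τ l)) M0 M s j).eval (yv n (τ j))| := by
    have e := Wp_eval (fun l => yv n (τ l)) M0 M s j
    rw [e]
    apply pow_le_pow_left₀ (by positivity)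
    have p1 := t_pi N δ c1 c2 τ ω hN n (by omega) M j (by omega)
    have p2 := t_pi N δ c1 c2 τ ω hN n (by omega) M0 j hj
    rw [← hA] at p1
    rw [← hB] at p2
    rw [mul_comm A B]
    exact mul_le_mul p2 p1 hA0.le (hB0.le.trans p2)
  have hw : 1 ≤ (2 * τ j + ((n : ℝ) - 1)) ^ b := one_le_pow₀ (by linarith)
  have hmain : (Y ^ s)⁻¹ * (A * B) ^ s ≤ Rv n h (τ j) *
      |(Wp (fun l => yv n (τ l)) M0 M s j).eval (yv n (τ j))| * (2 * τ j + ((n : ℝ) - 1)) ^ b := by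
    have h1 : (Y ^ s)⁻¹ * (A * B) ^ s ≤ Rv n h (τ j) *
      |(Wp (fun l => yv n (τ l)) M0 M s j).eval (yv n (τ j))| :=
      mul_le_mul hR2 hW (by positivity) (le_trans (by positivity) hR2)
    have h2 : 0 ≤ Rv n h (τ j) * |(Wp (fun l => yv n (τ l)) M0 M s j).eval (yv n (τ j))| :=
      le_trans (by positivity) h1
    exact h1.trans (le_mul_of_one_le_right h2 hw)
  -- the right side
  have hright : (2 * (64 * (h : ℝ) * n / δ)) ^ b * (((s : ℝ) * M0) *
        (6 * (4 * (h : ℝ) * n) ^ b * (4 * (N : ℝ) ^ 2 * c2 *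
          (MM N M ^ (2 * (s * (M - M0))))⁻¹))) = K * ((n : ℝ) ^ b * n ^ b * M0) * Z ^ s := by
    have e1 : (MM N M ^ (2 * (s * (M - M0))))⁻¹ = Z ^ s := by
      rw [hZ, inv_pow, ← pow_mul]
      congr 2
      ring
    rw [e1, hK]
    have e2 : (2 * (64 * (h : ℝ) * n / δ)) ^ b = (2 * (64 * (h : ℝ) / δ)) ^ b * (n : ℝ) ^ b := by
      rw [← mul_pow]
      congr 1
      ring
    have e3 : (4 * (h : ℝ) * n) ^ b = (4 * (h : ℝ)) ^ b * (n : ℝ) ^ b := mul_pow _ _ _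
    rw [e2, e3]
    ring
  rw [hright] at hco
  have hfin : c1 * ((Y ^ s)⁻¹ * (A * B) ^ s) ≤ K * ((n : ℝ) ^ b * n ^ b * M0) * Z ^ s :=
    (mul_le_mul_of_nonneg_left hmain hc1.le).trans hco
  -- contradiction
  set X' : ℝ := Z * Y / (A * B) with hX'
  have hX0 : 0 < X' := by positivity
  have hMR : (n : ℝ) ≤ M := by exact_mod_cast hnM
  have hM1R : (1 : ℝ) ≤ M := hnR.trans hMR
  have hX1 : X' ≤ 1 := by
    have h1 : 1 ≤ (M : ℝ) ^ (2 * b + 2) := one_le_pow₀ hM1R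
    nlinarith
  have hXs : X' ^ s ≤ X' := by
    calc X' ^ s ≤ X' ^ 1 := pow_le_pow_of_le_one hX0.le hX1 hs1
      _ = X' := pow_one _
  have h3 : c1 ≤ K * ((n : ℝ) ^ b * n ^ b * M0) * X' ^ s := by
    have e : X' ^ s = Z ^ s * (Y ^ s) / (A * B) ^ s := by
      rw [hX', div_pow, mul_pow]
    rw [e]
    have hYs0 : 0 < Y ^ s := by positivity
    have hABs : 0 < (A * B) ^ s := by positivity
    have h4 : c1 * (A * B) ^ s ≤ K * ((n : ℝ) ^ b * n ^ b * M0) * Z ^ s * Y ^ s := by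
      have h5 := mul_le_mul_of_nonneg_right hfin hYs0.le
      have e5 : c1 * ((Y ^ s)⁻¹ * (A * B) ^ s) * Y ^ s = c1 * (A * B) ^ s := by
        field_simp
      rw [e5] at h5
      exact h5
    rw [← mul_div_assoc, le_div_iff₀ hABs]
    calc c1 * (A * B) ^ s ≤ K * ((n : ℝ) ^ b * n ^ b * M0) * Z ^ s * Y ^ s := h4
      _ = _ := by ring
  have hK0 : 0 ≤ K := by rw [hK]; positivity
  have h4 : (n : ℝ) ^ b * n ^ b * M0 ≤ (M : ℝ) ^ (2 * b + 1) := by
    have e : (M : ℝ) ^ (2 * b + 1) = (M : ℝ) ^ b * (M : ℝ) ^ b * M := by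
      rw [pow_succ, two_mul, pow_add]
    rw [e]
    have h5 : (n : ℝ) ^ b ≤ (M : ℝ) ^ b := pow_le_pow_left₀ (by linarith) hMR b
    have h6 : (M0 : ℝ) ≤ M := by exact_mod_cast hM0M
    have h7 : (n : ℝ) ^ b * n ^ b ≤ (M : ℝ) ^ b * (M : ℝ) ^ b :=
      mul_le_mul h5 h5 (by positivity) (by positivity)
    exact mul_le_mul h7 h6 (by positivity) (by positivity)
  have h5 : K * ((n : ℝ) ^ b * n ^ b * M0) * X' ^ s ≤ K * (M : ℝ) ^ (2 * b + 1) * X' := by
    have h6 : K * ((n : ℝ) ^ b * n ^ b * M0) ≤ K * (M : ℝ) ^ (2 * b + 1) :=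
      mul_le_mul_of_nonneg_left h4 hK0
    exact mul_le_mul h6 hXs (by positivity) (by positivity)
  have h6 : c1 * M ≤ K := by
    have h7 : c1 * M ≤ K * (M : ℝ) ^ (2 * b + 1) * X' * M :=
      mul_le_mul_of_nonneg_right (h3.trans h5) (by linarith)
    have h8 : K * (M : ℝ) ^ (2 * b + 1) * X' * M = K * ((M : ℝ) ^ (2 * b + 2) * X') := by ring
    rw [h8] at h7
    have h9 : K * ((M : ℝ) ^ (2 * b + 2) * X') ≤ K * 1 :=
      mul_le_mul_of_nonneg_left hnum.le hK0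
    linarith
  have h7 : K / c1 < M := by
    have : (n1 : ℝ) ≤ n := by exact_mod_cast hnn1
    linarith
  rw [div_lt_iff₀ hc1] at h7
  linarith

end

end Pool.Agent.J6H74.MW
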