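import Pool.Agent.J6H74.MW.SF

/-!
# Many irrational odd zeta values in every window: the lower bound for a non-vanishing determinant
-/

set_option autoImplicit false

open Polynomial Pool.Agent.H337R2 Pool.Agent.W165.OZ Filter Topology

namespace Pool.Agent.J6H74.MW

noncomputable section

lemma scD_pos (b n h B i : ℕ) : 0 < scD b n h B i := by
  unfold scD
  have h1 : (0 : ℚ) < (Dl n B : ℚ) := by exact_mod_cast PRaux.Dl_pos n B
  have h2 := PRaux.sc_pos n h B i
  positivity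

lemma PPD_pos (b n h B : ℕ) : 0 < PPD b n h B := pow_pos (PRaux.PPn_pos n h B) _

lemma norm_scD (p : ℕ) [Fact p.Prime] (b n h B i : ℕ) (hn : 2 ≤ n) (hp : n < p) :
    padicNorm p (scD b n h B i) ≤ 1 := by
  unfold scD
  apply po_mul_le p (PRaux.padicNorm_sc p n h B i hn hp)
  rw [po_pow]
  exact pow_le_one₀ (padicNorm.nonneg _) (padicNorm.of_nat _)

lemma dvd_PPD (p : ℕ) [Fact p.Prime] (b n h B : ℕ) (hp : n < p) (hbh : b ≤ 2 * h) :
    p ^ ((2 * h + b) * ((b + 1) * Sp n B p)) ∣ PPD b n h B := by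
  unfold PPD
  refine dvd_trans ?_ (pow_dvd_pow_of_dvd (PRaux.dvd_PPn p n h B hp) _)
  rw [← pow_mul]
  apply pow_dvd_pow
  have : (2 * h + b) ≤ 2 * (2 * h) := by omega
  calc (2 * h + b) * ((b + 1) * Sp n B p) ≤ (2 * (2 * h)) * ((b + 1) * Sp n B p) :=
        Nat.mul_le_mul_right _ this
    _ = 2 * h * Sp n B p * (2 * (b + 1)) := by ring

theorem t_prD (b n h B : ℕ) (w : ℕ → ℤ) (z : ℕ → ℚ) (q : ℕ) (hb : Even b) (hbh : b ≤ 2 * h)
    (hq : 1 ≤ q) (hz : ∀ i, ∃ a : ℤ, (q : ℚ) * z i = a) (hn : 2 ≤ n) (hev : Even n) (hh : 1 ≤ h)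
    (hB : 1 ≤ B) (hBn : B ≤ n) (r : ℕ) (hr : 2 * r ≤ h * n) (hne : DH (moD b n h B w z) r ≠ 0) :
    1 ≤ |DH (moD b n h B w z) r| *
      ((q : ℚ) ^ r * (∏ i ∈ Finset.range r, scD b n h B i ^ 2) * (PPD b n h B : ℚ)) := by
  have hx : ∀ p : ℕ, [Fact p.Prime] → padicNorm p (DH (moD b n h B w z) r *
      ((q : ℚ) ^ r * (∏ i ∈ Finset.range r, scD b n h B i ^ 2) * (PPD b n h B : ℚ))) ≤ 1 := by
    intro p hp
    have hqz : ∀ i, padicNorm p ((q : ℚ) * z i) ≤ 1 := by
      intro i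
      obtain ⟨a, ha⟩ := hz i
      rw [ha]
      exact padicNorm.of_int a
    by_cases hpn : p ≤ n
    · have h3 := t_seD p b n h B w z q hqz hn hev hh hB hpn r hr
      have h4 : padicNorm p ((PPD b n h B : ℕ) : ℚ) ≤ 1 := padicNorm.of_nat _
      have h5 := po_mul_le p h3 h4
      have h6 : ((q : ℚ) ^ r * ∏ i ∈ Finset.range r, scD b n h B i ^ 2) *
          DH (moD b n h B w z) r * ((PPD b n h B : ℕ) : ℚ) =
          DH (moD b n h B w z) r *
            ((q : ℚ) ^ r * (∏ i ∈ Finset.range r, scD b n h B i ^ 2) * (PPD b n h B : ℚ)) := by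
        ring
      rwa [h6] at h5
    · have hpn' : n < p := by omega
      have h3 := t_sfD p b n h B w z q hb hqz hn hh hBn hpn' r hr
      obtain ⟨m, hm⟩ := dvd_PPD p b n h B hpn' hbh
      have h4 : padicNorm p (m : ℚ) ≤ 1 := padicNorm.of_nat _
      have h5 : (∏ i ∈ Finset.range r, scD b n h B i ^ 2) ∈ SFaux.Rp p := by
        refine Subring.prod_mem _ fun i _ => Subring.pow_mem _ ?_ _
        exact norm_scD p b n h B i hn hpn'
      have h6 := po_mul_le p (po_mul_le p h3 h5) h4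
      have h7 : ((q : ℚ) ^ r * (p : ℚ) ^ ((2 * h + b) * ((b + 1) * Sp n B p))) *
          DH (moD b n h B w z) r * (∏ i ∈ Finset.range r, scD b n h B i ^ 2) * (m : ℚ) =
          DH (moD b n h B w z) r *
            ((q : ℚ) ^ r * (∏ i ∈ Finset.range r, scD b n h B i ^ 2) * (PPD b n h B : ℚ)) := by
        rw [hm]
        push_cast
        ring
      rwa [h7] at h6
  have hq0 : (q : ℚ) ≠ 0 := by
    have : 0 < q := hq
    exact_mod_cast this.ne'
  have hpos : 0 < (q : ℚ) ^ r * (∏ i ∈ Finset.range r, scD b n h B i ^ 2) * (PPD b n h B : ℚ) := by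
    have a1 : (0 : ℚ) < (q : ℚ) := by exact_mod_cast hq
    have a2 : (0 : ℚ) < ∏ i ∈ Finset.range r, scD b n h B i ^ 2 :=
      Finset.prod_pos fun i _ => pow_pos (scD_pos b n h B i) 2
    have a3 : (0 : ℚ) < (PPD b n h B : ℚ) := by exact_mod_cast PPD_pos b n h B
    positivity
  have h8 := PRaux.one_le_abs hx (mul_ne_zero hne hpos.ne')
  rwa [abs_mul, abs_of_pos hpos] at h8

end

end Pool.Agent.J6H74.MW
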