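import Pool.Agent.J6H74.MW.FB

/-!
# Many irrational odd zeta values in every window: the real moments
-/

set_option autoImplicit false

open Polynomial Pool.Agent.H337R2 Pool.Agent.W165.OZ Filter Topology

namespace Pool.Agent.J6H74.MW

noncomputable section

theorem reindexF (s : Finset ℕ) (μ : ℕ → ℕ) (P : ℚ[X]) (k : ℕ) (F : ℕ → ℚ) :
    ∑ j ∈ Finset.range (μ k), pfc s μ P k j * F (μ k - j) =
      ∑ i ∈ Finset.Icc 1 (μ k), pa s μ P k i * F i := by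
  have h2 : Finset.Icc 1 (μ k) = Finset.Ico 1 (μ k + 1) := by
    ext
    simp
  rw [h2, Finset.sum_Ico_eq_sum_range, ← Finset.sum_range_reflect]
  apply Finset.sum_congr (by simp)
  intro j hj
  rw [Finset.mem_range] at hj
  have h3 : 1 + j ≤ μ k := by omega
  simp only [pa, h3, if_true]
  congr 2 <;> omega

/-- the derivative at a rational point, by partial fractions -/
theorem coeff_RS' {b n h : ℕ} (hb : Even b) (P : ℚ[X]) (hdeg : P.natDegree < 2 * h * n) (t : ℚ)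
    (ht : ∀ k < n, t + (k : ℚ) ≠ 0) :
    PowerSeries.coeff b (RS (sP n) (mP h) P t) =
      ∑ k ∈ sP n, ∑ i ∈ Finset.Icc 1 (2 * h), pa (sP n) (mP h) P k i * (bc b i / (t + (k : ℚ)) ^ (i + b)) := by
  have hQdeg : (QQ (sP n) (mP h)).natDegree = 2 * h * n := by
    rw [QQ_natDegree, Finset.sum_const, Finset.card_range, smul_eq_mul]
    ring
  have hdeg' : P.degree < (QQ (sP n) (mP h)).degree := by
    rw [Polynomial.degree_eq_natDegree (QQ_monic _ _).ne_zero, hQdeg]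
    exact lt_of_le_of_lt Polynomial.degree_le_natDegree (by exact_mod_cast hdeg)
  rw [coeff_RS (sP n) (mP h) P hdeg' t (fun k hk => ht k (Finset.mem_range.1 hk)) b]
  refine Finset.sum_congr rfl fun k _ => ?_
  have h1 := reindexF (sP n) (mP h) P k (fun i => bc b i / (t + (k : ℚ)) ^ (i + b))
  rw [hb.neg_one_pow]
  simp only [one_mul]
  exact h1

/-- the sum over `u > d` -/
theorem t_dsD {b n h d : ℕ} (hb : Even b) (hb2 : 2 ≤ b) (P : ℚ[X]) (hd : 1 ≤ d)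
    (hP : P.natDegree < 2 * h * n) :
    HasSum (fun u : ℕ => ((PowerSeries.coeff b (RS (sP n) (mP h) P (((u : ℚ) + d + 1) / d)) : ℚ) : ℝ))
      (∑ i ∈ Finset.Icc 1 (2 * h), ((bc b i : ℚ) : ℝ) *
        (((rhoP n h P i * (d : ℚ) ^ (i + b) : ℚ) : ℝ) * zr (i + b) -
        (((d : ℚ) ^ (i + b) * ∑ k ∈ sP n, pa (sP n) (mP h) P k i * hs (i + b) (d * (k + 1)) : ℚ) : ℝ))) := by
  have hd0 : (0 : ℝ) < d := by exact_mod_cast hd
  have hdq : (0 : ℚ) < d := by exact_mod_cast hd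
  obtain ⟨A, hA⟩ : ∃ A : ℕ → ℕ → ℚ, A = fun k i => pa (sP n) (mP h) P k i := ⟨_, rfl⟩
  have hA' : ∀ k i, pa (sP n) (mP h) P k i = A k i := fun k i => by rw [hA]
  have hterm : ∀ u : ℕ, ((PowerSeries.coeff b (RS (sP n) (mP h) P (((u : ℚ) + d + 1) / d)) : ℚ) : ℝ) =
      ∑ i ∈ Finset.Icc 1 (2 * h), ∑ k ∈ sP n, (A k i : ℝ) * ((bc b i : ℚ) : ℝ) * (d : ℝ) ^ (i + b) *
        (1 / ((u : ℝ) + (((d * (k + 1) : ℕ) : ℝ) + 1)) ^ (i + b)) := by
    intro u
    rw [coeff_RS' hb P hP _ (by intro k _; positivity)]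
    push_cast
    rw [Finset.sum_comm]
    refine Finset.sum_congr rfl fun i _ => Finset.sum_congr rfl fun k _ => ?_
    have e : ((u : ℝ) + d + 1) / d + k = ((u : ℝ) + ((d : ℝ) * (k + 1) + 1)) / d := by
      field_simp
      ring
    rw [e, div_pow, hA']
    have h2 : (0 : ℝ) < (u : ℝ) + ((d : ℝ) * (k + 1) + 1) := by positivity
    field_simp
  simp only [hterm]
  refine hasSum_sum fun i hi => ?_
  rw [Finset.mem_Icc] at hi
  unfold rhoP
  simp only [hA']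
  have h3 : HasSum (fun u : ℕ => ∑ k ∈ sP n, (A k i : ℝ) * ((bc b i : ℚ) : ℝ) * (d : ℝ) ^ (i + b) *
        (1 / ((u : ℝ) + (((d * (k + 1) : ℕ) : ℝ) + 1)) ^ (i + b)))
        (∑ k ∈ sP n, (A k i : ℝ) * ((bc b i : ℚ) : ℝ) * (d : ℝ) ^ (i + b) *
          (zr (i + b) - ((hs (i + b) (d * (k + 1)) : ℚ) : ℝ))) :=
      hasSum_sum fun k _ => (hasSum_tail (by omega) (d * (k + 1))).mul_left _
  have e1 : (∑ k ∈ sP n, (A k i : ℝ) * ((bc b i : ℚ) : ℝ) * (d : ℝ) ^ (i + b) *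
      (zr (i + b) - ((hs (i + b) (d * (k + 1)) : ℚ) : ℝ))) =
        ((bc b i : ℚ) : ℝ) * ((((∑ k ∈ sP n, A k i) * (d : ℚ) ^ (i + b) : ℚ) : ℝ) * zr (i + b) -
          (((d : ℚ) ^ (i + b) * ∑ k ∈ sP n, A k i * hs (i + b) (d * (k + 1)) : ℚ) : ℝ)) := by
      push_cast
      rw [mul_sub, Finset.mul_sum, Finset.sum_mul, Finset.sum_mul, Finset.mul_sum, Finset.mul_sum,
        ← Finset.sum_sub_distrib]
      refine Finset.sum_congr rfl fun k _ => ?_
      ring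
  rw [← e1]
  exact h3

/-! ### the real expansion -/

lemma map_iv (a : ℚ) : PowerSeries.map (Rat.castHom ℝ) (iv a) = ivr (a : ℝ) := by
  ext j
  rw [PowerSeries.coeff_map]
  unfold iv ivr
  rw [PowerSeries.coeff_mk, PowerSeries.coeff_mk]
  simp

lemma FR_X_pow (b n h k : ℕ) (t : ℝ) :
    FR b n h (X ^ k) t = PowerSeries.coeff b (Rr n h t * Yr n t ^ k) := by
  unfold FR
  rw [map_pow, aeval_X]

theorem FR_rat (b n h k : ℕ) (t : ℚ) :
    ((PowerSeries.coeff b (RS (sP n) (mP h) (num n (X ^ k)) t) : ℚ) : ℝ) =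
      FR b n h (X ^ k) (t : ℝ) := by
  have h1 : PowerSeries.map (Rat.castHom ℝ) (RS (sP n) (mP h) (num n (X ^ k)) t) =
      Rr n h (t : ℝ) * Yr n (t : ℝ) ^ k := by
    unfold RS VV num yp Rr Yr
    rw [Polynomial.X_pow_comp]
    simp only [map_mul, map_add, map_pow, map_prod, TS_X, TS_C, map_iv, PowerSeries.map_X,
      PowerSeries.map_C]
    push_cast
    simp only [eq_ratCast, Rat.cast_add, Rat.cast_natCast, Rat.cast_sub, Rat.cast_one, Rat.cast_ofNat,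
      add_assoc]
    ring
  rw [FR_X_pow, ← h1, PowerSeries.coeff_map]
  rfl

lemma num_natDegree' (n k : ℕ) : (num n (X ^ k)).natDegree ≤ 1 + 2 * k := rm_natDegree n k

theorem t_rmD {b n h B : ℕ} (hb : Even b) (hb2 : 2 ≤ b) (w : ℕ → ℤ) (hn : 2 ≤ n) (k : ℕ)
    (hk : k + 2 ≤ h * n) :
    (∀ d ∈ Finset.Icc 1 B, Summable (fun u : ℕ => FR b n h (X ^ k) (((u : ℝ) + d + 1) / d))) ∧
    moD b n h B w zz k = ∑ d ∈ Finset.Icc 1 B, (w d : ℝ) *
      ∑' u : ℕ, FR b n h (X ^ k) (((u : ℝ) + d + 1) / d) := by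
  have hdeg : (num n (X ^ k)).natDegree < 2 * h * n := by
    have := num_natDegree' n k
    have h3 : 2 * h * n = 2 * (h * n) := by ring
    omega
  set P := num n (X ^ k) with hP
  have hS : ∀ d ∈ Finset.Icc 1 B, HasSum (fun u : ℕ => FR b n h (X ^ k) (((u : ℝ) + d + 1) / d))
      (∑ i ∈ Finset.Icc 1 (2 * h), ((bc b i : ℚ) : ℝ) *
        (((rhoP n h P i * (d : ℚ) ^ (i + b) : ℚ) : ℝ) * zr (i + b) -
        (((d : ℚ) ^ (i + b) * ∑ k ∈ sP n, pa (sP n) (mP h) P k i * hs (i + b) (d * (k + 1)) : ℚ) : ℝ))) := by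
    intro d hd
    have h3 := t_dsD (h := h) hb hb2 P (Finset.mem_Icc.1 hd).1 hdeg
    refine h3.congr_fun ?_ |> fun h => h
    intro u
    rw [hP, FR_rat]
    push_cast
    rfl
  refine ⟨fun d hd => (hS d hd).summable, ?_⟩
  have h4 : ∑ d ∈ Finset.Icc 1 B, (w d : ℝ) * ∑' u : ℕ, FR b n h (X ^ k) (((u : ℝ) + d + 1) / d) =
      ∑ d ∈ Finset.Icc 1 B, (w d : ℝ) * ∑ i ∈ Finset.Icc 1 (2 * h), ((bc b i : ℚ) : ℝ) *
        (((rhoP n h P i * (d : ℚ) ^ (i + b) : ℚ) : ℝ) * zr (i + b) -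
        (((d : ℚ) ^ (i + b) * ∑ k ∈ sP n, pa (sP n) (mP h) P k i * hs (i + b) (d * (k + 1)) : ℚ) : ℝ)) := by
    apply Finset.sum_congr rfl
    intro d hd
    rw [(hS d hd).tsum_eq]
  rw [h4]
  unfold moD LaD
  rw [← hP]
  simp_rw [Finset.mul_sum (s := Finset.Icc 1 (2 * h))]
  rw [Finset.sum_comm]
  apply Finset.sum_congr rfl
  intro i hi
  obtain ⟨hi1, hi2⟩ := Finset.mem_Icc.1 hi
  have h5 : ((rhoP n h P i : ℚ) : ℝ) * zz (i + b) = ((rhoP n h P i : ℚ) : ℝ) * zr (i + b) := by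
    rcases Nat.even_or_odd i with he | ho
    · rw [hP, t_ev n h (X ^ k) i (by omega) he hi1]
      simp
    · unfold zz
      rw [if_pos ⟨ho.add_even hb, by omega⟩]
  simp only [eq_ratCast]
  have h6 : ((rhoP n h P i * (WW B w (i + b) : ℚ) : ℚ) : ℝ) * zz (i + b) =
      ∑ d ∈ Finset.Icc 1 B, (w d : ℝ) * (((rhoP n h P i * (d : ℚ) ^ (i + b) : ℚ) : ℝ) * zr (i + b)) := by
    unfold WW
    push_cast
    rw [mul_assoc, mul_comm (∑ d ∈ Finset.Icc 1 B, (w d : ℝ) * (d : ℝ) ^ (i + b)) (zz (i + b)),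
      ← mul_assoc, h5, Finset.mul_sum]
    apply Finset.sum_congr rfl
    intro d _
    ring
  have h7 : ((betD b n h B w P i : ℚ) : ℝ) = ∑ d ∈ Finset.Icc 1 B, (w d : ℝ) *
      (((d : ℚ) ^ (i + b) * ∑ k ∈ sP n, pa (sP n) (mP h) P k i * hs (i + b) (d * (k + 1)) : ℚ) : ℝ) := by
    unfold betD
    push_cast
    apply Finset.sum_congr rfl
    intro d _
    ring
  rw [h6, h7, ← Finset.sum_sub_distrib, Finset.mul_sum]
  apply Finset.sum_congr rfl
  intro d _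
  ring

end

end Pool.Agent.J6H74.MW
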