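import Pool.Agent.J6H74.MW.Defs

/-!
# Many irrational odd zeta values in every window: integrality at the primes `p ≤ n`
-/

set_option autoImplicit false

open Polynomial Pool.Agent.H337R2 Pool.Agent.W165.OZ Filter Topology

namespace Pool.Agent.J6H74.MW

noncomputable section

/-- the `p`-adic norm of `Dl` -/
lemma norm_Dl (p : ℕ) [hp : Fact p.Prime] (n B : ℕ) (hpn : p ≤ n) :
    padicNorm p ((Dl n B : ℕ) : ℚ) * (p : ℚ) ^ Nat.log p (B * n) ≤ 1 := by
  have hp0 : (0 : ℚ) < p := by exact_mod_cast hp.out.pos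
  have hdvd : p ^ Nat.log p (B * n) ∣ Dl n B := by
    unfold Dl
    exact Finset.dvd_prod_of_mem (fun p => p ^ Nat.log p (B * n))
      (Finset.mem_filter.2 ⟨Finset.mem_range.2 (by omega), hp.out⟩)
  obtain ⟨c, hc⟩ := hdvd
  rw [hc]
  push_cast
  rw [padicNorm.mul, po_pow, padicNorm.padicNorm_p_of_prime]
  have h1 : padicNorm p (c : ℚ) ≤ 1 := padicNorm.of_nat c
  have h2 : ((p : ℚ)⁻¹ ^ Nat.log p (B * n)) * (p : ℚ) ^ Nat.log p (B * n) = 1 := by
    rw [← mul_pow, inv_mul_cancel₀ hp0.ne', one_pow]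
  calc (p : ℚ)⁻¹ ^ Nat.log p (B * n) * padicNorm p (c : ℚ) * (p : ℚ) ^ Nat.log p (B * n) =
        padicNorm p (c : ℚ) * (((p : ℚ)⁻¹ ^ Nat.log p (B * n)) * (p : ℚ) ^ Nat.log p (B * n)) := by ring
    _ = padicNorm p (c : ℚ) := by rw [h2, mul_one]
    _ ≤ 1 := h1

/-- one entry -/
lemma entryS (p : ℕ) [hp : Fact p.Prime] (b n h B : ℕ) (w : ℕ → ℤ) (z : ℕ → ℚ) (q : ℕ)
    (hz : ∀ i, padicNorm p ((q : ℚ) * z i) ≤ 1)
    (hn : 2 ≤ n) (he : Even n) (hh : 1 ≤ h) (hB : 1 ≤ B) (hpn : p ≤ n) (i i' : ℕ)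
    (hi : 2 * i < h * n) (hi' : 2 * i' < h * n) :
    padicNorm p (((q : ℚ) * scD b n h B i * scD b n h B i') * LaDL b n h B w z (Qb n i * Qb n i')) ≤ 1 := by
  set c : ℚ := sc n h B i * sc n h B i' with hc
  set P := num n (Qb n i * Qb n i') with hP
  have hp1 : (1 : ℚ) ≤ p := by exact_mod_cast hp.out.one_lt.le
  have hpa : ∀ k < n, ∀ ι, 1 ≤ ι → ι ≤ 2 * h →
      padicNorm p (c * pa (sP n) (mP h) P k ι) * (p : ℚ) ^ (ι * Nat.log p (B * n)) ≤ 1 :=
    fun k hk ι h1 h2' => t_pa p n h B hn he hh hB hpn i i' k ι hi hi' hk h1 h2'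
  have hpa1 : ∀ k < n, ∀ ι, 1 ≤ ι → ι ≤ 2 * h → padicNorm p (c * pa (sP n) (mP h) P k ι) ≤ 1 := by
    intro k hk ι h1 h2'
    refine le_trans ?_ (hpa k hk ι h1 h2')
    exact le_mul_of_one_le_right (padicNorm.nonneg _) (one_le_pow₀ hp1)
  have hDn : padicNorm p (((Dl n B : ℕ) : ℚ) ^ b) ≤ 1 := by
    rw [po_pow]
    exact pow_le_one₀ (padicNorm.nonneg _) (padicNorm.of_nat _)
  have hDn2 : padicNorm p (((Dl n B : ℕ) : ℚ) ^ b) * (p : ℚ) ^ (b * Nat.log p (B * n)) ≤ 1 := by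
    rw [po_pow, mul_comm b, pow_mul, ← mul_pow]
    exact pow_le_one₀ (mul_nonneg (padicNorm.nonneg _) (by positivity)) (norm_Dl p n B hpn)
  have e0 : ((q : ℚ) * scD b n h B i * scD b n h B i') * LaDL b n h B w z (Qb n i * Qb n i') =
      ((Dl n B : ℕ) : ℚ) ^ b * (∑ ι ∈ Finset.Icc 1 (2 * h), bc b ι * ((c * rhoP n h P ι * WW B w (ι + b)) *
        (((Dl n B : ℕ) : ℚ) ^ b * ((q : ℚ) * z (ι + b))) -
        (q : ℚ) * (((Dl n B : ℕ) : ℚ) ^ b * (c * betD b n h B w P ι)))) := by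
    change ((q : ℚ) * scD b n h B i * scD b n h B i') * LaD b n h B w z P = _
    unfold LaD scD
    rw [Finset.mul_sum, Finset.mul_sum]
    refine Finset.sum_congr rfl fun ι _ => ?_
    rw [hc]
    simp only [Algebra.algebraMap_self, RingHom.id_apply]
    ring
  rw [e0]
  apply SE.norm_mul_le hDn
  apply padicNorm.sum_le' _ zero_le_one
  intro ι hι
  rw [Finset.mem_Icc] at hι
  apply SE.norm_mul_le
  · unfold bc
    exact padicNorm.of_nat _
  apply po_sub_le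
  · apply SE.norm_mul_le
    · apply SE.norm_mul_le
      · unfold rhoP
        rw [Finset.mul_sum]
        apply padicNorm.sum_le' _ zero_le_one
        intro k hk
        exact hpa1 k (Finset.mem_range.1 hk) ι hι.1 hι.2
      · exact padicNorm.of_int _
    · exact SE.norm_mul_le hDn (hz _)
  · apply SE.norm_mul_le (padicNorm.of_nat _)
    unfold betD
    rw [Finset.mul_sum, Finset.mul_sum]
    apply padicNorm.sum_le' _ zero_le_one
    intro d hd
    rw [Finset.mem_Icc] at hd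
    have e2 : ((Dl n B : ℕ) : ℚ) ^ b * (c * ((w d : ℚ) * (d : ℚ) ^ (ι + b) *
        ∑ k ∈ sP n, pa (sP n) (mP h) P k ι * hs (ι + b) (d * (k + 1)))) =
        (w d : ℚ) * ∑ k ∈ sP n, ((((Dl n B : ℕ) : ℚ) ^ b) * (c * pa (sP n) (mP h) P k ι)) *
          ((d : ℚ) ^ (ι + b) * hs (ι + b) (d * (k + 1))) := by
      rw [Finset.mul_sum, Finset.mul_sum, Finset.mul_sum, Finset.mul_sum]
      refine Finset.sum_congr rfl fun k _ => ?_
      ring
    rw [e2]
    apply SE.norm_mul_le (padicNorm.of_int _)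
    apply padicNorm.sum_le' _ zero_le_one
    intro k hk
    have hk' := Finset.mem_range.1 hk
    rw [padicNorm.mul, padicNorm.mul]
    have h3 := t_hb p n B d k (ι + b) hd.1 hd.2 hk'
    have h4 := hpa k hk' ι hι.1 hι.2
    calc padicNorm p (((Dl n B : ℕ) : ℚ) ^ b) * padicNorm p (c * pa (sP n) (mP h) P k ι) *
          padicNorm p ((d : ℚ) ^ (ι + b) * hs (ι + b) (d * (k + 1))) ≤
        padicNorm p (((Dl n B : ℕ) : ℚ) ^ b) * padicNorm p (c * pa (sP n) (mP h) P k ι) *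
          (p : ℚ) ^ ((ι + b) * Nat.log p (B * n)) :=
          mul_le_mul_of_nonneg_left h3 (mul_nonneg (padicNorm.nonneg _) (padicNorm.nonneg _))
      _ = (padicNorm p (((Dl n B : ℕ) : ℚ) ^ b) * (p : ℚ) ^ (b * Nat.log p (B * n))) *
          (padicNorm p (c * pa (sP n) (mP h) P k ι) * (p : ℚ) ^ (ι * Nat.log p (B * n))) := by
          rw [Nat.add_mul, pow_add]
          ring
      _ ≤ 1 := mul_le_one₀ hDn2 (mul_nonneg (padicNorm.nonneg _) (by positivity)) h4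

lemma det_norm_le {p : ℕ} [Fact p.Prime] {r : ℕ} (M : Matrix (Fin r) (Fin r) ℚ)
    (h : ∀ i j, padicNorm p (M i j) ≤ 1) : padicNorm p M.det ≤ 1 :=
  SE.det_mem (SFaux.Rp p) M h

theorem t_seD (p : ℕ) [hp : Fact p.Prime] (b n h B : ℕ) (w : ℕ → ℤ) (z : ℕ → ℚ) (q : ℕ)
    (hz : ∀ i, padicNorm p ((q : ℚ) * z i) ≤ 1)
    (hn : 2 ≤ n) (he : Even n) (hh : 1 ≤ h) (hB : 1 ≤ B) (hpn : p ≤ n) (r : ℕ) (hr : 2 * r ≤ h * n) :
    padicNorm p (((q : ℚ) ^ r * ∏ i ∈ Finset.range r, scD b n h B i ^ 2) * DH (moD b n h B w z) r) ≤ 1 := by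
  have hdet : DH (moD b n h B w z) r =
      Matrix.det (Matrix.of fun i j : Fin r => LaDL b n h B w z (Qb n i.1 * Qb n j.1)) := by
    rw [t_bas ℚ ℚ (LaDL b n h B w z) (Qb n) (Qb_monic n) (fun i => Qb_natDegree n i hn) r]
    rfl
  set M : Matrix (Fin r) (Fin r) ℚ :=
    Matrix.of fun i j : Fin r => LaDL b n h B w z (Qb n i.1 * Qb n j.1) with hM
  have hN : Matrix.det (Matrix.of fun i j : Fin r => ((q : ℚ) * scD b n h B i.1) *
      (Matrix.of fun i j : Fin r => (scD b n h B j.1) * M i j) i j) =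
      ((q : ℚ) ^ r * ∏ i ∈ Finset.range r, scD b n h B i ^ 2) * M.det := by
    rw [Matrix.det_mul_column (fun i : Fin r => ((q : ℚ) * scD b n h B i.1)),
      Matrix.det_mul_row (fun j : Fin r => (scD b n h B j.1)), ← mul_assoc]
    congr 1
    rw [Finset.prod_mul_distrib, Finset.prod_const, Finset.card_univ, Fintype.card_fin, mul_assoc,
      ← Finset.prod_mul_distrib]
    congr 1
    rw [Finset.prod_range]
    refine Finset.prod_congr rfl fun i _ => ?_
    ring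
  rw [hdet, ← hN]
  apply det_norm_le
  intro i j
  have hi := i.2
  have hj := j.2
  have key := entryS p b n h B w z q hz hn he hh hB hpn i.1 j.1 (by omega) (by omega)
  have e : (Matrix.of fun i j : Fin r => ((q : ℚ) * scD b n h B i.1) *
      (Matrix.of fun i j : Fin r => (scD b n h B j.1) * M i j) i j) i j =
      ((q : ℚ) * scD b n h B i.1 * scD b n h B j.1) *
        LaDL b n h B w z (Qb n i.1 * Qb n j.1) := by
    simp only [Matrix.of_apply, hM]
    ring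
  rw [e]
  exact key

end

end Pool.Agent.J6H74.MW
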