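import Pool.Agent.J6H74.MW.SE
import Pool.Agent.J6H74.MW.RM

/-!
# Many irrational odd zeta values in every window: integrality at the primes `p > n`
-/

set_option autoImplicit false

open Polynomial Pool.Agent.H337R2 Pool.Agent.W165.OZ Filter Topology

namespace Pool.Agent.J6H74.MW

noncomputable section

open SFaux

/-- matrices of small rank -/
theorem laD {A : Type} [CommRing A] (S : Subring A) (c : A) (r : ℕ) {ι : Type} [Fintype ι] [DecidableEq ι]
    (G : Matrix (Fin r) (Fin r) A) (v u : ι → Fin r → A) (hc : c ∈ S)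
    (hG : ∀ i j, G i j ∈ S) (hv : ∀ s i, v s i ∈ S) (hu : ∀ s i, c * u s i ∈ S) :
    c ^ Fintype.card ι * Matrix.det (G + Matrix.of fun i j => ∑ s, v s i * u s j) ∈ S := by
  set V : Matrix (Fin r) ι A := Matrix.of fun i s => v s i with hV
  set L : Matrix ι (Fin r) A := Matrix.of fun s i => u s i with hL
  have h1 : (Matrix.fromBlocks G V (c • (-L)) (c • (1 : Matrix ι ι A))) =
      Matrix.fromBlocks (1 : Matrix (Fin r) (Fin r) A) 0 0 (c • (1 : Matrix ι ι A)) *
        Matrix.fromBlocks G V (-L) 1 := by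
    rw [Matrix.fromBlocks_multiply]
    simp
  have h2 : (Matrix.fromBlocks G V (c • (-L)) (c • (1 : Matrix ι ι A))).det =
      c ^ Fintype.card ι * Matrix.det (G + Matrix.of fun i j => ∑ s, v s i * u s j) := by
    rw [h1, Matrix.det_mul, Matrix.det_fromBlocks_zero₂₁, Matrix.det_one, one_mul,
      Matrix.det_smul, Matrix.det_one, mul_one, Matrix.det_fromBlocks_one₂₂]
    congr 2
    rw [Matrix.mul_neg, sub_neg_eq_add]
    congr 1
  rw [← h2]
  apply det_mem_subring
  rintro (i | s) (j | t)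
  · rw [Matrix.fromBlocks_apply₁₁]; exact hG i j
  · rw [Matrix.fromBlocks_apply₁₂]; exact hv t i
  · rw [Matrix.fromBlocks_apply₂₁, Matrix.smul_apply, Matrix.neg_apply, hL, Matrix.of_apply,
      smul_eq_mul, mul_neg]
    exact S.neg_mem (hu s j)
  · rw [Matrix.fromBlocks_apply₂₂, Matrix.smul_apply, smul_eq_mul]
    by_cases hst : s = t
    · subst hst
      rw [Matrix.one_apply_eq, mul_one]; exact hc
    · rw [Matrix.one_apply_ne hst, mul_zero]; exact S.zero_mem

/-- the facts on a singular node -/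
structure SingNode (p n : ℕ) (t : ℚ) (k : ℕ) : Prop where
  hk : k < n
  tk : padicNorm p (t + k) = (p : ℚ)⁻¹
  other : ∀ k' < n, k' ≠ k → padicNorm p (t + (k' : ℚ)) = 1
  nz : ∀ k' < n, t + (k' : ℚ) ≠ 0
  int : padicNorm p t ≤ 1

lemma singNode {p : ℕ} [hp : Fact p.Prime] {n B : ℕ} (hnp : n < p) (hBn : B ≤ n) {d k v : ℕ}
    (hd : 1 ≤ d) (hdB : d ≤ B) (hk : k < n) (hv : 1 ≤ v) (hpv : p * v ≤ d * (k + 1)) :
    SingNode p n (((p * v : ℕ) : ℚ) / d - k) k := by
  have hp1 : 1 < p := hp.out.one_lt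
  have hp0 : (0 : ℚ) < p := by exact_mod_cast hp.out.pos
  have hvp : v < p := by
    have h3 : p * v ≤ n * n := hpv.trans (Nat.mul_le_mul (hdB.trans hBn) hk)
    by_contra hcon
    push Not at hcon
    have h4 : p * p ≤ p * v := Nat.mul_le_mul_left p hcon
    have h5 : n * n < p * p := Nat.mul_lt_mul'' hnp hnp
    omega
  have hvn : padicNorm p (v : ℚ) = 1 := po_nat_unit p v hv hvp
  have hdn : padicNorm p (d : ℚ) = 1 := po_nat_unit p d hd (by omega)
  have hd0 : (d : ℚ) ≠ 0 := by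
    have : (0 : ℚ) < d := by exact_mod_cast hd
    exact this.ne'
  have hv0 : (v : ℚ) ≠ 0 := by
    have : (0 : ℚ) < v := by exact_mod_cast hv
    exact this.ne'
  set a : ℚ := ((p * v : ℕ) : ℚ) / d with ha
  have han : padicNorm p a = (p : ℚ)⁻¹ := by
    rw [ha, padicNorm.div, Nat.cast_mul, padicNorm.mul, hvn, hdn, padicNorm.padicNorm_p_of_prime]
    simp
  have ha1 : padicNorm p a < 1 := by
    rw [han]
    exact inv_lt_one_of_one_lt₀ (by exact_mod_cast hp1)
  have ha0 : a ≠ 0 := by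
    rw [ha, Nat.cast_mul]
    exact div_ne_zero (mul_ne_zero hp0.ne' hv0) hd0
  have hother : ∀ k' < n, k' ≠ k → padicNorm p (a - k + (k' : ℚ)) = 1 := by
    intro k' hk' hne
    have h3 := po_int_unit p n k k' hnp hk hk' hne
    have h4 : a - (k : ℚ) + (k' : ℚ) = a + ((k' : ℚ) - (k : ℚ)) := by ring
    rw [h4, padicNorm.add_eq_max_of_ne (by rw [h3]; exact ha1.ne), h3]
    exact max_eq_right ha1.le
  refine ⟨hk, ?_, hother, ?_, ?_⟩
  · rw [sub_add_cancel]; exact han
  · intro k' hk'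
    by_cases hkk : k' = k
    · subst hkk
      simpa using ha0
    · intro h0
      have := hother k' hk' hkk
      rw [h0, padicNorm.zero] at this
      exact zero_ne_one this
  · exact po_sub_le p ha1.le (padicNorm.of_nat k)

lemma bc_int (p : ℕ) [Fact p.Prime] (b i : ℕ) : padicNorm p (bc b i) ≤ 1 := padicNorm.of_nat _

/-- the polar part at a singular node -/
lemma polar {p : ℕ} [hp : Fact p.Prime] {b n h k : ℕ} (hb : Even b) (hnp : n < p) {P : ℚ[X]}
    (hP : ∀ j, padicNorm p (P.coeff j) ≤ 1) (hdeg : P.natDegree < 2 * h * n) {t : ℚ}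
    (hs : SingNode p n t k) :
    padicNorm p ((∑ i ∈ Finset.Icc 1 (2 * h), bc b i * pa (sP n) (mP h) P k i * ((t + k)⁻¹) ^ (i + b)) -
      PowerSeries.coeff b (RS (sP n) (mP h) P t)) ≤ 1 := by
  have hkmem : k ∈ sP n := Finset.mem_range.mpr hs.hk
  rw [coeff_RS' hb P hdeg t hs.nz, ← Finset.add_sum_erase _ _ hkmem]
  have h3 : ∑ i ∈ Finset.Icc 1 (2 * h), pa (sP n) (mP h) P k i * (bc b i / (t + (k : ℚ)) ^ (i + b))
      = ∑ i ∈ Finset.Icc 1 (2 * h), bc b i * pa (sP n) (mP h) P k i * ((t + k)⁻¹) ^ (i + b) := by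
    apply Finset.sum_congr rfl
    intro i _
    rw [div_eq_mul_inv, inv_pow]
    ring
  rw [h3, sub_add_cancel_left, padicNorm.neg]
  apply padicNorm.sum_le' _ zero_le_one
  intro k' hk'
  apply padicNorm.sum_le' _ zero_le_one
  intro i _
  rw [Finset.mem_erase, Finset.mem_range] at hk'
  apply po_mul_le p (t_pj p n h hnp.le P hP k' i hk'.2)
  rw [padicNorm.div, po_pow, hs.other k' hk'.2 hk'.1, one_pow, div_one]
  exact bc_int p b i

/-- the rational part is `p`-integral up to the singular part -/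
lemma keyD (p : ℕ) [Fact p.Prime] (b n h B : ℕ) (w : ℕ → ℤ) (hb : Even b)
    (hn : n < p) (hB : B ≤ n) (P : ℚ[X]) (hP : ∀ j, padicNorm p (P.coeff j) ≤ 1)
    (hdeg : P.natDegree < 2 * h * n) :
    (∑ i ∈ Finset.Icc 1 (2 * h), bc b i * betD b n h B w P i)
      - ∑ s ∈ TT n B p, (w s.1 : ℚ) * (PowerSeries.coeff b (RS (sP n) (mP h) P (tt p s))) ∈ Rp p := by
  have hp0 : 0 < p := lt_of_le_of_lt (Nat.zero_le _) hn
  have e1 : (∑ i ∈ Finset.Icc 1 (2 * h), bc b i * betD b n h B w P i)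
      = ∑ d ∈ Finset.Icc 1 B, ∑ k ∈ Finset.range n, (w d : ℚ) *
        ∑ i ∈ Finset.Icc 1 (2 * h), (d : ℚ) ^ (i + b) * (bc b i * pa (sP n) (mP h) P k i) *
          hs (i + b) (d * (k + 1)) := by
    unfold betD
    simp only [Finset.mul_sum]
    rw [Finset.sum_comm]
    apply Finset.sum_congr rfl
    intro d _
    rw [Finset.sum_comm]
    apply Finset.sum_congr rfl
    intro k _
    apply Finset.sum_congr rfl
    intro i _
    ring
  have e2 : ∑ s ∈ TT n B p, (w s.1 : ℚ) * (PowerSeries.coeff b (RS (sP n) (mP h) P (tt p s)))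
      = ∑ d ∈ Finset.Icc 1 B, ∑ k ∈ Finset.range n, ∑ v ∈ Finset.Icc 1 (d * (k + 1) / p),
        (w d : ℚ) * (PowerSeries.coeff b (RS (sP n) (mP h) P (((p * v : ℕ) : ℚ) / d - k))) := by
    unfold TT
    rw [Finset.sum_sigma]
    apply Finset.sum_congr rfl
    intro d _
    rw [Finset.sum_sigma]
    rfl
  rw [e1, e2, ← Finset.sum_sub_distrib]
  apply Subring.sum_mem
  intro d hd
  rw [Finset.mem_Icc] at hd
  have hd0 : (d : ℚ) ≠ 0 := by
    have : (0 : ℚ) < d := by exact_mod_cast hd.1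
    exact this.ne'
  rw [← Finset.sum_sub_distrib]
  apply Subring.sum_mem
  intro k hk
  rw [Finset.mem_range] at hk
  have e3 : (w d : ℚ) *
        ∑ i ∈ Finset.Icc 1 (2 * h), (d : ℚ) ^ (i + b) * (bc b i * pa (sP n) (mP h) P k i) *
          hs (i + b) (d * (k + 1))
      - ∑ v ∈ Finset.Icc 1 (d * (k + 1) / p),
        (w d : ℚ) * (PowerSeries.coeff b (RS (sP n) (mP h) P (((p * v : ℕ) : ℚ) / d - k)))
      = (w d : ℚ) * ((∑ i ∈ Finset.Icc 1 (2 * h), (d : ℚ) ^ (i + b) * (bc b i * pa (sP n) (mP h) P k i) *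
          (hs (i + b) (d * (k + 1)) - ∑ v ∈ Finset.Icc 1 (d * (k + 1) / p), 1 / ((p * v : ℕ) : ℚ) ^ (i + b)))
        + ∑ v ∈ Finset.Icc 1 (d * (k + 1) / p),
          ((∑ i ∈ Finset.Icc 1 (2 * h), bc b i * pa (sP n) (mP h) P k i *
            (((((p * v : ℕ) : ℚ) / d - k) + k)⁻¹) ^ (i + b)) -
            PowerSeries.coeff b (RS (sP n) (mP h) P (((p * v : ℕ) : ℚ) / d - k)))) := by
    rw [Finset.sum_sub_distrib, ← Finset.mul_sum]
    have e4 : ∑ v ∈ Finset.Icc 1 (d * (k + 1) / p),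
        ∑ i ∈ Finset.Icc 1 (2 * h), bc b i * pa (sP n) (mP h) P k i *
          (((((p * v : ℕ) : ℚ) / d - k) + k)⁻¹) ^ (i + b)
        = ∑ i ∈ Finset.Icc 1 (2 * h), (d : ℚ) ^ (i + b) * (bc b i * pa (sP n) (mP h) P k i) *
          ∑ v ∈ Finset.Icc 1 (d * (k + 1) / p), 1 / ((p * v : ℕ) : ℚ) ^ (i + b) := by
      rw [Finset.sum_comm]
      apply Finset.sum_congr rfl
      intro i _
      rw [Finset.mul_sum]
      apply Finset.sum_congr rfl
      intro v _
      rw [sub_add_cancel, inv_div, div_pow]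
      ring
    rw [e4]
    simp only [mul_sub, Finset.sum_sub_distrib]
    ring
  rw [e3]
  apply Subring.mul_mem _ (int_mem _)
  apply Subring.add_mem
  · apply Subring.sum_mem
    intro i _
    apply Subring.mul_mem
    · apply Subring.mul_mem
      · exact Subring.pow_mem _ (nat_mem d) _
      · exact Subring.mul_mem _ (bc_int p b i) (t_pj p n h hn.le P hP k i hk)
    · exact t_hj p n B d k (i + b) hn hB hd.1 hd.2 hk
  · apply Subring.sum_mem
    intro v hv
    rw [Finset.mem_Icc] at hv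
    exact polar hb hn hP hdeg (singNode hn hB hd.1 hd.2 hk hv.1
      (by rw [mul_comm]; exact (Nat.le_div_iff_mul_le hp0).mp hv.2))

/-- the expansion of `R` at a singular node -/
def AA (n h : ℕ) (t : ℚ) : PowerSeries ℚ := TS t (C 2 * X + C ((n : ℚ) - 1)) * VV (sP n) (mP h) t

lemma RS_num (n h k : ℕ) (t : ℚ) :
    RS (sP n) (mP h) (num n (X ^ k)) t = AA n h t * (TS t (yp n)) ^ k := by
  unfold RS AA num
  rw [Polynomial.X_pow_comp, map_mul, map_pow]
  ring

lemma AA_PB {p : ℕ} [hp : Fact p.Prime] {n h k : ℕ} {t : ℚ} (hs : SingNode p n t k) :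
    PB p (p : ℚ) ((p : ℚ) ^ (2 * h)) (AA n h t) := by
  have hp0 : (0 : ℚ) < p := by exact_mod_cast hp.out.pos
  have hp1 : (1 : ℚ) ≤ p := by exact_mod_cast hp.out.one_lt.le
  have hn1 : padicNorm p ((n : ℚ) - 1) ≤ 1 := po_sub_le p (padicNorm.of_nat n) padicNorm.one.le
  have h2 : padicNorm p (2 : ℚ) ≤ 1 := by
    have := padicNorm.of_nat (p := p) 2
    exact_mod_cast this
  have h1 : PB p (p : ℚ) 1 (TS t (C 2 * X + C ((n : ℚ) - 1))) := by
    have e : TS t (C 2 * X + C ((n : ℚ) - 1)) = PowerSeries.C 2 * PowerSeries.X +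
        PowerSeries.C (2 * t + ((n : ℚ) - 1)) := by
      rw [map_add, map_mul, TS_X, TS_C, TS_C, map_add, map_mul]
      ring
    rw [e]
    apply PB.lin hp0.le zero_le_one
    · exact po_add_le p (po_mul_le p h2 hs.int) hn1
    · rw [one_mul]
      exact h2.trans hp1
  have h3 : PB p (p : ℚ) (∏ m ∈ sP n, (if m = k then (p : ℚ) ^ (2 * h) else 1)) (VV (sP n) (mP h) t) := by
    unfold VV
    apply PB.prod _ _ _ hp0.le
    · intro i _
      split_ifs <;> positivity
    · intro m hm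
      have hm' := Finset.mem_range.1 hm
      by_cases hmk : m = k
      · rw [if_pos hmk, hmk]
        apply PB.pow hp0.le hp0.le
        have e := hs.tk
        apply PB.iv (hs.nz k hs.hk)
        · rw [e, inv_inv]
        · rw [e, inv_inv]
      · rw [if_neg hmk]
        have e := hs.other m hm' hmk
        have := PB.pow (p := p) (ρ := (p : ℚ)) (A := 1) hp0.le zero_le_one
          (PB.iv (hs.nz m hm') (by rw [e, inv_one]) (by rw [e, inv_one]; exact hp1)) (2 * h)
        rwa [one_pow] at this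
  have h4 : (∏ m ∈ sP n, (if m = k then (p : ℚ) ^ (2 * h) else 1)) = (p : ℚ) ^ (2 * h) := by
    rw [Finset.prod_ite_eq' (sP n) k (fun _ => (p : ℚ) ^ (2 * h)), if_pos (Finset.mem_range.2 hs.hk)]
  rw [h4] at h3
  have h5 := PB.mul hp0.le zero_le_one (by positivity) h1 h3
  rw [one_mul] at h5
  exact h5

lemma Y_PB {p : ℕ} [hp : Fact p.Prime] {n : ℕ} {t : ℚ} (ht : padicNorm p t ≤ 1) {ρ : ℚ} (hρ : 1 ≤ ρ)
    (i : ℕ) : PB p ρ 1 ((TS t (yp n)) ^ i) := by
  have hn1 : padicNorm p ((n : ℚ) - 1) ≤ 1 := po_sub_le p (padicNorm.of_nat n) padicNorm.one.le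
  have h0 : (0 : ℚ) ≤ ρ := by linarith
  have h1 : PB p ρ 1 (TS t (yp n)) := by
    have e : TS t (yp n) = (PowerSeries.X + PowerSeries.C t) *
        (PowerSeries.X + PowerSeries.C (t + ((n : ℚ) - 1))) := by
      unfold yp
      rw [map_mul, TS_X, TS_lin]
    rw [e]
    have := PB.mul (p := p) h0 zero_le_one zero_le_one
      (PB.linX h0 zero_le_one ht (by linarith))
      (PB.linX h0 zero_le_one (po_add_le p ht hn1) (by linarith))
    rwa [one_mul] at this
  have := PB.pow h0 zero_le_one h1 i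
  rwa [one_pow] at this

theorem t_sfD (p : ℕ) [hp : Fact p.Prime] (b n h B : ℕ) (w : ℕ → ℤ) (z : ℕ → ℚ) (q : ℕ) (hb : Even b)
    (hz : ∀ i, padicNorm p ((q : ℚ) * z i) ≤ 1) (hn : 2 ≤ n) (hh : 1 ≤ h)
    (hBn : B ≤ n) (hnp : n < p) (r : ℕ) (hr : 2 * r ≤ h * n) :
    padicNorm p (((q : ℚ) ^ r * (p : ℚ) ^ ((2 * h + b) * ((b + 1) * Sp n B p))) *
      DH (moD b n h B w z) r) ≤ 1 := by
  classical
  have hp0 : 0 < p := lt_of_le_of_lt (Nat.zero_le _) hnp
  have hpq : (0 : ℚ) < p := by exact_mod_cast hp0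
  have hpq1 : (1 : ℚ) ≤ p := by exact_mod_cast hp.out.one_lt.le
  have hnode : ∀ s ∈ TT n B p, SingNode p n (tt p s) s.2.1 := by
    intro s hs
    obtain ⟨a1, a2, a3, a4, a5⟩ := mem_TT hs
    exact singNode hnp hBn a1 a2 a3 a4
      (by rw [mul_comm]; exact (Nat.le_div_iff_mul_le hp0).mp a5)
  let ι : Type := (TT n B p) × (Finset.HasAntidiagonal.antidiagonal b)
  let v : ι → Fin r → ℚ := fun s i => PowerSeries.coeff s.2.1.1 ((TS (tt p s.1.1) (yp n)) ^ (i : ℕ))
  let u : ι → Fin r → ℚ := fun s j => -((q : ℚ) * (w s.1.1.1) *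
    PowerSeries.coeff s.2.1.2 (AA n h (tt p s.1.1) * (TS (tt p s.1.1) (yp n)) ^ (j : ℕ)))
  let G : Matrix (Fin r) (Fin r) ℚ := Matrix.of fun i j =>
    (q : ℚ) * moD b n h B w z (i.1 + j.1) - ∑ s, v s i * u s j
  have hsum : ∀ i j : Fin r, ∑ s, v s i * u s j = -((q : ℚ) *
      ∑ s ∈ TT n B p, (w s.1 : ℚ) * (PowerSeries.coeff b (RS (sP n) (mP h) (num n (X ^ (i.1 + j.1))) (tt p s)))) := by
    intro i j
    rw [Finset.mul_sum, ← Finset.sum_neg_distrib, Fintype.sum_prod_type]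
    refine Eq.trans ?_ (Finset.sum_coe_sort (TT n B p) (fun s => -((q : ℚ) * ((w s.1 : ℚ) *
      (PowerSeries.coeff b (RS (sP n) (mP h) (num n (X ^ (i.1 + j.1))) (tt p s)))))))
    refine Finset.sum_congr rfl fun s _ => ?_
    rw [RS_num, pow_add]
    have e1 : AA n h (tt p s.1) * (TS (tt p s.1) (yp n) ^ (i : ℕ) * TS (tt p s.1) (yp n) ^ (j : ℕ)) =
        TS (tt p s.1) (yp n) ^ (i : ℕ) * (AA n h (tt p s.1) * TS (tt p s.1) (yp n) ^ (j : ℕ)) := by ring
    rw [e1, PowerSeries.coeff_mul, Finset.mul_sum, Finset.mul_sum, ← Finset.sum_neg_distrib]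
    refine Eq.trans ?_ (Finset.sum_coe_sort (Finset.HasAntidiagonal.antidiagonal b) (fun x : ℕ × ℕ =>
      -((q : ℚ) * ((w s.1.1 : ℚ) * (PowerSeries.coeff x.1 (TS (tt p s.1) (yp n) ^ (i : ℕ)) *
        PowerSeries.coeff x.2 (AA n h (tt p s.1) * TS (tt p s.1) (yp n) ^ (j : ℕ)))))))
    refine Finset.sum_congr rfl fun x _ => ?_
    simp only [v, u]
    ring
  have hLA := laD (Rp p) ((p : ℚ) ^ (2 * h + b)) r G v u (Subring.pow_mem _ (nat_mem p) _) ?_ ?_ ?_
  · have e1 : G + Matrix.of (fun i j => ∑ s, v s i * u s j)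
        = (q : ℚ) • Matrix.of (fun i j : Fin r => moD b n h B w z (i.1 + j.1)) := by
      ext i j
      simp [G]
    have hcard : Fintype.card ι = (b + 1) * Sp n B p := by
      simp only [ι]
      rw [Fintype.card_prod, Fintype.card_coe, Fintype.card_coe, TT_card, Finset.Nat.card_antidiagonal,
        Nat.mul_comm]
    rw [e1, Matrix.det_smul, Fintype.card_fin, hcard] at hLA
    have e2 : ((q : ℚ) ^ r * (p : ℚ) ^ ((2 * h + b) * ((b + 1) * Sp n B p))) * DH (moD b n h B w z) r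
        = ((p : ℚ) ^ (2 * h + b)) ^ ((b + 1) * Sp n B p) * ((q : ℚ) ^ r *
          Matrix.det (Matrix.of fun i j : Fin r => moD b n h B w z (i.1 + j.1))) := by
      unfold DH
      rw [pow_mul]
      ring
    rw [e2]
    exact hLA
  · intro i j
    set k := i.1 + j.1 with hk
    have hdeg : (num n (X ^ k)).natDegree < 2 * h * n := by
      have := num_natDegree n k
      have := i.2
      have := j.2
      nlinarith
    have hP : ∀ j, padicNorm p ((num n (X ^ k)).coeff j) ≤ 1 := fun j => num_coeff n k j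
    have hkey := keyD p b n h B w hb hnp hBn (num n (X ^ k)) hP hdeg
    have e1 : G i j = (∑ ι ∈ Finset.Icc 1 (2 * h), bc b ι *
        (rhoP n h (num n (X ^ k)) ι * WW B w (ι + b)) * ((q : ℚ) * z (ι + b)))
        - ((q : ℚ) * ((∑ ι ∈ Finset.Icc 1 (2 * h), bc b ι * betD b n h B w (num n (X ^ k)) ι)
          - ∑ s ∈ TT n B p, (w s.1 : ℚ) *
            (PowerSeries.coeff b (RS (sP n) (mP h) (num n (X ^ k)) (tt p s))))) := by
      have e3 : (q : ℚ) * moD b n h B w z k = (∑ ι ∈ Finset.Icc 1 (2 * h), bc b ι *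
          (rhoP n h (num n (X ^ k)) ι * WW B w (ι + b)) * ((q : ℚ) * z (ι + b)))
          - ((q : ℚ) * ∑ ι ∈ Finset.Icc 1 (2 * h), bc b ι * betD b n h B w (num n (X ^ k)) ι) := by
        unfold moD LaD
        simp only [Algebra.algebraMap_self, RingHom.id_apply]
        rw [Finset.mul_sum, Finset.mul_sum, ← Finset.sum_sub_distrib]
        apply Finset.sum_congr rfl
        intro ι _
        ring
      simp only [G, Matrix.of_apply]
      rw [hsum, e3]
      ring
    rw [e1]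
    apply Subring.sub_mem
    · apply Subring.sum_mem
      intro ι _
      apply Subring.mul_mem _ _ (hz _)
      apply Subring.mul_mem _ (bc_int p b ι)
      apply Subring.mul_mem
      · unfold rhoP
        apply Subring.sum_mem
        intro k' hk'
        exact t_pj p n h hnp.le _ hP k' ι (Finset.mem_range.mp hk')
      · exact int_mem _
    · exact Subring.mul_mem _ (nat_mem q) hkey
  · intro s i
    have hs := hnode s.1.1 s.1.2
    simp only [v]
    have := Y_PB (p := p) (n := n) hs.int (le_refl (1 : ℚ)) (i : ℕ) s.2.1.1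
    rw [one_pow, mul_one] at this
    exact this
  · intro s j
    have hs := hnode s.1.1 s.1.2
    simp only [u]
    have h1 := PB.mul hpq.le (by positivity) zero_le_one (AA_PB (h := h) hs)
      (Y_PB (p := p) (n := n) hs.int hpq1 (j : ℕ)) s.2.1.2
    rw [mul_one] at h1
    have hx : s.2.1.2 ≤ b := by
      have := Finset.HasAntidiagonal.mem_antidiagonal.1 s.2.2
      omega
    have e : (p : ℚ) ^ (2 * h + b) * -((q : ℚ) * (w s.1.1.1) *
        PowerSeries.coeff s.2.1.2 (AA n h (tt p s.1.1) * (TS (tt p s.1.1) (yp n)) ^ (j : ℕ)))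
        = -((q : ℚ) * (w s.1.1.1) * ((p : ℚ) ^ (2 * h + b) *
        PowerSeries.coeff s.2.1.2 (AA n h (tt p s.1.1) * (TS (tt p s.1.1) (yp n)) ^ (j : ℕ)))) := by ring
    rw [e]
    apply Subring.neg_mem
    apply Subring.mul_mem _ (Subring.mul_mem _ (nat_mem q) (int_mem _))
    change padicNorm p _ ≤ 1
    rw [padicNorm.mul, po_pow, padicNorm.padicNorm_p_of_prime]
    have h2 : (p : ℚ) ^ (2 * h) * (p : ℚ) ^ s.2.1.2 ≤ (p : ℚ) ^ (2 * h + b) := by
      rw [← pow_add]
      exact pow_le_pow_right₀ hpq1 (by omega)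
    calc ((p : ℚ)⁻¹) ^ (2 * h + b) * padicNorm p (PowerSeries.coeff s.2.1.2
          (AA n h (tt p s.1.1) * (TS (tt p s.1.1) (yp n)) ^ (j : ℕ))) ≤
        ((p : ℚ)⁻¹) ^ (2 * h + b) * (p : ℚ) ^ (2 * h + b) :=
          mul_le_mul_of_nonneg_left (h1.trans h2) (by positivity)
      _ = 1 := by rw [← mul_pow, inv_mul_cancel₀ hpq.ne', one_pow]

end

end Pool.Agent.J6H74.MW
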